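import Pool.Agent.SMin2.FCore2
import Pool.Agent.SMin.Fin

set_option autoImplicit false
open Finset Filter

namespace Pool.Agent.SMin2
open Pool.Agent.SMin

/-- second term: small `N` -/
lemma fn_second2 (ell : ℕ → ℝ) (hell : Rate ell) (d : ℕ) (hd2 : 2 ≤ d) (z : ℂ) (hz0 : z ≠ 0) (hzd : z ≠ d)
    (hinv : ∀ n : ℕ, ∀ A : Fin n → Fin n → Bool, (Mz z A).det ≠ 0) (ε : ℝ) (hε : 0 < ε)
    (κ : ℝ) (hκ : 0 < κ) : ∀ᶠ n : ℕ in atTop,
      fr (Reg n d ×ˢ (univ : Finset (Fin n × Fin n)))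
        (fun s => ‖Nij z s.1 s.2.1 s.2.2‖ ≤ 1 / Real.exp (ε / 2 * ell n)) ≤ κ := by
  classical
  have hF := F_core ell hell d hd2 z hz0 hzd (κ ^ 2 / 2) (ε / 4) (by positivity) (by positivity)
    (κ ^ 2 / 4) (by positivity)
  have hz : 0 < ‖z‖ := norm_pos_iff.2 hz0
  have hdz : (0:ℝ) < d + ‖z‖ := by positivity
  have hsc : ∀ᶠ n : ℕ in atTop, 4 / ‖z‖ * Real.exp (-(ε / 2 * ell n)) <
      1 / (d + ‖z‖) * Real.exp (-(ε / 4 * ell n)) :=
    ct_scale2 ell hell _ (ε / 2) (ε / 4) (1 / (d + ‖z‖)) (by positivity) (by linarith)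
  filter_upwards [hF, hsc, eventually_gt_atTop 0] with n hF hsc hn
  have hn0 : (0:ℝ) < n := by exact_mod_cast hn
  by_contra hlt
  push Not at hlt
  have hr := rect hn (Reg n d) (fun A i j => ‖Nij z A i j‖ ≤ 1 / Real.exp (ε / 2 * ell n)) κ hκ.le hlt.le
  have hincl : fr (Reg n d ×ˢ (univ : Finset (Fin n × Fin n))) (fun t =>
      κ ^ 2 / 2 * n ≤ ((univ.filter (fun i => ‖Nij z t.1 i t.2.1‖ ≤ 1 / Real.exp (ε / 2 * ell n) ∧
        ‖Nij z t.1 i t.2.2‖ ≤ 1 / Real.exp (ε / 2 * ell n))).card : ℝ)) ≤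
      fr (Reg n d ×ˢ (univ : Finset (Fin n × Fin n))) (fun t => ∃ w y : Fin n → ℂ, ∃ a : ℂ,
        (∀ i, L z (toN t.1) w i = (if i = t.2.1 then 1 else 0) - (if i = t.2.2 then 1 else 0)) ∧
        (∀ i, L z (tr (toN t.1)) y i = (if i = t.2.1 then 1 else 0) - (if i = t.2.2 then 1 else 0)) ∧
        κ ^ 2 / 2 * n ≤ (bc (fun i => w i + y i) univ a
          (Real.exp (-(ε / 4 * ell n)) * Real.sqrt (max (∑ k, ‖w k‖ ^ 2) (∑ k, ‖y k‖ ^ 2))) : ℝ)) := by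
    apply fr_mono
    rintro ⟨A, j, j'⟩ hmem hI
    rw [mem_product] at hmem
    simp only at hI ⊢
    refine fn_incl z hz0 A (hinv n A) j j' (1 / Real.exp (ε / 2 * ell n)) (Real.exp (-(ε / 4 * ell n)))
      (κ ^ 2 / 2) (by positivity) (Real.exp_pos _).le _ hI ?_ ?_
    · intro i hi
      exact (mem_filter.1 hi).2
    · intro hjj
      have h1 := fn_w_lower z d A hmem.1 (fn_w z A j j') j (by
        rw [fn_w_eq z A (hinv n A), if_pos rfl, if_neg hjj, sub_zero])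
      have h2 : Real.sqrt (∑ k, ‖fn_w z A j j' k‖ ^ 2) ≤
          Real.sqrt (max (∑ k, ‖fn_w z A j j' k‖ ^ 2) (∑ k, ‖fn_y z A j j' k‖ ^ 2)) :=
        Real.sqrt_le_sqrt (le_max_left _ _)
      have h3 : 1 / Real.exp (ε / 2 * ell n) = Real.exp (-(ε / 2 * ell n)) := by rw [Real.exp_neg, one_div]
      rw [h3]
      calc 4 * Real.exp (-(ε / 2 * ell n)) / ‖z‖ = 4 / ‖z‖ * Real.exp (-(ε / 2 * ell n)) := by ring
        _ ≤ 1 / (d + ‖z‖) * Real.exp (-(ε / 4 * ell n)) := hsc.le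
        _ = Real.exp (-(ε / 4 * ell n)) * (1 / (d + ‖z‖)) := by ring
        _ ≤ Real.exp (-(ε / 4 * ell n)) * Real.sqrt (max (∑ k, ‖fn_w z A j j' k‖ ^ 2)
            (∑ k, ‖fn_y z A j j' k‖ ^ 2)) :=
          mul_le_mul_of_nonneg_left (h1.trans h2) (Real.exp_pos _).le
  have hk : 0 < κ ^ 2 := by positivity
  have hr' : κ ^ 2 / 2 ≤ fr (Reg n d ×ˢ (univ : Finset (Fin n × Fin n))) (fun t =>
      κ ^ 2 / 2 * n ≤ ((univ.filter (fun i => ‖Nij z t.1 i t.2.1‖ ≤ 1 / Real.exp (ε / 2 * ell n) ∧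
        ‖Nij z t.1 i t.2.2‖ ≤ 1 / Real.exp (ε / 2 * ell n))).card : ℝ)) := by
    convert hr
  linarith

/-- first term: near-singular and `N` not large -/
lemma fn_first2 (ell : ℕ → ℝ) (hell : Rate ell) (d : ℕ) (hd2 : 2 ≤ d) (z : ℂ) (hz0 : z ≠ 0) (hzd : z ≠ d)
    (hinv : ∀ n : ℕ, ∀ A : Fin n → Fin n → Bool, (Mz z A).det ≠ 0) (ε : ℝ) (hε : 0 < ε)
    (κ : ℝ) (hκ : 0 < κ) : ∀ᶠ n : ℕ in atTop,
      fr (Reg n d ×ˢ (univ : Finset (Fin n × Fin n)))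
        (fun s => (∃ x : Fin n → ℂ, (∑ k, ‖x k‖ ^ 2 = 1) ∧
          ∑ k, ‖(Matrix.mulVec (Mz z s.1) x) k‖ ^ 2 ≤ Real.exp (-(ε * ell n)) ^ 2) ∧
          ‖Nij z s.1 s.2.1 s.2.2‖ ≤ Real.exp (ε / 2 * ell n)) ≤ κ := by
  classical
  set q : ℝ := κ ^ 2 / 2 with hq
  have hq0 : 0 < q := by positivity
  have hF := F_core ell hell d hd2 z hz0 hzd q (ε / 4) hq0 (by positivity) (q / 5) (by positivity)
  have hS := S_main ell hell d hd2 z hz0 hzd (q / 5) (ε / 8) (by positivity) (by positivity) (q / 5) (by positivity)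
  have hz : 0 < ‖z‖ := norm_pos_iff.2 hz0
  have hsc : ∀ᶠ n : ℕ in atTop, 4 / ‖z‖ * Real.exp (-(-(ε / 2) * ell n)) <
      1 * Real.exp (-(-(5 * ε / 8) * ell n)) :=
    ct_scale2 ell hell _ (-(ε / 2)) (-(5 * ε / 8)) 1 one_pos (by linarith)
  filter_upwards [hF, hS, hsc, hell.pos, eventually_gt_atTop 0] with n hF hS hsc hl0 hn
  have hn0 : (0:ℝ) < n := by exact_mod_cast hn
  by_contra hlt
  push Not at hlt
  set Z : (Fin n → Fin n → Bool) → Prop := fun A => ∃ x : Fin n → ℂ, (∑ k, ‖x k‖ ^ 2 = 1) ∧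
          ∑ k, ‖(Matrix.mulVec (Mz z A) x) k‖ ^ 2 ≤ Real.exp (-(ε * ell n)) ^ 2 with hZ
  have hr := rect hn (Reg n d) (fun A i j => Z A ∧ ‖Nij z A i j‖ ≤ Real.exp (ε / 2 * ell n)) κ hκ.le hlt.le
  -- the chosen near-kernel vector
  set v : (Fin n → Fin n → Bool) → Fin n → ℂ := fun A => if h : Z A then h.choose else 0 with hv
  have hv1 : ∀ A, Z A → (∑ k, ‖v A k‖ ^ 2 = 1) ∧
          ∑ k, ‖(Matrix.mulVec (Mz z A) (v A)) k‖ ^ 2 ≤ Real.exp (-(ε * ell n)) ^ 2 := by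
    intro A h
    have : v A = h.choose := by simp only [hv, dif_pos h]
    rw [this]; exact h.choose_spec
  set SB : (Fin n → Fin n → Bool) × (Fin n × Fin n) → Prop := fun t => ∃ x : Fin n → ℂ,
        (∑ k, ‖x k‖ ^ 2 = 1) ∧
        (∀ i, i ≠ t.2.1 → i ≠ t.2.2 → ‖L z (toN t.1) x i‖ ≤ Real.exp (-(ε / 8 * ell n))) ∧
        ∃ a : ℂ, q / 5 * n ≤ (bc x univ a (Real.exp (-(ε / 8 * ell n))) : ℝ) with hSB
  set CL : (Fin n → Fin n → Bool) → Fin n → Fin n → Prop := fun A j j' =>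
    (∀ b : ℂ, (bc (v A) univ b (Real.exp (-(ε / 8 * ell n))) : ℝ) < q / 5 * n) ∧
      ‖v A j - v A j'‖ ≤ Real.exp (-(ε / 8 * ell n)) with hCL
  set FC : (Fin n → Fin n → Bool) × (Fin n × Fin n) → Prop := fun t => ∃ w y : Fin n → ℂ, ∃ a : ℂ,
        (∀ i, L z (toN t.1) w i = (if i = t.2.1 then 1 else 0) - (if i = t.2.2 then 1 else 0)) ∧
        (∀ i, L z (tr (toN t.1)) y i = (if i = t.2.1 then 1 else 0) - (if i = t.2.2 then 1 else 0)) ∧
        q * n ≤ (bc (fun i => w i + y i) univ a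
          (Real.exp (-(ε / 4 * ell n)) * Real.sqrt (max (∑ k, ‖w k‖ ^ 2) (∑ k, ‖y k‖ ^ 2))) : ℝ) with hFC
  have hcl : fr (Reg n d ×ˢ (univ : Finset (Fin n × Fin n))) (fun t => CL t.1 t.2.1 t.2.2) ≤ q / 5 := by
    apply fn_fib _ _ _ _ (by positivity)
    intro A _ j _
    by_cases hb : ∀ b : ℂ, (bc (v A) univ b (Real.exp (-(ε / 8 * ell n))) : ℝ) < q / 5 * n
    · refine le_trans ?_ (hb (v A j)).le
      have : (univ.filter (fun j' => CL A j j')).card ≤ bc (v A) univ (v A j) (Real.exp (-(ε / 8 * ell n))) := by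
        unfold bc
        apply card_le_card
        intro k hk
        rw [mem_filter] at hk ⊢
        refine ⟨mem_univ _, ?_⟩
        rw [norm_sub_rev]; exact hk.2.2
      exact_mod_cast this
    · have : (univ.filter (fun j' => CL A j j')) = ∅ := by
        rw [filter_eq_empty_iff]
        intro k _ hk
        exact hb hk.1
      rw [this]; simp; positivity
  have hincl : fr (Reg n d ×ˢ (univ : Finset (Fin n × Fin n))) (fun t =>
      κ ^ 2 / 2 * n ≤ ((univ.filter (fun i => (Z t.1 ∧ ‖Nij z t.1 i t.2.1‖ ≤ Real.exp (ε / 2 * ell n)) ∧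
        (Z t.1 ∧ ‖Nij z t.1 i t.2.2‖ ≤ Real.exp (ε / 2 * ell n)))).card : ℝ)) ≤
      fr (Reg n d ×ˢ (univ : Finset (Fin n × Fin n))) (fun t => (SB t ∨ CL t.1 t.2.1 t.2.2) ∨ FC t) := by
    apply fr_mono
    rintro ⟨A, j, j'⟩ hmem hI
    rw [mem_product] at hmem
    simp only at hI ⊢
    by_cases hsb : SB (A, (j, j'))
    · left; left; exact hsb
    by_cases hc : CL A j j'
    · left; right; exact hc
    right
    -- `Z A` holds
    have hIc : 0 < (univ.filter (fun i => (Z A ∧ ‖Nij z A i j‖ ≤ Real.exp (ε / 2 * ell n)) ∧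
        (Z A ∧ ‖Nij z A i j'‖ ≤ Real.exp (ε / 2 * ell n)))).card := by
      have : (0:ℝ) < ((univ.filter (fun i => (Z A ∧ ‖Nij z A i j‖ ≤ Real.exp (ε / 2 * ell n)) ∧
        (Z A ∧ ‖Nij z A i j'‖ ≤ Real.exp (ε / 2 * ell n)))).card : ℝ) :=
        lt_of_lt_of_le (by positivity) hI
      exact_mod_cast this
    obtain ⟨i0, hi0⟩ := card_pos.1 hIc
    have hZA : Z A := (mem_filter.1 hi0).2.1.1
    obtain ⟨hv2, hv3⟩ := hv1 A hZA
    have hlev : ∀ b : ℂ, (bc (v A) univ b (Real.exp (-(ε / 8 * ell n))) : ℝ) < q / 5 * n := by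
      intro b
      by_contra hb
      push Not at hb
      apply hsb
      refine ⟨v A, hv2, ?_, b, hb⟩
      intro i _ _
      simp only
      rw [← fn_mulVec]
      refine (fc_norm_le _ i).trans ?_
      rw [Real.sqrt_le_left (Real.exp_pos _).le]
      refine hv3.trans ?_
      apply pow_le_pow_left₀ (Real.exp_pos _).le
      rw [Real.exp_le_exp]
      have : ε / 8 * ell n ≤ ε * ell n := mul_le_mul_of_nonneg_right (by linarith) hl0.le
      linarith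
    have hfar : Real.exp (-(ε / 8 * ell n)) < ‖v A j - v A j'‖ := by
      by_contra h
      exact hc ⟨hlev, not_lt.1 h⟩
    refine fn_incl z hz0 A (hinv n A) j j' (Real.exp (ε / 2 * ell n)) (Real.exp (-(ε / 4 * ell n)))
      q (by positivity) (Real.exp_pos _).le _ hI ?_ ?_
    · intro i hi
      have := (mem_filter.1 hi).2
      exact ⟨this.1.2, this.2.2⟩
    · intro _
      have h1 := fn_y_lower z A (hinv n A) j j' (v A) (Real.exp (-(ε * ell n))) (Real.exp_pos _).le hv3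
      have h2 : Real.sqrt (∑ k, ‖fn_y z A j j' k‖ ^ 2) ≤
          Real.sqrt (max (∑ k, ‖fn_w z A j j' k‖ ^ 2) (∑ k, ‖fn_y z A j j' k‖ ^ 2)) :=
        Real.sqrt_le_sqrt (le_max_right _ _)
      have h3 : Real.exp (7 * ε / 8 * ell n) ≤ Real.sqrt (∑ k, ‖fn_y z A j j' k‖ ^ 2) := by
        have h4 : Real.exp (-(ε / 8 * ell n)) ≤ Real.sqrt (∑ k, ‖fn_y z A j j' k‖ ^ 2) * Real.exp (-(ε * ell n)) :=
          hfar.le.trans h1
        have h5 : Real.exp (-(ε / 8 * ell n)) = Real.exp (7 * ε / 8 * ell n) * Real.exp (-(ε * ell n)) := by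
          rw [← Real.exp_add]; congr 1; ring
        rw [h5] at h4
        exact le_of_mul_le_mul_right h4 (Real.exp_pos _)
      calc 4 * Real.exp (ε / 2 * ell n) / ‖z‖ = 4 / ‖z‖ * Real.exp (-(-(ε / 2) * ell n)) := by
            rw [show -(-(ε / 2) * ell n) = ε / 2 * ell n by ring]; ring
        _ ≤ 1 * Real.exp (-(-(5 * ε / 8) * ell n)) := hsc.le
        _ = Real.exp (-(ε / 4 * ell n)) * Real.exp (7 * ε / 8 * ell n) := by
            rw [one_mul, ← Real.exp_add]; congr 1; ring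
        _ ≤ Real.exp (-(ε / 4 * ell n)) * Real.sqrt (max (∑ k, ‖fn_w z A j j' k‖ ^ 2)
            (∑ k, ‖fn_y z A j j' k‖ ^ 2)) :=
          mul_le_mul_of_nonneg_left (h3.trans h2) (Real.exp_pos _).le
  have hr' : κ ^ 2 / 2 ≤ fr (Reg n d ×ˢ (univ : Finset (Fin n × Fin n))) (fun t =>
      κ ^ 2 / 2 * n ≤ ((univ.filter (fun i => (Z t.1 ∧ ‖Nij z t.1 i t.2.1‖ ≤ Real.exp (ε / 2 * ell n)) ∧
        (Z t.1 ∧ ‖Nij z t.1 i t.2.2‖ ≤ Real.exp (ε / 2 * ell n)))).card : ℝ)) := by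
    convert hr
  have e1 := fr_or_le (Reg n d ×ˢ (univ : Finset (Fin n × Fin n)))
    (fun t => SB t ∨ CL t.1 t.2.1 t.2.2) FC
  have e2 := fr_or_le (Reg n d ×ˢ (univ : Finset (Fin n × Fin n))) SB (fun t => CL t.1 t.2.1 t.2.2)
  have e3 : fr (Reg n d ×ˢ (univ : Finset (Fin n × Fin n))) SB ≤ q / 5 := hS
  have e4 : fr (Reg n d ×ˢ (univ : Finset (Fin n × Fin n))) FC ≤ q / 5 := hF
  have e5 : κ ^ 2 / 2 = q := rfl
  linarith

theorem final (ell : ℕ → ℝ) (hell : Rate ell) (d : ℕ) (hd2 : 2 ≤ d) (z : ℂ) (hz0 : z ≠ 0)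
    (hzd : z ≠ d)
    (hinv : ∀ n : ℕ, ∀ A : Fin n → Fin n → Bool, (Mz z A).det ≠ 0) (ε : ℝ) (hε : 0 < ε)
    (η : ℝ) (hη : 0 < η) : ∀ᶠ n : ℕ in atTop,
      fr (Reg n d) (fun A => ∃ x : Fin n → ℂ, (∑ k, ‖x k‖ ^ 2 = 1) ∧
        ∑ k, ‖(Matrix.mulVec (Mz z A) x) k‖ ^ 2 ≤ Real.exp (-(ε * ell n)) ^ 2) ≤ η := by
  classical
  filter_upwards [fn_first2 ell hell d hd2 z hz0 hzd hinv ε hε (η / 2) (by positivity),
    fn_second2 ell hell d hd2 z hz0 hzd hinv ε hε (η / 2) (by positivity), eventually_gt_atTop 0] with n h1 h2 hn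
  have h3 := smin_le_two d z hz0 n (fun A _ => hinv n A) (fun A => ∃ x : Fin n → ℂ,
    (∑ k, ‖x k‖ ^ 2 = 1) ∧
        ∑ k, ‖(Matrix.mulVec (Mz z A) x) k‖ ^ 2 ≤ Real.exp (-(ε * ell n)) ^ 2) hn
        (Real.exp (ε / 2 * ell n)) (Real.exp_pos _)
  linarith

end Pool.Agent.SMin2
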