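import Pool.Agent.SMin.Base

set_option autoImplicit false
open Finset Filter

namespace Pool.Agent.SMin2
open Pool.Agent.SMin

/-- rate functions: `ell n / log n → ∞` -/
def Rate (ell : ℕ → ℝ) : Prop := Tendsto (fun n : ℕ => ell n / Real.log n) atTop atTop

lemma Rate.ge_log {ell : ℕ → ℝ} (h : Rate ell) (C : ℝ) :
    ∀ᶠ n : ℕ in atTop, C * Real.log n ≤ ell n := by
  filter_upwards [h.eventually (eventually_ge_atTop C), eventually_gt_atTop 1] with n hn h1
  have hl : 0 < Real.log n := Real.log_pos (by exact_mod_cast h1)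
  rwa [le_div_iff₀ hl] at hn

lemma Rate.pos {ell : ℕ → ℝ} (h : Rate ell) : ∀ᶠ n : ℕ in atTop, 0 < ell n := by
  filter_upwards [h.ge_log 1, eventually_gt_atTop 1] with n hn h1
  have hl : 0 < Real.log n := Real.log_pos (by exact_mod_cast h1)
  linarith

lemma Rate.tendsto {ell : ℕ → ℝ} (h : Rate ell) : Tendsto ell atTop atTop := by
  have h1 : Tendsto (fun n : ℕ => Real.log n) atTop atTop :=
    Real.tendsto_log_atTop.comp tendsto_natCast_atTop_atTop
  apply tendsto_atTop_mono' _ _ h1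
  filter_upwards [h.ge_log 1] with n hn
  linarith

/-- `exp (-(δ ell n))` beats every polynomial -/
lemma Rate.exp_le {ell : ℕ → ℝ} (h : Rate ell) (δ : ℝ) (hδ : 0 < δ) (C : ℝ) (k : ℕ) :
    ∀ᶠ n : ℕ in atTop, C * (n : ℝ) ^ k * Real.exp (-(δ * ell n)) ≤ 1 := by
  have hC : Tendsto (fun n : ℕ => (n : ℝ)) atTop atTop := tendsto_natCast_atTop_atTop
  filter_upwards [h.ge_log ((k + 1) / δ), hC.eventually (eventually_ge_atTop C),
    eventually_gt_atTop 1] with n hn hCn h1
  have hn0 : (0 : ℝ) < n := by exact_mod_cast (by omega : 0 < n)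
  have h2 : ((k : ℝ) + 1) * Real.log n ≤ δ * ell n := by
    have : δ * ((k + 1) / δ * Real.log n) ≤ δ * ell n := mul_le_mul_of_nonneg_left hn hδ.le
    calc ((k : ℝ) + 1) * Real.log n = δ * ((k + 1) / δ * Real.log n) := by field_simp
      _ ≤ _ := this
  have h3 : Real.exp (-(δ * ell n)) ≤ ((n : ℝ) ^ (k + 1))⁻¹ := by
    calc Real.exp (-(δ * ell n)) ≤ Real.exp (-(((k : ℝ) + 1) * Real.log n)) :=
          Real.exp_le_exp.2 (by linarith)
      _ = ((n : ℝ) ^ (k + 1))⁻¹ := by
          rw [Real.exp_neg]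
          congr 1
          rw [show ((k : ℝ) + 1) * Real.log n = ((k + 1 : ℕ) : ℝ) * Real.log n by push_cast; ring,
            Real.exp_nat_mul, Real.exp_log hn0]
  rcases le_or_gt C 0 with hC0 | hC0
  · have : C * (n : ℝ) ^ k * Real.exp (-(δ * ell n)) ≤ 0 := by
      apply mul_nonpos_of_nonpos_of_nonneg _ (Real.exp_pos _).le
      exact mul_nonpos_of_nonpos_of_nonneg hC0 (by positivity)
    linarith
  · calc C * (n : ℝ) ^ k * Real.exp (-(δ * ell n)) ≤ n * (n : ℝ) ^ k * ((n : ℝ) ^ (k + 1))⁻¹ := by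
          gcongr
      _ = 1 := by
          rw [pow_succ]; field_simp

lemma Rate.const_mul {ell : ℕ → ℝ} (h : Rate ell) (a : ℝ) (ha : 0 < a) :
    Rate (fun n => a * ell n) := by
  unfold Rate
  have : (fun n : ℕ => a * ell n / Real.log n) = fun n : ℕ => a * (ell n / Real.log n) := by
    funext n; ring
  rw [this]
  exact h.const_mul_atTop ha

lemma rate_rpow (a : ℝ) (ha : 0 < a) : Rate (fun n : ℕ => (n : ℝ) ^ a) := by
  unfold Rate
  have h1 : Tendsto (fun x : ℝ => Real.log x / x ^ a) atTop (nhds 0) :=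
    (isLittleO_log_rpow_atTop ha).tendsto_div_nhds_zero
  have h2 : Tendsto (fun x : ℝ => (Real.log x / x ^ a)⁻¹) atTop atTop := by
    apply Tendsto.inv_tendsto_nhdsGT_zero
    rw [tendsto_nhdsWithin_iff]
    refine ⟨h1, ?_⟩
    filter_upwards [eventually_gt_atTop 1] with x hx
    exact div_pos (Real.log_pos hx) (Real.rpow_pos_of_pos (by linarith) _)
  have h3 := h2.comp (tendsto_natCast_atTop_atTop (R := ℝ))
  refine h3.congr fun n => ?_
  simp [Function.comp]

lemma rate_nat : Rate (fun n : ℕ => (n : ℝ)) := by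
  have := rate_rpow 1 one_pos
  simpa using this

end Pool.Agent.SMin2
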