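import Pool.Agent.SMin2.Viol2
import Pool.Agent.SMin.CFirst

set_option autoImplicit false
open Finset Filter

namespace Pool.Agent.SMin2
open Pool.Agent.SMin

open Classical in
theorem C1 (ell : ℕ → ℝ) (hell : Rate ell) (d : ℕ) (hd1 : 1 ≤ d) (z : ℂ) (ε : ℝ) (hε : 0 < ε)
    (hε1 : ε < 1) :
    ∃ τ : ℝ, 0 < τ ∧ τ ≤ 1 / 4 ∧ ∀ s : ℕ, ∃ ρ' : ℝ, 0 < ρ' ∧
      ∀ δm δp : ℝ, 0 < δm → 0 < δp → δp ≤ τ * δm → ∃ c : ℝ, 0 < c ∧
        ∀ᶠ n : ℕ in atTop, ∀ E : Finset (Fin n), E.card ≤ 2 →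
          fr (univ : Finset (Cfg n d)) (fun σ => ∃ x : Fin n → ℂ,
            Sol z (mult σ) E (Real.exp (-(δm * ell n))) x ∧
            ∃ typ : Fin n → Fin s ⊕ Bool,
              (∀ k l : Fin n, ∀ c : Fin s, typ k = Sum.inl c → typ l = Sum.inl c →
                ‖x k - x l‖ ≤ Real.exp (-(δm * ell n))) ∧
              (∀ b : ℂ, (bc x (univ.filter (fun k => typ k = Sum.inr false)) b
                (Real.exp (-(δp * ell n))) : ℝ) < ρ' * n) ∧
              ((univ.filter (fun k => typ k = Sum.inr false ∨ typ k = Sum.inr true)).card : ℝ) + ε * n <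
                ((univ.filter (fun i => Touch σ
                  (univ.filter (fun k => typ k = Sum.inr false)) i)).card : ℝ))
            ≤ Real.exp (-(c * n)) := by
  have hdpos : (0 : ℝ) < d := by exact_mod_cast hd1
  set τ : ℝ := ε / 10 with hτ
  have hτ0 : 0 < τ := by positivity
  have hτ4 : τ ≤ 1 / 4 := by rw [hτ]; linarith
  refine ⟨τ, hτ0, hτ4, ?_⟩
  intro s
  set p : ℝ := (1 / (4 * ((s : ℝ) + 2))) ^ (1 / τ) with hp
  have hbase0 : (0 : ℝ) < 1 / (4 * ((s : ℝ) + 2)) := by positivity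
  have hbase1 : 1 / (4 * ((s : ℝ) + 2)) ≤ 1 := by
    rw [div_le_one (by positivity)]
    have : (0 : ℝ) ≤ s := Nat.cast_nonneg s
    linarith
  have hp0 : 0 < p := Real.rpow_pos_of_pos hbase0 _
  have hp1 : p ≤ 1 := Real.rpow_le_one hbase0.le hbase1 (by positivity)
  have hpτ : p ^ τ = 1 / (4 * ((s : ℝ) + 2)) := by
    rw [hp, ← Real.rpow_mul hbase0.le, one_div_mul_cancel hτ0.ne', Real.rpow_one]
  set ρ' : ℝ := τ * p / (2 * d) with hρ'
  have hρ'0 : 0 < ρ' := by positivity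
  refine ⟨ρ', hρ'0, ?_⟩
  intro δm δp hδm hδp hδ
  refine ⟨1 / 2, by norm_num, ?_⟩
  set C : ℝ := 1 + d + ‖z‖ with hC
  have hC1 : 1 ≤ C := by
    rw [hC]
    have := norm_nonneg z
    linarith
  have hCpos : 0 < C := lt_of_lt_of_le one_pos hC1
  have hviol := viol_bound ell hell (s + 1) ((d + ‖z‖) ^ 2) ((s : ℝ) + 1) C δm δp τ
    (by have := norm_nonneg z; positivity) (by positivity) hCpos hδm hδp hτ0 hτ4 hδ
  have hlarge : ∀ᶠ n : ℕ in atTop, (2 + 2 * (s : ℝ)) / (ε / 10) ≤ (n : ℝ) :=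
    tendsto_natCast_atTop_atTop.eventually_ge_atTop _
  filter_upwards [hviol, hlarge, c1_tail p hp0, eventually_ge_atTop 1] with n hv hn htail hn1
  intro E hE
  have hnpos : (0 : ℝ) < n := by exact_mod_cast hn1
  have hs0 : (0 : ℝ) ≤ s := Nat.cast_nonneg s
  have hn' : 2 + 2 * (s : ℝ) ≤ τ * n := by
    rw [div_le_iff₀ (by positivity)] at hn
    calc 2 + 2 * (s : ℝ) ≤ n * (ε / 10) := hn
      _ = τ * n := by rw [hτ]; ring
  have hfl1 : (⌊τ * n⌋₊ : ℝ) ≤ τ * n := Nat.floor_le (by positivity)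
  have hfl2 : τ * n < (⌊τ * n⌋₊ : ℝ) + 1 := Nat.lt_floor_add_one _
  have hτn : τ * n ≤ n := by
    have : τ ≤ 1 := by linarith
    nlinarith
  have hfln : ⌊τ * n⌋₊ ≤ n := by
    have : (⌊τ * n⌋₊ : ℝ) ≤ n := hfl1.trans hτn
    exact_mod_cast this
  have hfl0 : 1 ≤ ⌊τ * n⌋₊ := by
    apply Nat.le_floor
    push_cast
    linarith
  set T := n - ⌊τ * n⌋₊ with hT
  have hTn : T < n := by omega
  have hTcast : (T : ℝ) = n - (⌊τ * n⌋₊ : ℝ) := by rw [hT, Nat.cast_sub hfln]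
  -- fixed typ
  have hfix : ∀ typ ∈ (univ : Finset (Fin n → Fin s ⊕ Bool)),
      fr (univ : Finset (Cfg n d)) (fun σ => ∃ x : Fin n → ℂ,
        Sol z (mult σ) E (Real.exp (-(δm * ell n))) x ∧
        (∀ k l : Fin n, ∀ c : Fin s, typ k = Sum.inl c → typ l = Sum.inl c →
          ‖x k - x l‖ ≤ Real.exp (-(δm * ell n))) ∧
        (∀ b : ℂ, (bc x (univ.filter (fun k => typ k = Sum.inr false)) b
          (Real.exp (-(δp * ell n))) : ℝ) < ρ' * n) ∧
        ⌊(1 + 2 * τ) * (Fintype.card (C1ι typ) : ℝ)⌋₊ + ⌊τ * n⌋₊ ≤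
          ((range T).filter (fun t => c1E E typ t σ)).card) ≤
      (T.choose ⌊τ * n⌋₊ : ℝ) * p ^ ⌊τ * n⌋₊ := by
    intro typ _
    have hD : Fintype.card (C1ι typ) ≤ (s + 1) * n := by
      rw [c1_cardι]
      have h1 : (univ.filter (fun k => typ k = Sum.inr false ∨ typ k = Sum.inr true)).card ≤ n := by
        refine (card_filter_le _ _).trans ?_
        rw [card_univ, Fintype.card_fin]
      nlinarith
    have hTle : T ≤ (s + 1) * n := by nlinarith
    refine c1_fixed hd1 z E typ _ _ ρ' p C (Real.exp (-(δp * ell n)) / C) T _ _ hTn (Real.exp_pos _)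
      hρ'0.le le_rfl (by positivity) ?_ hp0.le ?_ (hv _ _ hD hTle)
    · exact div_le_self (Real.exp_pos _).le hC1
    · intro t ht
      have h1 : (t : ℝ) + 1 ≤ T := by exact_mod_cast ht
      have h2 : τ * n / 2 ≤ (n : ℝ) - t - 1 := by
        rw [hTcast] at h1
        linarith
      calc (d : ℝ) * (ρ' * n) = p * (τ * n / 2) := by
            rw [hρ']
            field_simp
        _ ≤ p * ((n : ℝ) - t - 1) := mul_le_mul_of_nonneg_left h2 hp0.le
  have hunion := fr_exists_le_card (univ : Finset (Cfg n d))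
    (univ : Finset (Fin n → Fin s ⊕ Bool)) _ _ hfix
  refine le_trans (fr_mono _ ?_) (le_trans hunion ?_)
  · rintro σ - ⟨x, hx, typ, h1, h2, h3⟩
    refine ⟨typ, mem_univ _, x, hx, h1, h2, ?_⟩
    have hcount := c1_touch_count σ typ E hE T
    have hcount' : ((univ.filter (fun i => Touch σ
        (univ.filter (fun k => typ k = Sum.inr false)) i)).card : ℝ) ≤
        (((range T).filter (fun t => c1E E typ t σ)).card : ℝ) + 2 + (⌊τ * n⌋₊ : ℝ) := by
      have h4 : n - T = ⌊τ * n⌋₊ := by omega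
      rw [h4] at hcount
      exact_mod_cast hcount
    have hinr : ((univ.filter (fun k => typ k = Sum.inr false ∨ typ k = Sum.inr true)).card : ℝ) ≤
        n := by
      have : (univ.filter (fun k => typ k = Sum.inr false ∨ typ k = Sum.inr true)).card ≤ n := by
        refine (card_filter_le _ _).trans ?_
        rw [card_univ, Fintype.card_fin]
      exact_mod_cast this
    have hDc : (Fintype.card (C1ι typ) : ℝ) = s +
        ((univ.filter (fun k => typ k = Sum.inr false ∨ typ k = Sum.inr true)).card : ℝ) := by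
      rw [c1_cardι]; push_cast; rfl
    have hVle : (⌊(1 + 2 * τ) * (Fintype.card (C1ι typ) : ℝ)⌋₊ : ℝ) ≤
        (1 + 2 * τ) * (Fintype.card (C1ι typ) : ℝ) := Nat.floor_le (by positivity)
    have hgoal : (⌊(1 + 2 * τ) * (Fintype.card (C1ι typ) : ℝ)⌋₊ : ℝ) + (⌊τ * n⌋₊ : ℝ) ≤
        (((range T).filter (fun t => c1E E typ t σ)).card : ℝ) := by
      rw [hDc] at hVle ⊢
      have h5 : 2 * τ * (s + ((univ.filter
          (fun k => typ k = Sum.inr false ∨ typ k = Sum.inr true)).card : ℝ)) ≤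
          2 * τ * (s + n) := by
        apply mul_le_mul_of_nonneg_left _ (by positivity)
        linarith
      have h6 : ε = 10 * τ := by rw [hτ]; ring
      rw [h6] at h3
      have h7 : 2 * τ * s ≤ s := by nlinarith
      nlinarith
    exact_mod_cast hgoal
  · rw [card_univ, Fintype.card_fun, Fintype.card_sum, Fintype.card_fin, Fintype.card_fin,
      Fintype.card_bool]
    have h1 : (T.choose ⌊τ * n⌋₊ : ℝ) ≤ 2 ^ n := by
      have h2 : T.choose ⌊τ * n⌋₊ ≤ 2 ^ T := Nat.choose_le_two_pow T ⌊τ * n⌋₊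
      calc (T.choose ⌊τ * n⌋₊ : ℝ) ≤ 2 ^ T := by exact_mod_cast h2
        _ ≤ 2 ^ n := pow_le_pow_right₀ (by norm_num) hTn.le
    have h2 : p ^ ⌊τ * n⌋₊ ≤ (1 / (4 * ((s : ℝ) + 2))) ^ n / p := by
      rw [le_div_iff₀ hp0, ← pow_succ, ← Real.rpow_natCast p]
      calc p ^ ((⌊τ * n⌋₊ + 1 : ℕ) : ℝ) ≤ p ^ (τ * n) := by
            apply Real.rpow_le_rpow_of_exponent_ge hp0 hp1
            push_cast
            exact hfl2.le
        _ = (p ^ τ) ^ n := by rw [Real.rpow_mul hp0.le, Real.rpow_natCast]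
        _ = _ := by rw [hpτ]
    refine le_trans ?_ htail
    calc (((s + 2) ^ n : ℕ) : ℝ) * ((T.choose ⌊τ * n⌋₊ : ℝ) * p ^ ⌊τ * n⌋₊) ≤
        (((s + 2) ^ n : ℕ) : ℝ) * (2 ^ n * ((1 / (4 * ((s : ℝ) + 2))) ^ n / p)) := by
          apply mul_le_mul_of_nonneg_left _ (by positivity)
          exact mul_le_mul h1 h2 (by positivity) (by positivity)
      _ = (((s : ℝ) + 2) * 2 * (1 / (4 * ((s : ℝ) + 2)))) ^ n / p := by
          push_cast
          rw [mul_pow, mul_pow]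
          ring
      _ = (1 / 2) ^ n / p := by
          congr 2
          field_simp
          norm_num

end Pool.Agent.SMin2
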