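import Pool.Agent.SMin2.Viol2
import Pool.Agent.SMin.CTwoPattern

set_option autoImplicit false
open Finset Filter

namespace Pool.Agent.SMin2
open Pool.Agent.SMin

theorem C2_pattern (ell : ℕ → ℝ) (hell : Rate ell) (d : ℕ) (hd1 : 1 ≤ d) (z : ℂ) (hz0 : z ≠ 0)
    (ρ β τ δm δp : ℝ) (hρ : 0 < ρ) (hρ1 : ρ < 1) (hβ : 0 < β) (hβ1 : β < 1) (hτ : 0 < τ) (hτ4 : τ ≤ 1 / 4) (hδm : 0 < δm)
    (hδp : 0 < δp) (hδ : δp ≤ τ * δm) :
    ∃ C0 : ℝ, 0 < C0 ∧ ∀ᶠ n : ℕ in atTop, ∀ E : Finset (Fin n), E.card ≤ 2 →
      ∀ (s : ℕ) (col : Fin n → Option (Fin s)) (pat : Fin n × Fin d → Option (Fin s)),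
        fr (Pat col pat) (fun σ => ∃ x : Fin n → ℂ,
          Sol z (mult σ) E (Real.exp (-(δm * ell n))) x ∧
          Coloured x ρ β (Real.exp (-(δm * ell n))) (Real.exp (-(δp * ell n))) s col) ≤
        (2 * Real.exp 1 / β) ^ (d * β * n : ℝ) * (1 / ρ) ^ (2 * τ * β * n + C0 : ℝ) *
          ρ ^ (Rb E col pat) := by
  classical
  set M1 : ℝ := 1 + (1 + d) * ‖z⁻¹‖ with hM1
  have hM1pos : 1 ≤ M1 := by
    have : 0 ≤ (1 + (d : ℝ)) * ‖z⁻¹‖ := by positivity
    linarith
  set C : ℝ := 2 + (d + ‖z‖) * M1 with hC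
  have hdz : (1 : ℝ) ≤ d + ‖z‖ := by
    have : (1 : ℝ) ≤ d := by exact_mod_cast hd1
    linarith [norm_nonneg z]
  have hC2 : 2 ≤ C := by nlinarith
  have hC0' : 0 < C := by linarith
  set B : ℝ := ((d + ‖z‖) * (2 + d * ‖z⁻¹‖)) ^ 2 with hB
  have hBpos : 0 < B := by
    have : 0 ≤ (d : ℝ) * ‖z⁻¹‖ := by positivity
    rw [hB]
    apply pow_pos
    apply mul_pos <;> linarith
  refine ⟨3 / 2 * (1 / ρ + 2), by positivity, ?_⟩
  have hδlt : δp < δm := by nlinarith
  -- `M1 * rm ≤ rp / 2` eventually
  have hev : ∀ᶠ n : ℕ in atTop, M1 * Real.exp (-(δm * ell n)) ≤ Real.exp (-(δp * ell n)) / 2 := by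
    have h1 : Tendsto (fun n : ℕ => Real.exp (-((δm - δp) * ell n))) atTop (nhds 0) := by
      have h2 : Tendsto (fun n : ℕ => (δm - δp) * ell n) atTop atTop :=
        Tendsto.const_mul_atTop (by linarith) hell.tendsto
      exact Real.tendsto_exp_neg_atTop_nhds_zero.comp h2
    have h3 : ∀ᶠ n : ℕ in atTop, Real.exp (-((δm - δp) * ell n)) < 1 / (2 * M1) :=
      h1.eventually_lt_const (by positivity)
    filter_upwards [h3] with n hn
    have h4 : Real.exp (-(δm * ell n)) = Real.exp (-(δp * ell n)) * Real.exp (-((δm - δp) * ell n)) := by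
      rw [← Real.exp_add]; congr 1; ring
    rw [h4]
    have h5 : M1 * Real.exp (-((δm - δp) * ell n)) ≤ 1 / 2 := by
      rw [lt_div_iff₀ (by positivity)] at hn
      nlinarith
    nlinarith [Real.exp_pos (-(δp * ell n))]
  filter_upwards [hev, viol_bound ell hell 1 B 1 C δm δp τ hBpos one_pos hC0' hδm hδp hτ hτ4 hδ,
    eventually_gt_atTop 0] with n hn1 hn2 hn0
  intro E hE s col pat
  have hnpos : (0 : ℝ) < n := by exact_mod_cast hn0
  set rm : ℝ := Real.exp (-(δm * ell n)) with hrm
  set rp : ℝ := Real.exp (-(δp * ell n)) with hrp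
  have hrm0 : 0 < rm := Real.exp_pos _
  have hrp0 : 0 < rp := Real.exp_pos _
  by_cases hex : ∃ σ ∈ Pat col pat, ∃ x : Fin n → ℂ, Sol z (mult σ) E rm x ∧
      Coloured x ρ β rm rp s col
  swap
  · have h0 : fr (Pat col pat) (fun σ => ∃ x : Fin n → ℂ, Sol z (mult σ) E rm x ∧
      Coloured x ρ β rm rp s col) = 0 := by
      rw [fr_def, filter_false_of_mem]
      · simp
      · intro σ hσ hx
        exact hex ⟨σ, hσ, hx⟩
    rw [h0]
    positivity
  obtain ⟨σ0, hσ0, x0, hx0, hcol0⟩ := hex
  obtain ⟨hc1, -, -, hc4, -⟩ := hcol0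
  -- representatives
  have hrepex : ∀ c : Fin s, ∃ k, col k = some c := by
    intro c
    have h1 : (0 : ℝ) < ((univ.filter (fun k => col k = some c)).card : ℝ) :=
      lt_of_lt_of_le (by positivity) (hc1 c)
    have h2 : 0 < (univ.filter (fun k => col k = some c)).card := by exact_mod_cast h1
    obtain ⟨k, hk⟩ := card_pos.1 h2
    exact ⟨k, (mem_filter.1 hk).2⟩
  choose rep hrep using hrepex
  -- number of colours
  have hs : (s : ℝ) ≤ 1 / ρ := by
    have h1 : ∑ c : Fin s, (univ.filter (fun k => col k = some c)).card ≤ n := by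
      have h2 : ∑ c : Fin s, (univ.filter (fun k => col k = some c)).card =
          (univ.biUnion (fun c : Fin s => univ.filter (fun k => col k = some c))).card := by
        rw [card_biUnion]
        intro c _ c' _ hcc'
        rw [Function.onFun, disjoint_left]
        intro k' hk hk'
        have h1 := (mem_filter.1 hk).2
        have h2 := (mem_filter.1 hk').2
        rw [h1] at h2
        exact hcc' (by simpa using h2)
      rw [h2]
      calc _ ≤ (univ : Finset (Fin n)).card := card_le_card (subset_univ _)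
        _ = n := by simp
    have h2 : (s : ℝ) * (ρ * n) ≤ n := by
      calc (s : ℝ) * (ρ * n) = ∑ _c : Fin s, ρ * n := by simp
        _ ≤ ∑ c : Fin s, ((univ.filter (fun k => col k = some c)).card : ℝ) :=
            sum_le_sum (fun c _ => hc1 c)
        _ ≤ n := by exact_mod_cast h1
    rw [le_div_iff₀ hρ]
    have h3 : (s : ℝ) * ρ * n ≤ 1 * n := by linarith
    exact le_of_mul_le_mul_right h3 hnpos
  set SS := Pool.Agent.SMin.SSet E pat with hSS
  set T := SS.card with hT
  set U := univ.filter (fun k => col k = none) with hU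
  -- T ≤ d β n
  have hkkex : ∀ i : Fin n, ∃ k : Fin d, i ∈ SS → pat (i, k) = none := by
    intro i
    by_cases hi : i ∈ SS
    · obtain ⟨-, -, k, hk⟩ := mem_filter.1 hi
      exact ⟨k, fun _ => hk⟩
    · exact ⟨⟨0, hd1⟩, fun h => absurd h hi⟩
  choose kk hkk using hkkex
  have hTU : T ≤ U.card * d := by
    have h1 : T ≤ (U ×ˢ (univ : Finset (Fin d))).card := by
      apply card_le_card_of_injOn (fun i => σ0 (i, kk i))
      · intro i hi
        apply mem_coe.2
        rw [mem_product, hU, mem_filter]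
        refine ⟨⟨mem_univ _, ?_⟩, mem_univ _⟩
        rw [(mem_filter.1 hσ0).2]
        exact hkk i (mem_coe.1 hi)
      · intro i _ j _ h
        have := σ0.injective h
        exact (Prod.ext_iff.1 this).1
    rwa [card_product, card_univ, Fintype.card_fin] at h1
  have hTβ : (T : ℝ) ≤ d * β * n := by
    have h1 : (T : ℝ) ≤ U.card * d := by exact_mod_cast hTU
    have h2 : (U.card : ℝ) ≤ β * n := by
      convert hc4
    calc (T : ℝ) ≤ U.card * d := h1
      _ ≤ (β * n) * d := by gcongr
      _ = _ := by ring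
  -- the unknowns
  have hphi := phi_injective E col pat rep hrep
  set D := Fintype.card (Idx E col pat) with hD
  have hDn : D ≤ 1 * n := by
    rw [one_mul]
    have := Fintype.card_le_of_injective _ hphi
    rwa [Fintype.card_fin] at this
  have hTn : T ≤ 1 * n := by
    rw [one_mul]
    calc T ≤ (univ : Finset (Fin n)).card := card_le_card (subset_univ _)
      _ = n := by simp
  set V := ⌊(1 + 2 * τ) * (D : ℝ)⌋₊ with hV
  set K := T - V with hK
  obtain ⟨rk, row, hrk, hrow⟩ := c2p_enum hn0 SS
  -- cardinality bookkeeping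
  set m := (SS.filter (fun k => col k = none)).card with hm
  have hDle : D ≤ s + (2 + m) := by
    rw [hD, Fintype.card_sum, Fintype.card_fin]
    apply Nat.add_le_add_left
    rw [Fintype.card_subtype]
    calc (univ.filter (fun k : Fin n => col k = none ∧ (k ∈ Pool.Agent.SMin.SSet E pat ∨ k ∈ E))).card
        ≤ (E ∪ SS.filter (fun k => col k = none)).card := by
          apply card_le_card
          intro k hk
          obtain ⟨-, h1, h2⟩ := mem_filter.1 hk
          rw [mem_union, mem_filter]
          rcases h2 with h2 | h2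
          · exact Or.inr ⟨h2, h1⟩
          · exact Or.inl h2
      _ ≤ E.card + m := card_union_le _ _
      _ ≤ 2 + m := by omega
  have hTeq : T = m + Rb E col pat := by
    have h1 : Rb E col pat = (SS.filter (fun k => ¬ (col k = none))).card := by
      unfold Rb
      congr 1
      ext k
      rw [hSS, Pool.Agent.SMin.SSet, mem_filter, mem_filter, mem_filter]
      tauto
    rw [h1, hm, hT]
    exact (card_filter_add_card_filter_not (s := SS) (fun k => col k = none)).symm
  have hmU : (m : ℝ) ≤ β * n := by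
    have h1 : m ≤ U.card := by
      apply card_le_card
      intro k hk
      rw [hU, mem_filter]
      exact ⟨mem_univ _, (mem_filter.1 hk).2⟩
    have h2 : (U.card : ℝ) ≤ β * n := by
      convert hc4
    have h3 : (m : ℝ) ≤ U.card := by exact_mod_cast h1
    linarith
  have hKlow : ((Rb E col pat : ℕ) : ℝ) - 2 * τ * β * n - 3 / 2 * (1 / ρ + 2) ≤ K := by
    have h1 : (T : ℝ) - V ≤ K := by
      have : T ≤ K + V := by omega
      have : (T : ℝ) ≤ K + V := by exact_mod_cast this
      linarith
    have h2 : (V : ℝ) ≤ (1 + 2 * τ) * D := Nat.floor_le (by positivity)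
    have h3 : (D : ℝ) ≤ s + (2 + m) := by exact_mod_cast hDle
    have h4 : (T : ℝ) = m + (Rb E col pat : ℕ) := by exact_mod_cast hTeq
    have h5 : (1 + 2 * τ) * (D : ℝ) ≤ (1 + 2 * τ) * (1 / ρ + (2 + m)) := by
      gcongr
      linarith
    have h6 : 2 * τ * (m : ℝ) ≤ 2 * τ * (β * n) := by gcongr
    have h7 : (1 + 2 * τ) * (1 / ρ + 2) ≤ 3 / 2 * (1 / ρ + 2) := by
      have : 0 < 1 / ρ := by positivity
      apply mul_le_mul_of_nonneg_right _ (by linarith)
      linarith
    have h8 : (1 + 2 * τ) * (1 / ρ + (2 + (m : ℝ))) =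
        (1 + 2 * τ) * (1 / ρ + 2) + m + 2 * τ * m := by ring
    have h9 : 2 * τ * (β * (n : ℝ)) = 2 * τ * β * n := by ring
    linarith
  -- the main estimate
  have hmain : fr (Pat col pat) (fun σ => ∃ x : Fin n → ℂ, Sol z (mult σ) E rm x ∧
      Coloured x ρ β rm rp s col) ≤ (2 : ℝ) ^ T * ((d * ρ * n) ^ K / K.factorial) := by
    by_cases hVT : V ≤ T
    swap
    · have hK0 : K = 0 := by omega
      rw [hK0]
      simp only [pow_zero, Nat.factorial_zero, Nat.cast_one, div_one, mul_one]
      exact (fr_le_one _ _).trans (one_le_pow₀ (by norm_num))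
    set 𝒞 : Set (Idx E col pat → ℂ) := {y | ∃ x : Fin n → ℂ, (∑ k, ‖x k‖ ^ 2 ≤ 1) ∧
      (∀ b : ℂ, (bc x U b rp : ℝ) < ρ * n) ∧ (∀ j, y j = x (phi E col pat rep j)) ∧
      ∀ k, ‖∑ j, Xf z E col pat k j * y j - x k‖ ≤ M1 * rm} with h𝒞
    have hred := redundancy (Pat col pat) (fun t σ => Hst rk t σ) T
      (fun t ht ω _ ω' _ h => by
        rw [Hst_eq_iff] at h ⊢
        exact fun p hp => h p (by omega))
      (fun t σ => vrow z E col pat (row t) σ) (fun _ _ => True)
      (fun t ht ω _ ω' _ h => by
        rw [Hst_eq_iff] at h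
        funext j
        unfold vrow
        congr 1
        apply sum_congr rfl
        intro k _
        have : hd ω (row t) k = hd ω' (row t) k := by
          unfold hd
          rw [h (row t, k) (by simp only [(hrow t ht).2]; omega)]
        rw [this])
      (fun t _ ω _ ω' _ _ => Iff.rfl)
      𝒞 (C * rm) (rp / C) B 1 (by positivity) (by positivity) hBpos.le zero_le_one
      (by
        rintro y ⟨x, hx1, -, hx3, -⟩
        calc ∑ j, ‖y j‖ ^ 2 = ∑ j, ‖x (phi E col pat rep j)‖ ^ 2 := by
              apply sum_congr rfl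
              intro j _
              rw [hx3 j]
          _ = ∑ k ∈ univ.image (phi E col pat rep), ‖x k‖ ^ 2 := by
              rw [sum_image (fun a _ b _ h => hphi h)]
          _ ≤ ∑ k, ‖x k‖ ^ 2 :=
              sum_le_sum_of_subset_of_nonneg (subset_univ _) (fun _ _ _ => by positivity)
          _ ≤ 1 := hx1)
      (fun t _ ω _ => vrow_l2 z E col pat (row t) ω)
      (fun t => d * ρ * n / ((T - t : ℕ) : ℝ)) (fun t => by positivity)
      (by
        rintro t ht ω hω y ⟨x, hx1, hx2, hx3, hx4⟩
        have := c2p_cond z E col pat rk row kk T hrow hkk t ht y x (rp / C) (M1 * rm) rp ρ hx4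
          (by
            have h1 : rp / C ≤ rp / 2 := by gcongr
            linarith) hx2 ω
        simp only [true_and]
        rw [Nat.cast_sub ht.le]
        convert this using 4
        exact c2p_filt _ _ _ _)
      V K (by
        have := hn2 D T hDn hTn
        exact this)
    -- compare the events
    have hev' : fr (Pat col pat) (fun σ => ∃ x : Fin n → ℂ, Sol z (mult σ) E rm x ∧
        Coloured x ρ β rm rp s col) ≤ fr (Pat col pat) (fun ω => ∃ x ∈ 𝒞,
          (∀ t < T, ‖∑ k, vrow z E col pat (row t) ω k * x k‖ ≤ C * rm) ∧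
          V + K ≤ ((range T).filter (fun _ => True)).card) := by
      apply fr_mono
      rintro σ hσ ⟨x, hsol, hcl⟩
      have happ := c2p_approx z hz0 E col pat rep hrep x σ hσ rm hrm0.le hsol hcl.2.1
      refine ⟨fun j => x (phi E col pat rep j), ⟨x, hsol.1, ?_, fun _ => rfl, happ⟩, ?_, ?_⟩
      · intro b
        convert hcl.2.2.2.2 b
      · intro t ht
        have hiE : row t ∉ E := (mem_filter.1 (hrow t ht).1).2.1
        rw [vrow_dot]
        have h5 := hsol.2 (row t) hiE
        rw [L_mult] at h5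
        have h6 : ∑ k, (∑ j, Xf z E col pat (hd σ (row t) k) j * x (phi E col pat rep j)) -
            z * ∑ j, Xf z E col pat (row t) j * x (phi E col pat rep j) =
            (∑ k, x (hd σ (row t) k) - z * x (row t)) +
            (∑ k, ((∑ j, Xf z E col pat (hd σ (row t) k) j * x (phi E col pat rep j)) -
              x (hd σ (row t) k)) -
            z * ((∑ j, Xf z E col pat (row t) j * x (phi E col pat rep j)) - x (row t))) := by
          rw [sum_sub_distrib]; ring
        rw [h6]
        have h7 : ‖∑ k, ((∑ j, Xf z E col pat (hd σ (row t) k) j * x (phi E col pat rep j)) -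
              x (hd σ (row t) k))‖ ≤ d * (M1 * rm) := by
          calc _ ≤ ∑ k, ‖(∑ j, Xf z E col pat (hd σ (row t) k) j * x (phi E col pat rep j)) -
              x (hd σ (row t) k)‖ := norm_sum_le _ _
            _ ≤ ∑ _k : Fin d, M1 * rm := sum_le_sum (fun k _ => happ _)
            _ = _ := by simp
        have h8 : ‖z * ((∑ j, Xf z E col pat (row t) j * x (phi E col pat rep j)) - x (row t))‖ ≤
            ‖z‖ * (M1 * rm) := by
          rw [norm_mul]
          gcongr
          exact happ _
        calc _ ≤ ‖∑ k, x (hd σ (row t) k) - z * x (row t)‖ +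
              (‖∑ k, ((∑ j, Xf z E col pat (hd σ (row t) k) j * x (phi E col pat rep j)) -
                x (hd σ (row t) k))‖ +
              ‖z * ((∑ j, Xf z E col pat (row t) j * x (phi E col pat rep j)) - x (row t))‖) := by
                refine (norm_add_le _ _).trans ?_
                gcongr
                exact norm_sub_le _ _
          _ ≤ rm + (d * (M1 * rm) + ‖z‖ * (M1 * rm)) := by gcongr
          _ ≤ C * rm := by rw [hC]; nlinarith
      · rw [filter_true_of_mem (fun _ _ => trivial), card_range]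
        omega
    refine hev'.trans (le_trans (le_of_eq ?_) (hred.trans ?_))
    · congr!
    · have h9 : ∑ T' ∈ powersetCard K (range T), ∏ t ∈ T', (d * ρ * n / ((T - t : ℕ) : ℝ)) =
          ∑ T' ∈ powersetCard K (range T), ∏ t ∈ T', ((d * ρ * n) / ((T : ℝ) - t)) := by
        apply sum_congr rfl
        intro T' hT'
        apply prod_congr rfl
        intro t ht
        have := mem_range.1 ((mem_powersetCard.1 hT').1 ht)
        rw [Nat.cast_sub this.le]
      rw [h9]
      exact c2p_esymm T K (d * ρ * n) (by positivity)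
  refine hmain.trans ?_
  exact c2p_numeric d ρ β τ (3 / 2 * (1 / ρ + 2)) hρ hρ1 hβ hβ1 n T K (Rb E col pat) hTβ
    (Nat.sub_le _ _) hKlow

end Pool.Agent.SMin2
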