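import Pool.Agent.SMin2.Gap2
import Pool.Agent.SMin2.CTwoPattern2
import Pool.Agent.SMin.CTwo

set_option autoImplicit false
open Finset Filter

namespace Pool.Agent.SMin2
open Pool.Agent.SMin

/-- deterministic step: from a coloured solution to the finite data -/
lemma ct_det2 (d : ℕ) (z : ℂ) (hz0 : z ≠ 0) (θ θ2 g βg : ℝ)
    (hgap : ∀ (s : ℕ) (p : Fin s → ℝ), (∀ c, 0 ≤ p c) →
      (∑ c, p c ≤ 1) → (1 - βg ≤ ∑ c, p c) → ∀ c0 : Fin s, (∀ c, p c ≤ p c0) → θ ≤ p c0 →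
      p c0 ≤ 1 - θ2 → ∀ (a w : Fin s → ℂ) (r : ℝ), 0 ≤ r →
      (∀ c c', c ≠ c' → 4 * r < ‖a c - a c'‖) → (∀ c c', c ≠ c' → 4 * r < ‖w c - w c'‖) →
      ∀ 𝒯 : Fin s → Finset (Fin d → Fin s), (∀ c, ∀ t ∈ 𝒯 c, ‖∑ k, a (t k) - w c‖ ≤ r) →
        ∃ c, ∑ t ∈ 𝒯 c, ∏ k, p (t k) ≤ p c - g)
    {n : ℕ} (hn : 0 < n) (E : Finset (Fin n)) (ρ β rm rp : ℝ) (hρ : 0 < ρ) (hββ : β ≤ βg) (hrm : 0 < rm)
    (hrp : 4 * ((1 + d + ‖z‖) * rm) ≤ rp) (hrp2 : 4 * ((1 + d + ‖z‖) * rm) < ‖z‖ * rp)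
    (σ : Cfg n d) (x : Fin n → ℂ) (hsol : Sol z (mult σ) E rm x) (s : ℕ)
    (col : Fin n → Option (Fin s)) (hcol : Coloured x ρ β rm rp s col)
    (c1 : Fin s) (hc1 : θ * n ≤ ((univ.filter (fun k => col k = some c1)).card : ℝ))
    (hc2 : ∀ c : Fin s, ((univ.filter (fun k => col k = some c)).card : ℝ) ≤ (1 - θ2) * n) :
    s * ρ ≤ 1 ∧ ∃ (c0 : Fin s) (𝒯 : (Fin d → Fin s) → Option (Fin s)),
      Cons E col 𝒯 (ct_pat col σ) ∧ SMin.dens col none ≤ β ∧
      ∑ t ∈ univ.filter (fun t : Fin d → Fin s => 𝒯 t = some c0), ∏ k, SMin.dens col (some (t k)) ≤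
              SMin.dens col (some c0) - g := by
  classical
  obtain ⟨h1, h2, h3, h4, h5⟩ := hcol
  have hn' : (0:ℝ) < n := by exact_mod_cast hn
  -- sum of the classes
  have hsum : ∑ c : Fin s, ((univ.filter (fun k => col k = some c)).card : ℝ) +
      ((univ.filter (fun k => col k = none)).card : ℝ) = n := by
    have : ∑ c : Option (Fin s), (univ.filter (fun k => col k = c)).card = n := by
      rw [← card_eq_sum_card_fiberwise (f := col) (s := univ) (t := univ) (by simp)]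
      simp
    rw [Fintype.sum_option] at this
    rw [add_comm]
    exact_mod_cast this
  have hnone : (0:ℝ) ≤ ((univ.filter (fun k => col k = none)).card : ℝ) := by positivity
  constructor
  · have : ∑ c : Fin s, ρ * n ≤ ∑ c : Fin s, ((univ.filter (fun k => col k = some c)).card : ℝ) :=
      sum_le_sum fun c _ => h1 c
    rw [sum_const, card_univ, Fintype.card_fin, nsmul_eq_mul] at this
    have h6 : (s:ℝ) * (ρ * n) ≤ 1 * n := by linarith
    have h7 : (s * ρ) * (n:ℝ) ≤ 1 * n := by linarith [mul_assoc (s:ℝ) ρ n]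
    exact le_of_mul_le_mul_right h7 hn'
  -- representatives
  have hrep : ∀ c : Fin s, ∃ k, col k = some c := by
    intro c
    have : (0:ℝ) < ((univ.filter (fun k => col k = some c)).card : ℝ) :=
      lt_of_lt_of_le (by positivity) (h1 c)
    have h8 : 0 < (univ.filter (fun k => col k = some c)).card := by exact_mod_cast this
    obtain ⟨k, hk⟩ := card_pos.1 h8
    exact ⟨k, (mem_filter.1 hk).2⟩
  choose rep hrep using hrep
  set a : Fin s → ℂ := fun c => x (rep c) with ha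
  have hax : ∀ k c, col k = some c → ‖x k - a c‖ ≤ rm := fun k c hk => h2 k (rep c) c hk (hrep c)
  have hsep : ∀ c c', c ≠ c' → rp < ‖a c - a c'‖ := fun c c' hcc =>
    h3 (rep c) (rep c') c c' hcc (hrep c) (hrep c')
  set r0 : ℝ := (1 + d + ‖z‖) * rm with hr0
  have hr0nn : 0 ≤ r0 := by positivity
  have huniq : ∀ (t : Fin d → Fin s) (c c' : Fin s), ‖∑ k, a (t k) - z * a c‖ ≤ r0 →
      ‖∑ k, a (t k) - z * a c'‖ ≤ r0 → c = c' := by
    intro t c c' hc hc'
    by_contra hne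
    have e1 : ‖z * (a c - a c')‖ ≤ 2 * r0 := by
      have : z * (a c - a c') = (∑ k, a (t k) - z * a c') - (∑ k, a (t k) - z * a c) := by ring
      rw [this]
      exact (norm_sub_le _ _).trans (by linarith)
    rw [norm_mul] at e1
    have e2 := hsep c c' hne
    have hz : 0 < ‖z‖ := norm_pos_iff.2 hz0
    nlinarith
  -- the consistency function
  set 𝒯 : (Fin d → Fin s) → Option (Fin s) := fun t =>
    if h : ∃ c, ‖∑ k, a (t k) - z * a c‖ ≤ r0 then some h.choose else none with h𝒯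
  have h𝒯1 : ∀ t c, ‖∑ k, a (t k) - z * a c‖ ≤ r0 → 𝒯 t = some c := by
    intro t c hc
    have hex : ∃ c, ‖∑ k, a (t k) - z * a c‖ ≤ r0 := ⟨c, hc⟩
    rw [h𝒯]
    simp only [dif_pos hex]
    rw [huniq t hex.choose c hex.choose_spec hc]
  have h𝒯2 : ∀ t c, 𝒯 t = some c → ‖∑ k, a (t k) - z * a c‖ ≤ r0 := by
    intro t c hc
    rw [h𝒯] at hc
    by_cases hex : ∃ c, ‖∑ k, a (t k) - z * a c‖ ≤ r0
    · simp only [dif_pos hex] at hc
      have := Option.some.inj hc
      rw [← this]; exact hex.choose_spec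
    · simp only [dif_neg hex] at hc
      exact absurd hc (by simp)
  -- the largest class
  obtain ⟨c0, -, hc0⟩ := exists_max_image (univ : Finset (Fin s))
    (fun c => (univ.filter (fun k => col k = some c)).card) ⟨c1, mem_univ _⟩
  have hd1 : ∀ c : Option (Fin s), 0 ≤ SMin.dens col c := fun c => by unfold SMin.dens; positivity
  have hdsum : ∑ c : Fin s, SMin.dens col (some c) = 1 - SMin.dens col none := by
    unfold SMin.dens
    rw [← sum_div, eq_sub_iff_add_eq, ← add_div, div_eq_one_iff_eq hn'.ne']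
    convert hsum
  have hdn : SMin.dens col none ≤ β := by
    unfold SMin.dens
    rw [div_le_iff₀ hn']; convert h4
  have hfin : ∃ c, ∑ t ∈ univ.filter (fun t : Fin d → Fin s => 𝒯 t = some c),
      ∏ k, SMin.dens col (some (t k)) ≤ SMin.dens col (some c) - g := by
    refine hgap s (fun c => SMin.dens col (some c)) (fun c => hd1 _) ?_ ?_ c0 ?_ ?_ ?_ a
      (fun c => z * a c) r0 hr0nn ?_ ?_
      (fun c => univ.filter (fun t : Fin d → Fin s => 𝒯 t = some c)) ?_
    · simp only [hdsum]; linarith [hd1 none]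
    · simp only [hdsum]; linarith
    · intro c
      have := hc0 c (mem_univ _)
      unfold SMin.dens
      gcongr ?_ / _
      exact_mod_cast this
    · have := hc0 c1 (mem_univ _)
      unfold SMin.dens
      rw [le_div_iff₀ hn']
      refine hc1.trans ?_
      exact_mod_cast this
    · unfold SMin.dens
      rw [div_le_iff₀ hn']
      convert hc2 c0
    · intro c c' hcc
      exact lt_of_le_of_lt hrp (hsep c c' hcc)
    · intro c c' hcc
      have e2 := hsep c c' hcc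
      have hz : 0 < ‖z‖ := norm_pos_iff.2 hz0
      rw [← mul_sub, norm_mul]
      nlinarith
    · intro c t ht
      exact h𝒯2 t c (mem_filter.1 ht).2
  obtain ⟨c', hc'⟩ := hfin
  refine ⟨c', 𝒯, ?_, hdn, hc'⟩
  · intro i hi c hc t ht
    apply h𝒯1
    have e1 := hsol.2 i hi
    rw [L_mult] at e1
    have e2 : ∑ k, a (t k) - z * a c = (∑ k, x (hd σ i k) - z * x i) -
        ∑ k, (x (hd σ i k) - a (t k)) + z * (x i - a c) := by
      rw [sum_sub_distrib]; ring
    rw [e2]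
    have e3 : ‖∑ k, (x (hd σ i k) - a (t k))‖ ≤ d * rm := by
      refine (norm_sum_le _ _).trans ?_
      calc ∑ k, ‖x (hd σ i k) - a (t k)‖ ≤ ∑ _k : Fin d, rm := sum_le_sum fun k _ => hax _ _ (ht k)
        _ = d * rm := by simp
    have e4 : ‖z * (x i - a c)‖ ≤ ‖z‖ * rm := by
      rw [norm_mul]
      exact mul_le_mul_of_nonneg_left (hax i c hc) (norm_nonneg _)
    calc _ ≤ ‖(∑ k, x (hd σ i k) - z * x i) - ∑ k, (x (hd σ i k) - a (t k))‖ + ‖z * (x i - a c)‖ :=
          norm_add_le _ _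
      _ ≤ ‖∑ k, x (hd σ i k) - z * x i‖ + ‖∑ k, (x (hd σ i k) - a (t k))‖ + ‖z * (x i - a c)‖ := by
          gcongr; exact norm_sub_le _ _
      _ ≤ rm + d * rm + ‖z‖ * rm := by linarith
      _ = r0 := by rw [hr0]; ring

lemma ct_exp2 (ell : ℕ → ℝ) (hell : Rate ell) (A B : ℝ) (hA : A < 0) :
    Tendsto (fun n : ℕ => B * Real.exp (A * ell n)) atTop (nhds 0) := by
  have h1 : Tendsto (fun n : ℕ => A * ell n) atTop atBot :=
    hell.tendsto.const_mul_atTop_of_neg hA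
  have h2 := (Real.tendsto_exp_atBot.comp h1).const_mul B
  simpa using h2

/-- the separation scale dominates the collapse scale -/
lemma ct_scale2 (ell : ℕ → ℝ) (hell : Rate ell) (C δm δp : ℝ) (c : ℝ) (hc : 0 < c)
    (h : δp < δm) : ∀ᶠ n : ℕ in atTop,
    C * Real.exp (-(δm * ell n)) < c * Real.exp (-(δp * ell n)) := by
  have h1 := (ct_exp2 ell hell (-(δm - δp)) C (by linarith)).eventually_lt_const hc
  filter_upwards [h1] with n hn
  have h2 : Real.exp (-(δm * ell n)) =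
      Real.exp (-(δm - δp) * ell n) * Real.exp (-(δp * ell n)) := by
    rw [← Real.exp_add]; congr 1; ring
  rw [h2, ← mul_assoc]
  exact mul_lt_mul_of_pos_right hn (Real.exp_pos _)

open Classical in
theorem C2 (ell : ℕ → ℝ) (hell : Rate ell) (d : ℕ) (hd2 : 2 ≤ d) (z : ℂ) (hz0 : z ≠ 0)
    (θ θ2 : ℝ) (hθ : 0 < θ) (hθ2 : 0 < θ2) (hθ21 : θ2 < 1) :
    ∃ β : ℝ, 0 < β ∧ β < 1 ∧ ∀ ρ : ℝ, 0 < ρ → ρ < 1 → ∃ τ : ℝ, 0 < τ ∧ τ ≤ 1 / 4 ∧
      ∀ δm δp : ℝ, 0 < δm → 0 < δp → δp ≤ τ * δm → ∃ c : ℝ, 0 < c ∧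
        ∀ᶠ n : ℕ in atTop, ∀ E : Finset (Fin n), E.card ≤ 2 →
          fr (univ : Finset (Cfg n d)) (fun σ => ∃ x : Fin n → ℂ,
            Sol z (mult σ) E (Real.exp (-(δm * ell n))) x ∧
            ∃ s : ℕ, ∃ col : Fin n → Option (Fin s),
              Coloured x ρ β (Real.exp (-(δm * ell n))) (Real.exp (-(δp * ell n))) s col ∧
              (∃ c : Fin s, θ * n ≤ ((univ.filter (fun k => col k = some c)).card : ℝ)) ∧
              (∀ c : Fin s, ((univ.filter (fun k => col k = some c)).card : ℝ) ≤ (1 - θ2) * n))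
            ≤ Real.exp (-(c * n)) := by
  obtain ⟨g, hg, hg1, βg, hβg, hgap⟩ := gap_all d hd2 θ θ2 hθ hθ2 hθ21
  obtain ⟨β0, hβ0, hcount⟩ := C2_count d (by omega) g hg hg1
  obtain ⟨β, hβ, hβ1, hβmin, hβlog⟩ := ct_beta d (g ^ 2 / 64) (min β0 βg) (by positivity)
    (lt_min hβ0 hβg)
  have hββ0 : β ≤ β0 := hβmin.trans (min_le_left _ _)
  have hββg : β ≤ βg := hβmin.trans (min_le_right _ _)
  refine ⟨β, hβ, hβ1, fun ρ hρ hρ1 => ?_⟩
  have hlρ : 0 < Real.log (1 / ρ) := Real.log_pos (by rw [lt_div_iff₀ hρ]; linarith)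
  set τ : ℝ := min (1 / 4) (g ^ 2 / 64 / (2 * β * Real.log (1 / ρ))) with hτdef
  have hτ : 0 < τ := lt_min (by norm_num) (by positivity)
  have hτ4 : τ ≤ 1 / 4 := min_le_left _ _
  have hτl : 2 * τ * β * Real.log (1 / ρ) ≤ g ^ 2 / 64 := by
    have : τ ≤ g ^ 2 / 64 / (2 * β * Real.log (1 / ρ)) := min_le_right _ _
    rw [le_div_iff₀ (by positivity)] at this
    linarith
  refine ⟨τ, hτ, hτ4, fun δm δp hδm hδp hδ => ⟨g ^ 2 / 64, by positivity, ?_⟩⟩
  obtain ⟨C0, hC0, hpat⟩ := C2_pattern ell hell d (by omega) z hz0 ρ β τ δm δp hρ hρ1 hβ hβ1 hτ hτ4 hδm hδp hδ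
  set S : ℕ := ⌊1 / ρ⌋₊ with hS
  have hcount' : ∀ᶠ n : ℕ in atTop, ∀ s ∈ range (S + 1), (s : ℝ) * ρ ≤ 1 →
      ∀ E : Finset (Fin n), E.card ≤ 2 → ∀ (c0 : Fin s)
        (𝒯 : (Fin d → Fin s) → Option (Fin s)),
        ∑ col ∈ univ.filter (fun col : Fin n → Option (Fin s) => SMin.dens col none ≤ β ∧
            ∑ t ∈ univ.filter (fun t : Fin d → Fin s => 𝒯 t = some c0), ∏ k, SMin.dens col (some (t k)) ≤
              SMin.dens col (some c0) - g),
          ∑ pat ∈ univ.filter (fun pat : Fin n × Fin d → Option (Fin s) => Cons E col 𝒯 pat),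
            ((Pat col pat).card : ℝ) / ((univ : Finset (Cfg n d)).card : ℝ) *
              ρ ^ (Rb E col pat) ≤
        Real.exp (-(g ^ 2 / 16 * n)) := by
    rw [eventually_all_finset]
    intro s _
    by_cases h : (s : ℝ) * ρ ≤ 1
    · filter_upwards [hcount β hβ hββ0 ρ hρ hρ1 s h] with n hn _
      exact hn
    · filter_upwards with n h'
      exact absurd h' h
  set Q : ℝ := ∑ s ∈ range (S + 1), (s : ℝ) * ((s + 1 : ℕ) ^ (s ^ d) : ℕ) + 1 with hQ
  have hQ0 : 0 < Q := by positivity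
  have hδ' : δp < δm := by nlinarith
  filter_upwards [hpat, hcount', eventually_gt_atTop 0,
    ct_num Q (d * β * Real.log (2 * Real.exp 1 / β)) (2 * τ * β * Real.log (1 / ρ))
      (C0 * Real.log (1 / ρ)) g hQ0 hg hβlog hτl,
    ct_scale2 ell hell (4 * (1 + d + ‖z‖)) δm δp 1 one_pos hδ',
    ct_scale2 ell hell (4 * (1 + d + ‖z‖)) δm δp ‖z‖ (norm_pos_iff.2 hz0) hδ'] with n hpat hcount' hn hnum hs1 hs2
  intro E hE
  have hn' : (0:ℝ) < n := by exact_mod_cast hn
  set K : ℝ := (2 * Real.exp 1 / β) ^ (d * β * n : ℝ) * (1 / ρ) ^ (2 * τ * β * n + C0 : ℝ) with hK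
  have hK0 : 0 ≤ K := by positivity
  have hKe : K = Real.exp (d * β * Real.log (2 * Real.exp 1 / β) * n) *
      Real.exp (2 * τ * β * Real.log (1 / ρ) * n + C0 * Real.log (1 / ρ)) := by
    rw [hK, Real.rpow_def_of_pos (by positivity), Real.rpow_def_of_pos (by positivity)]
    congr 2 <;> ring
  set rm := Real.exp (-(δm * ell n)) with hrm
  set rp := Real.exp (-(δp * ell n)) with hrp
  set b : ℝ := K * Real.exp (-(g ^ 2 / 16 * n)) with hb
  have hb0 : 0 ≤ b := by positivity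
  -- the inclusion of events
  have hincl : fr (univ : Finset (Cfg n d)) (fun σ => ∃ x : Fin n → ℂ,
            Sol z (mult σ) E rm x ∧
            ∃ s : ℕ, ∃ col : Fin n → Option (Fin s),
              Coloured x ρ β rm rp s col ∧
              (∃ c : Fin s, θ * n ≤ ((univ.filter (fun k => col k = some c)).card : ℝ)) ∧
              (∀ c : Fin s, ((univ.filter (fun k => col k = some c)).card : ℝ) ≤ (1 - θ2) * n)) ≤
      fr (univ : Finset (Cfg n d)) (fun σ => ∃ s ∈ (range (S + 1)).filter (fun s : ℕ => (s : ℝ) * ρ ≤ 1),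
        ∃ c0 ∈ (univ : Finset (Fin s)), ∃ 𝒯 ∈ (univ : Finset ((Fin d → Fin s) → Option (Fin s))),
        ∃ col ∈ univ.filter (fun col : Fin n → Option (Fin s) => SMin.dens col none ≤ β ∧
            ∑ t ∈ univ.filter (fun t : Fin d → Fin s => 𝒯 t = some c0), ∏ k, SMin.dens col (some (t k)) ≤
              SMin.dens col (some c0) - g), Cons E col 𝒯 (ct_pat col σ) ∧
              ∃ x : Fin n → ℂ, Sol z (mult σ) E rm x ∧ Coloured x ρ β rm rp s col) := by
    apply fr_mono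
    rintro σ - ⟨x, hsol, s, col, hcol, ⟨c1, hc1⟩, hc2⟩
    have hdet := ct_det2 d z hz0 θ θ2 g βg hgap hn E ρ β rm rp hρ hββg (Real.exp_pos _)
      (by linarith [hs1]) (by linarith [hs2]) σ x hsol s col hcol c1 (by convert hc1)
      (fun c => by convert hc2 c)
    obtain ⟨hs, c0, 𝒯, h1, h2, h3⟩ := hdet
    refine ⟨s, ?_, c0, mem_univ _, 𝒯, mem_univ _, col, ?_, h1, x, hsol, hcol⟩
    · rw [mem_filter, mem_range]
      refine ⟨?_, hs⟩
      rw [Nat.lt_succ_iff]
      apply Nat.le_floor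
      rw [le_div_iff₀ hρ]; exact hs
    · rw [mem_filter]
      refine ⟨mem_univ _, h2, ?_⟩
      convert h3
  refine hincl.trans ?_
  refine (fr_exists_le _ _ _).trans ?_
  have hper : ∀ s ∈ (range (S + 1)).filter (fun s : ℕ => (s : ℝ) * ρ ≤ 1),
      fr (univ : Finset (Cfg n d)) (fun σ => 
        ∃ c0 ∈ (univ : Finset (Fin s)), ∃ 𝒯 ∈ (univ : Finset ((Fin d → Fin s) → Option (Fin s))),
        ∃ col ∈ univ.filter (fun col : Fin n → Option (Fin s) => SMin.dens col none ≤ β ∧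
            ∑ t ∈ univ.filter (fun t : Fin d → Fin s => 𝒯 t = some c0), ∏ k, SMin.dens col (some (t k)) ≤
              SMin.dens col (some c0) - g), Cons E col 𝒯 (ct_pat col σ) ∧
              ∃ x : Fin n → ℂ, Sol z (mult σ) E rm x ∧ Coloured x ρ β rm rp s col) ≤
      (s : ℝ) * ((s + 1 : ℕ) ^ (s ^ d) : ℕ) * b := by
    intro s hs
    rw [mem_filter] at hs
    have h1 : ∀ c0 ∈ (univ : Finset (Fin s)), fr (univ : Finset (Cfg n d)) (fun σ => 
        ∃ 𝒯 ∈ (univ : Finset ((Fin d → Fin s) → Option (Fin s))),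
        ∃ col ∈ univ.filter (fun col : Fin n → Option (Fin s) => SMin.dens col none ≤ β ∧
            ∑ t ∈ univ.filter (fun t : Fin d → Fin s => 𝒯 t = some c0), ∏ k, SMin.dens col (some (t k)) ≤
              SMin.dens col (some c0) - g), Cons E col 𝒯 (ct_pat col σ) ∧
              ∃ x : Fin n → ℂ, Sol z (mult σ) E rm x ∧ Coloured x ρ β rm rp s col) ≤
        ((s + 1 : ℕ) ^ (s ^ d) : ℕ) * b := by
      intro c0 _
      have h2 := fr_exists_le_card (univ : Finset (Cfg n d))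
        (univ : Finset ((Fin d → Fin s) → Option (Fin s))) (fun 𝒯 σ => 
          ∃ col ∈ univ.filter (fun col : Fin n → Option (Fin s) => SMin.dens col none ≤ β ∧
            ∑ t ∈ univ.filter (fun t : Fin d → Fin s => 𝒯 t = some c0), ∏ k, SMin.dens col (some (t k)) ≤
              SMin.dens col (some c0) - g), Cons E col 𝒯 (ct_pat col σ) ∧
              ∃ x : Fin n → ℂ, Sol z (mult σ) E rm x ∧ Coloured x ρ β rm rp s col) b ?_
      · refine h2.trans (le_of_eq ?_)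
        rw [card_univ, Fintype.card_fun, Fintype.card_fun]
        simp
      · intro 𝒯 _
        exact ct_union E 𝒯 _ (fun col σ => ∃ x : Fin n → ℂ, Sol z (mult σ) E rm x ∧
          Coloured x ρ β rm rp s col) K ρ _ hK0 (fun col pat => hpat E hE s col pat)
          (hcount' s hs.1 hs.2 E hE c0 𝒯)
    have h2 := fr_exists_le_card (univ : Finset (Cfg n d)) (univ : Finset (Fin s)) _ _ h1
    refine h2.trans (le_of_eq ?_)
    rw [card_univ, Fintype.card_fin, mul_assoc]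
  refine (sum_le_sum hper).trans ?_
  rw [← sum_mul]
  have h3 : ∑ s ∈ (range (S + 1)).filter (fun s : ℕ => (s : ℝ) * ρ ≤ 1),
      (s : ℝ) * ((s + 1 : ℕ) ^ (s ^ d) : ℕ) ≤ Q := by
    rw [hQ]
    have : ∑ s ∈ (range (S + 1)).filter (fun s : ℕ => (s : ℝ) * ρ ≤ 1),
      (s : ℝ) * ((s + 1 : ℕ) ^ (s ^ d) : ℕ) ≤ ∑ s ∈ range (S + 1), (s : ℝ) * ((s + 1 : ℕ) ^ (s ^ d) : ℕ) :=
      sum_le_sum_of_subset_of_nonneg (filter_subset _ _) (fun i _ _ => by positivity)
    linarith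
  calc _ ≤ Q * b := mul_le_mul_of_nonneg_right h3 hb0
    _ ≤ _ := by rw [hb, hKe]; exact hnum

end Pool.Agent.SMin2
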