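import Pool.Agent.SMin.Expand

set_option autoImplicit false
open Finset Filter

namespace Pool.Agent.SMin2
open Pool.Agent.SMin

lemma ee_term (d n m a : ℕ) (hd2 : 2 ≤ d) (β c1 : ℝ) (hβ1 : β < 1) (hβ : 0 < β) (hc1 : 0 < c1)
    (hc1' : c1 < 1) (hm : β * n ≤ m) (hm2 : (m : ℝ) ≤ (1 - β) * n) (ha : (a : ℝ) ≤ c1 * n)
    (hman : d * m + a ≤ d * n) (hn : 0 < n) :
    (n.choose m : ℝ) * ((d * n).choose a *
      (((d * m + a).choose (d * m) : ℝ) / ((d * n).choose (d * m) : ℝ))) ≤
    Real.exp (2 * (d * c1 * (1 + Real.log (1 / c1))) * n - β * Real.log (1 / (1 - β)) * n) := by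
  have hn0 : (0 : ℝ) < n := by exact_mod_cast hn
  have hm0 : (0 : ℝ) < m := lt_of_lt_of_le (by positivity) hm
  have hmn : m ≤ n := by
    have : (m : ℝ) ≤ n := by nlinarith
    exact_mod_cast this
  have hlog1 : 0 ≤ Real.log (1 / c1) := Real.log_nonneg (by rw [le_div_iff₀ hc1]; linarith)
  have hd1 : (1 : ℝ) ≤ d := by exact_mod_cast (by omega : 1 ≤ d)
  set X : ℝ := ((d * n).choose a : ℝ) with hX
  set Y : ℝ := (n.choose m : ℝ) with hY
  have hY0 : 0 < Y := by
    rw [hY]; exact_mod_cast Nat.choose_pos hmn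
  have hY1 : 1 ≤ Y := by
    rw [hY]; exact_mod_cast Nat.choose_pos hmn
  have hX0 : 0 ≤ X := Nat.cast_nonneg _
  -- upper bound of X
  have hXu : X ≤ Real.exp (d * c1 * (1 + Real.log (1 / c1)) * n) := by
    have h1 := e_choose_exp (d * n) a c1 hc1
    have h2 : (c1 ^ a)⁻¹ ≤ Real.exp (c1 * Real.log (1 / c1) * n) := by
      rw [← Real.exp_log hc1, ← Real.exp_nat_mul, ← Real.exp_neg, Real.exp_log hc1,
        Real.exp_le_exp]
      have h3 : Real.log (1 / c1) = - Real.log c1 := by rw [one_div, Real.log_inv]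
      rw [h3] at hlog1 ⊢
      nlinarith
    have hc1a : 0 < c1 ^ a := by positivity
    calc X = (X * c1 ^ a) * (c1 ^ a)⁻¹ := by field_simp
      _ ≤ Real.exp (c1 * ((d * n : ℕ) : ℝ)) * Real.exp (c1 * Real.log (1 / c1) * n) := by
          gcongr
      _ = Real.exp (c1 * (d * n) + c1 * Real.log (1 / c1) * n) := by
          rw [← Real.exp_add]; push_cast; ring_nf
      _ ≤ Real.exp (d * c1 * (1 + Real.log (1 / c1)) * n) := by
          apply Real.exp_le_exp.2
          have : c1 * Real.log (1 / c1) * n ≤ d * (c1 * Real.log (1 / c1) * n) :=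
            le_mul_of_one_le_left (by positivity) hd1
          nlinarith
  -- lower bound of Y
  have hYl : Real.exp (β * Real.log (1 / (1 - β)) * n) ≤ Y := by
    have h1 := e_lower m n hmn
    have hb : (0 : ℝ) < 1 - β := by linarith
    have hlb : 0 ≤ Real.log (1 / (1 - β)) :=
      Real.log_nonneg (by rw [le_div_iff₀ hb]; linarith)
    have h2 : (1 / (1 - β)) ^ m ≤ Y := by
      have h3 : (m : ℝ) ^ m * (1 / (1 - β)) ^ m ≤ (m : ℝ) ^ m * Y := by
        refine le_trans ?_ h1
        rw [← mul_pow]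
        apply pow_le_pow_left₀ (by positivity)
        rw [mul_one_div, div_le_iff₀ hb]
        linarith
      exact le_of_mul_le_mul_left h3 (by positivity)
    refine le_trans ?_ h2
    have h4 : (1 / (1 - β)) ^ m = Real.exp (m * Real.log (1 / (1 - β))) := by
      rw [Real.exp_nat_mul, Real.exp_log (by positivity)]
    rw [h4]
    apply Real.exp_le_exp.2
    nlinarith
  -- the binomials
  have h1 : ((d * m + a).choose (d * m) : ℝ) ≤ X := by
    rw [hX, Nat.choose_symm_add]
    exact_mod_cast Nat.choose_le_choose a hman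
  have h2 : Y ^ 2 ≤ ((d * n).choose (d * m) : ℝ) := by
    have h3 := e_vander n m d
    have h4 : Y ^ d ≤ ((d * n).choose (d * m) : ℝ) := by
      rw [hY]; exact_mod_cast h3
    exact (pow_le_pow_right₀ hY1 hd2).trans h4
  have hD0 : (0 : ℝ) < ((d * n).choose (d * m) : ℝ) := lt_of_lt_of_le (by positivity) h2
  calc Y * (X * (((d * m + a).choose (d * m) : ℝ) / ((d * n).choose (d * m) : ℝ)))
      ≤ Y * (X * (X / Y ^ 2)) := by gcongr
    _ = X ^ 2 / Y := by field_simp
    _ ≤ (Real.exp (d * c1 * (1 + Real.log (1 / c1)) * n)) ^ 2 /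
        Real.exp (β * Real.log (1 / (1 - β)) * n) := by gcongr
    _ = _ := by
        rw [← Real.exp_nat_mul, ← Real.exp_sub]
        congr 1
        push_cast
        ring

open Classical in
lemma ee_balance {n d : ℕ} (σ : Cfg n d) (V : Finset (Fin n)) :
    (univ.filter (fun st : Fin n × Fin d => st.1 ∉ V ∧ (σ st).1 ∈ V)).card =
      (univ.filter (fun st : Fin n × Fin d => st.1 ∈ V ∧ (σ st).1 ∉ V)).card := by
  have h1 : (univ.filter (fun st : Fin n × Fin d => (σ st).1 ∈ V)).card =
      (univ.filter (fun st : Fin n × Fin d => st.1 ∈ V)).card := by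
    apply card_bij (fun st _ => σ st)
    · intro st h; simpa using h
    · intro a _ b _ h; exact σ.injective h
    · intro b hb
      exact ⟨σ.symm b, by simpa using hb, by simp⟩
  have h2 : (univ.filter (fun st : Fin n × Fin d => (σ st).1 ∈ V)).card =
      (univ.filter (fun st : Fin n × Fin d => st.1 ∈ V ∧ (σ st).1 ∈ V)).card +
      (univ.filter (fun st : Fin n × Fin d => st.1 ∉ V ∧ (σ st).1 ∈ V)).card := by
    rw [← card_filter_add_card_filter_not (s := univ.filter
      (fun st : Fin n × Fin d => (σ st).1 ∈ V)) (fun st => st.1 ∈ V), filter_filter, filter_filter]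
    congr 2 <;> (ext st; simp only [mem_filter, mem_univ, true_and]; tauto)
  have h3 : (univ.filter (fun st : Fin n × Fin d => st.1 ∈ V)).card =
      (univ.filter (fun st : Fin n × Fin d => st.1 ∈ V ∧ (σ st).1 ∈ V)).card +
      (univ.filter (fun st : Fin n × Fin d => st.1 ∈ V ∧ (σ st).1 ∉ V)).card := by
    rw [← card_filter_add_card_filter_not (s := univ.filter
      (fun st : Fin n × Fin d => st.1 ∈ V)) (fun st => (σ st).1 ∈ V), filter_filter, filter_filter]
  omega

open Classical in
/-- edge expansion for `d ≥ 2`: linearly many edges leave every set of linear size and co-size -/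
theorem edge_expansion (d : ℕ) (hd2 : 2 ≤ d) (β : ℝ) (hβ : 0 < β) (hβ2 : β < 1 / 2) :
    ∃ c1 : ℝ, 0 < c1 ∧ ∃ c : ℝ, 0 < c ∧ ∀ᶠ n : ℕ in atTop,
      fr (univ : Finset (Cfg n d)) (fun σ => ∃ V : Finset (Fin n),
        β * n ≤ (V.card : ℝ) ∧ (V.card : ℝ) ≤ (1 - β) * n ∧
        ((univ.filter (fun st : Fin n × Fin d => st.1 ∈ V ∧ (σ st).1 ∉ V)).card : ℝ) ≤ c1 * n) ≤
          Real.exp (-(c * n)) := by
  obtain ⟨c1, hc1, hc1β, hc⟩ := e_const (2 * d) β hβ (by linarith)
  have hκ : 0 < β * Real.log (1 / (1 - β)) := by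
    have : 0 < Real.log (1 / (1 - β)) := by
      apply Real.log_pos
      rw [lt_div_iff₀ (by linarith)]
      linarith
    positivity
  set κ := β * Real.log (1 / (1 - β)) with hκd
  refine ⟨c1, hc1, κ / 4, by positivity, ?_⟩
  -- polynomial factor
  have hpoly : ∀ᶠ n : ℕ in atTop, ((n : ℝ) + 1) ≤ Real.exp (κ / 4 * n) := by
    have h2 : ∀ᶠ x : ℝ in atTop, x + 1 ≤ Real.exp (κ / 4 * x) := by
      have h3 : ∀ᶠ x : ℝ in atTop, 2 / (κ / 4) ^ 2 * 2 ≤ x := eventually_ge_atTop _
      filter_upwards [h3, eventually_ge_atTop (0 : ℝ)] with x hx hx0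
      have hy : 0 ≤ κ / 4 * x := by positivity
      have h4 := Real.quadratic_le_exp_of_nonneg hy
      have h5 : x ≤ (κ / 4 * x) ^ 2 / 2 := by
        have h6 : 2 / (κ / 4) ^ 2 ≤ x := by
          refine le_trans ?_ hx
          have : 0 ≤ 2 / (κ / 4) ^ 2 := by positivity
          linarith
        rw [div_le_iff₀ (by positivity)] at h6
        nlinarith
      linarith
    exact tendsto_natCast_atTop_atTop.eventually h2
  filter_upwards [hpoly, eventually_gt_atTop 0] with n hpn hn
  have hn0 : (0 : ℝ) < n := by exact_mod_cast hn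
  set a : ℕ := ⌊c1 * n⌋₊ with ha
  have hac : (a : ℝ) ≤ c1 * n := Nat.floor_le (by positivity)
  have hd1 : (1 : ℝ) ≤ d := by exact_mod_cast (by omega : 1 ≤ d)
  -- union bound
  set M : Finset ℕ := (range (n + 1)).filter
    (fun m : ℕ => β * n ≤ (m : ℝ) ∧ (m : ℝ) ≤ (1 - β) * n) with hM
  have hma : ∀ m ∈ M, d * m + a ≤ d * n := by
    intro m hm
    rw [hM, mem_filter] at hm
    have h1 : ((d * m + a : ℕ) : ℝ) ≤ ((d * n : ℕ) : ℝ) := by
      push_cast
      have h2 : (m : ℝ) + a ≤ n := by nlinarith [hm.2.2]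
      have h3 : (a : ℝ) ≤ d * a := le_mul_of_one_le_left (Nat.cast_nonneg _) hd1
      nlinarith
    exact_mod_cast h1
  have hsub : fr (univ : Finset (Cfg n d)) (fun σ => ∃ V : Finset (Fin n),
        β * n ≤ (V.card : ℝ) ∧ (V.card : ℝ) ≤ (1 - β) * n ∧
        ((univ.filter (fun st : Fin n × Fin d => st.1 ∈ V ∧ (σ st).1 ∉ V)).card : ℝ) ≤ c1 * n) ≤
      fr (univ : Finset (Cfg n d)) (fun σ => ∃ m ∈ M, ∃ V ∈ powersetCard m (univ : Finset (Fin n)),
        ∃ F ∈ powersetCard a (univ : Finset (Fin n × Fin d)),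
        ∀ p : Fin n × Fin d, σ p ∈ V ×ˢ (univ : Finset (Fin d)) →
          p ∈ V ×ˢ (univ : Finset (Fin d)) ∪ F) := by
    apply fr_mono
    rintro σ - ⟨V, hV1, hV2, hV3⟩
    have hVn : V.card ≤ n := by simpa using card_le_univ V
    have hmM : V.card ∈ M := by
      rw [hM, mem_filter, mem_range]
      exact ⟨by omega, hV1, hV2⟩
    refine ⟨V.card, hmM, V, by simp [mem_powersetCard], ?_⟩
    rw [← ee_balance] at hV3
    have hTc : (univ.filter (fun st : Fin n × Fin d => st.1 ∉ V ∧ (σ st).1 ∈ V)).card ≤ a :=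
      Nat.le_floor hV3
    obtain ⟨F, hF1, hF2⟩ := exists_superset_card_eq hTc (by
      have := hma _ hmM
      rw [Fintype.card_prod, Fintype.card_fin, Fintype.card_fin, mul_comm]
      omega)
    refine ⟨F, by simp [mem_powersetCard, hF2], ?_⟩
    intro p hp
    rw [mem_product] at hp
    rw [mem_union]
    by_cases h : p.1 ∈ V
    · left; rw [mem_product]; exact ⟨h, mem_univ _⟩
    · right
      apply hF1
      rw [mem_filter]
      exact ⟨mem_univ _, h, hp.1⟩
  refine hsub.trans ?_
  refine (fr_exists_le _ M _).trans ?_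
  have hterm : ∀ m ∈ M, fr (univ : Finset (Cfg n d)) (fun σ =>
        ∃ V ∈ powersetCard m (univ : Finset (Fin n)),
        ∃ F ∈ powersetCard a (univ : Finset (Fin n × Fin d)),
        ∀ p : Fin n × Fin d, σ p ∈ V ×ˢ (univ : Finset (Fin d)) →
          p ∈ V ×ˢ (univ : Finset (Fin d)) ∪ F)
      ≤ Real.exp (-(κ / 2 * n)) := by
    intro m hm
    have hm' := hm
    rw [hM, mem_filter, mem_range] at hm'
    have h1 : ∀ V ∈ powersetCard m (univ : Finset (Fin n)),
        fr (univ : Finset (Cfg n d)) (fun σ =>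
        ∃ F ∈ powersetCard a (univ : Finset (Fin n × Fin d)),
        ∀ p : Fin n × Fin d, σ p ∈ V ×ˢ (univ : Finset (Fin d)) →
          p ∈ V ×ˢ (univ : Finset (Fin d)) ∪ F)
        ≤ ((d * n).choose a : ℝ) *
          (((d * m + a).choose (d * m) : ℝ) / ((d * n).choose (d * m) : ℝ)) := by
      intro V hV
      have h2 := fr_exists_le_card (univ : Finset (Cfg n d))
        (powersetCard a (univ : Finset (Fin n × Fin d)))
        (fun F σ => ∀ p : Fin n × Fin d, σ p ∈ V ×ˢ (univ : Finset (Fin d)) →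
          p ∈ V ×ˢ (univ : Finset (Fin d)) ∪ F)
        (((d * m + a).choose (d * m) : ℝ) / ((d * n).choose (d * m) : ℝ)) (by
          intro F hF
          rw [e_fr, card_product, (mem_powersetCard.1 hV).2, card_univ, Fintype.card_fin,
            Fintype.card_prod, Fintype.card_fin, Fintype.card_fin, mul_comm m d, mul_comm n d]
          gcongr
          refine (card_union_le _ _).trans ?_
          rw [card_product, (mem_powersetCard.1 hV).2, (mem_powersetCard.1 hF).2, card_univ,
            Fintype.card_fin, mul_comm m d])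
      rw [card_powersetCard, card_univ, Fintype.card_prod, Fintype.card_fin, Fintype.card_fin,
        mul_comm n d] at h2
      exact h2
    have h3 := fr_exists_le_card (univ : Finset (Cfg n d))
        (powersetCard m (univ : Finset (Fin n))) _ _ h1
    rw [card_powersetCard, card_univ, Fintype.card_fin] at h3
    refine h3.trans ((ee_term d n m a hd2 β c1 (by linarith) hβ hc1 (by linarith) hm'.2.1 hm'.2.2
      hac (hma m hm) hn).trans ?_)
    apply Real.exp_le_exp.2
    have h4 := mul_lt_mul_of_pos_right hc hn0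
    have h5 : 0 ≤ c1 * Real.log (1 / β) := by
      have : 0 ≤ Real.log (1 / β) := Real.log_nonneg (by rw [le_div_iff₀ hβ]; linarith)
      positivity
    have h6 : 0 ≤ c1 * Real.log (1 / β) * n := by positivity
    push_cast at h4
    rw [← hκd] at *
    nlinarith
  calc ∑ m ∈ M, _ ≤ ∑ _m ∈ M, Real.exp (-(κ / 2 * n)) := sum_le_sum hterm
    _ = (M.card : ℝ) * Real.exp (-(κ / 2 * n)) := by rw [sum_const, nsmul_eq_mul]
    _ ≤ ((n : ℝ) + 1) * Real.exp (-(κ / 2 * n)) := by
      gcongr
      have : M.card ≤ n + 1 := by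
        rw [hM]
        exact (card_filter_le _ _).trans (by simp)
      exact_mod_cast this
    _ ≤ Real.exp (κ / 4 * n) * Real.exp (-(κ / 2 * n)) := by gcongr
    _ = Real.exp (-(κ / 4 * n)) := by
      rw [← Real.exp_add]
      congr 1
      ring

end Pool.Agent.SMin2
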