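import Pool.Agent.SMin2.CFirst2
import Pool.Agent.SMin2.EdgeExp
import Pool.Agent.SMin.Cover

set_option autoImplicit false
open Finset Filter

namespace Pool.Agent.SMin2
open Pool.Agent.SMin

/-! ## Module COVER2: cover for `d ≥ 2` and a general rate -/

/-- the number of stubs with head in `V` -/
lemma cv2_card_heads {n d : ℕ} (σ : Cfg n d) (V : Finset (Fin n)) :
    (univ.filter (fun st : Fin n × Fin d => (σ st).1 ∈ V)).card = d * V.card := by
  classical
  have h1 : (univ.filter (fun st : Fin n × Fin d => (σ st).1 ∈ V)).card =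
      (V ×ˢ (univ : Finset (Fin d))).card := by
    apply card_bij (fun st _ => σ st)
    · intro st hst
      rw [mem_product]
      exact ⟨(mem_filter.1 hst).2, mem_univ _⟩
    · intro a _ b _ hab
      exact σ.injective hab
    · intro p hp
      refine ⟨σ.symm p, ?_, by simp⟩
      rw [mem_filter]
      refine ⟨mem_univ _, ?_⟩
      rw [Equiv.apply_symm_apply]
      exact (mem_product.1 hp).1
  rw [h1, card_product, card_univ, Fintype.card_fin, mul_comm]

open Classical in
/-- rows of the diffuse part without a head in the diffuse part -/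
lemma cv2_rows {n d : ℕ} (hn : 0 < n) (σ : Cfg n d) (x : Fin n → ℂ) (z : ℂ) (hz : z ≠ 0)
    (E : Finset (Fin n)) (hE : E.card ≤ 2) (η : ℝ)
    (hsol : ∀ i, i ∉ E → ‖L z (mult σ) x i‖ ≤ η)
    (𝒜 𝒜' : Finset (Finset (Fin n))) (ρ r r' ρ' a : ℝ) (hρ : 0 < ρ) (hA : cvF x ρ r 𝒜)
    (hsub : 𝒜.biUnion id ⊆ 𝒜'.biUnion id) (Diff : Finset (Fin n))
    (hDiff : Diff = univ \ 𝒜'.biUnion id)
    (hball : ∀ b : ℂ, (bc x Diff b r' : ℝ) < ρ' * n)
    (hr : d * r + η ≤ ‖z‖ * r')
    (hExc : ((𝒜'.biUnion id).card : ℝ) - ((𝒜.biUnion id).card : ℝ) ≤ a) :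
    ((Diff.filter (fun i => ¬ Touch σ Diff i)).card : ℝ) ≤
      d * a + 2 + (𝒜.card : ℝ) ^ d * (ρ' * n) := by
  have hn' : (0 : ℝ) < n := by exact_mod_cast hn
  set Exc := 𝒜'.biUnion id \ 𝒜.biUnion id with hExcd
  have hExcc : (Exc.card : ℝ) ≤ a := by
    have h1 : Exc.card = (𝒜'.biUnion id).card - (𝒜.biUnion id).card :=
      card_sdiff_of_subset hsub
    have h2 := card_le_card hsub
    rw [h1, Nat.cast_sub h2]
    exact hExc
  set C := Diff.filter (fun i => i ∉ E ∧ ∀ k, hd σ i k ∈ 𝒜.biUnion id) with hC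
  have hcover : Diff.filter (fun i => ¬ Touch σ Diff i) ⊆
      (E ∪ (univ.filter (fun st : Fin n × Fin d => (σ st).1 ∈ Exc)).image Prod.fst) ∪ C := by
    intro i hi
    obtain ⟨hiD, hiT⟩ := mem_filter.1 hi
    by_cases h1 : i ∈ E
    · exact mem_union_left _ (mem_union_left _ h1)
    · by_cases h2 : ∀ k, hd σ i k ∈ 𝒜.biUnion id
      · exact mem_union_right _ (mem_filter.2 ⟨hiD, h1, h2⟩)
      · push Not at h2
        obtain ⟨k, hk⟩ := h2
        apply mem_union_left
        apply mem_union_right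
        rw [mem_image]
        refine ⟨(i, k), ?_, rfl⟩
        rw [mem_filter]
        refine ⟨mem_univ _, ?_⟩
        rw [hExcd, Finset.mem_sdiff]
        refine ⟨?_, hk⟩
        by_contra h3
        apply hiT
        refine ⟨k, ?_⟩
        rw [hDiff, Finset.mem_sdiff]
        exact ⟨mem_univ _, h3⟩
  have hI : ((univ.filter (fun st : Fin n × Fin d => (σ st).1 ∈ Exc)).image Prod.fst).card ≤
      d * Exc.card := by
    rw [← cv2_card_heads σ Exc]
    exact card_image_le
  -- the pure rows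
  have hCc : (C.card : ℝ) ≤ (𝒜.card : ℝ) ^ d * (ρ' * n) := by
    -- the atom of a column
    have hat : ∀ j : Fin n, j ∈ 𝒜.biUnion id → ∃ P ∈ 𝒜, j ∈ P := by
      intro j hj
      obtain ⟨P, hP, hjP⟩ := mem_biUnion.1 hj
      exact ⟨P, hP, hjP⟩
    let at_ : Fin n → Finset (Fin n) := fun j =>
      if hj : ∃ P ∈ 𝒜, j ∈ P then Classical.choose hj else ∅
    have hat1 : ∀ j, j ∈ 𝒜.biUnion id → at_ j ∈ 𝒜 ∧ j ∈ at_ j := by
      intro j hj
      have h1 := hat j hj
      simp only [at_]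
      rw [dif_pos h1]
      exact Classical.choose_spec h1
    -- representatives
    have hrep : ∀ P ∈ 𝒜, ∃ c, c ∈ P := by
      intro P hP
      have h1 := hA.1 P hP
      have h2 : (0 : ℝ) < (P.card : ℝ) := lt_of_lt_of_le (mul_pos hρ hn') h1
      have h3 : 0 < P.card := by exact_mod_cast h2
      exact card_pos.1 h3
    let rep : Finset (Fin n) → Fin n := fun P =>
      if hP : ∃ c, c ∈ P then Classical.choose hP else ⟨0, hn⟩
    have hrep1 : ∀ P ∈ 𝒜, rep P ∈ P := by
      intro P hP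
      have h1 := hrep P hP
      simp only [rep]
      rw [dif_pos h1]
      exact Classical.choose_spec h1
    have hmaps : ∀ i ∈ C, (fun i => fun k : Fin d => at_ (hd σ i k)) i ∈
        Fintype.piFinset (fun _ : Fin d => 𝒜) := by
      intro i hi
      rw [Fintype.mem_piFinset]
      intro k
      exact (hat1 _ ((mem_filter.1 hi).2.2 k)).1
    have h1 := card_eq_sum_card_fiberwise (s := C) (t := Fintype.piFinset (fun _ : Fin d => 𝒜))
      (f := fun i => fun k : Fin d => at_ (hd σ i k)) hmaps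
    have h2 : ∀ t ∈ Fintype.piFinset (fun _ : Fin d => 𝒜),
        ((C.filter (fun i => (fun k : Fin d => at_ (hd σ i k)) = t)).card : ℝ) ≤ ρ' * n := by
      intro t ht
      rw [Fintype.mem_piFinset] at ht
      set b : ℂ := z⁻¹ * ∑ k, x (rep (t k)) with hb
      have h3 : C.filter (fun i => (fun k : Fin d => at_ (hd σ i k)) = t) ⊆
          Diff.filter (fun i => ‖x i - b‖ ≤ r') := by
        intro i hi
        obtain ⟨hiC, hit⟩ := mem_filter.1 hi
        obtain ⟨hiD, hiE, hih⟩ := mem_filter.1 hiC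
        rw [mem_filter]
        refine ⟨hiD, ?_⟩
        have h4 : ∀ k, ‖x (hd σ i k) - x (rep (t k))‖ ≤ r := by
          intro k
          have h5 := hat1 _ (hih k)
          have h6 : at_ (hd σ i k) = t k := congrFun hit k
          rw [h6] at h5
          exact hA.2.1 (t k) (ht k) _ h5.2 _ (hrep1 _ (ht k))
        have h5 := hsol i hiE
        rw [L_mult] at h5
        have h6 : ‖∑ k, (x (hd σ i k) - x (rep (t k)))‖ ≤ d * r := by
          calc ‖∑ k, (x (hd σ i k) - x (rep (t k)))‖ ≤ ∑ k : Fin d,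
                ‖x (hd σ i k) - x (rep (t k))‖ := norm_sum_le _ _
            _ ≤ ∑ _k : Fin d, r := sum_le_sum fun k _ => h4 k
            _ = d * r := by rw [sum_const, card_univ, Fintype.card_fin, nsmul_eq_mul]
        have h7 : z * (x i - b) = (∑ k, (x (hd σ i k) - x (rep (t k)))) -
            (∑ k, x (hd σ i k) - z * x i) := by
          rw [hb, sum_sub_distrib, mul_sub, ← mul_assoc, mul_inv_cancel₀ hz, one_mul]
          ring
        have h8 : ‖z‖ * ‖x i - b‖ ≤ ‖z‖ * r' := by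
          rw [← norm_mul, h7]
          calc ‖(∑ k, (x (hd σ i k) - x (rep (t k)))) - (∑ k, x (hd σ i k) - z * x i)‖ ≤
              ‖∑ k, (x (hd σ i k) - x (rep (t k)))‖ + ‖∑ k, x (hd σ i k) - z * x i‖ :=
                norm_sub_le _ _
            _ ≤ d * r + η := add_le_add h6 h5
            _ ≤ ‖z‖ * r' := hr
        exact le_of_mul_le_mul_left h8 (norm_pos_iff.2 hz)
      have h4 := hball b
      unfold bc at h4
      have h5 : ((C.filter (fun i => (fun k : Fin d => at_ (hd σ i k)) = t)).card : ℝ) ≤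
          ((Diff.filter (fun i => ‖x i - b‖ ≤ r')).card : ℝ) := by
        exact_mod_cast card_le_card h3
      exact h5.trans h4.le
    rw [h1]
    push_cast
    calc ∑ t ∈ Fintype.piFinset (fun _ : Fin d => 𝒜),
          ((C.filter (fun i => (fun k : Fin d => at_ (hd σ i k)) = t)).card : ℝ) ≤
          ∑ _t ∈ Fintype.piFinset (fun _ : Fin d => 𝒜), ρ' * n := sum_le_sum h2
      _ = (𝒜.card : ℝ) ^ d * (ρ' * n) := by
        rw [sum_const, Fintype.card_piFinset, prod_const, card_univ, Fintype.card_fin,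
          nsmul_eq_mul]
        push_cast
        rfl
  have h1 := (card_le_card hcover).trans ((card_union_le _ _).trans
    (Nat.add_le_add_right (card_union_le _ _) _))
  have h2 : ((Diff.filter (fun i => ¬ Touch σ Diff i)).card : ℝ) ≤
      (E.card : ℝ) + (((univ.filter (fun st : Fin n × Fin d => (σ st).1 ∈ Exc)).image
        Prod.fst).card : ℝ) + (C.card : ℝ) := by exact_mod_cast h1
  have h3 : (E.card : ℝ) ≤ 2 := by exact_mod_cast hE
  have h4 : (((univ.filter (fun st : Fin n × Fin d => (σ st).1 ∈ Exc)).image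
        Prod.fst).card : ℝ) ≤ d * (Exc.card : ℝ) := by exact_mod_cast hI
  have h5 : (d : ℝ) * (Exc.card : ℝ) ≤ d * a :=
    mul_le_mul_of_nonneg_left hExcc (Nat.cast_nonneg _)
  linarith

open Classical in
/-- the number of stubs which leave the diffuse part -/
lemma cv2_leave {n d : ℕ} (σ : Cfg n d) (Diff : Finset (Fin n)) (e e2 : ℝ)
    (hT : ((univ.filter (fun i => Touch σ Diff i)).card : ℝ) ≤ Diff.card + e)
    (hD : ((Diff.filter (fun i => ¬ Touch σ Diff i)).card : ℝ) ≤ e2) :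
    ((univ.filter (fun st : Fin n × Fin d => st.1 ∈ Diff ∧ (σ st).1 ∉ Diff)).card : ℝ) ≤
      d * e + d * e2 := by
  set R := univ.filter (fun i => Touch σ Diff i) with hR
  have hcov : univ.filter (fun st : Fin n × Fin d => st.1 ∈ Diff ∧ (σ st).1 ∉ Diff) ⊆
      ((R ×ˢ (univ : Finset (Fin d))) \ univ.filter (fun st : Fin n × Fin d => (σ st).1 ∈ Diff)) ∪
        ((Diff.filter (fun i => ¬ Touch σ Diff i)) ×ˢ (univ : Finset (Fin d))) := by
    intro st hst
    obtain ⟨_, h1, h2⟩ := mem_filter.1 hst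
    by_cases h3 : Touch σ Diff st.1
    · apply mem_union_left
      rw [Finset.mem_sdiff, mem_product]
      exact ⟨⟨mem_filter.2 ⟨mem_univ _, h3⟩, mem_univ _⟩, fun h => h2 (mem_filter.1 h).2⟩
    · apply mem_union_right
      rw [mem_product]
      exact ⟨mem_filter.2 ⟨h1, h3⟩, mem_univ _⟩
  have hsub : univ.filter (fun st : Fin n × Fin d => (σ st).1 ∈ Diff) ⊆
      R ×ˢ (univ : Finset (Fin d)) := by
    intro st hst
    rw [mem_product]
    refine ⟨mem_filter.2 ⟨mem_univ _, st.2, ?_⟩, mem_univ _⟩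
    exact (mem_filter.1 hst).2
  have h1 := (card_le_card hcov).trans (card_union_le _ _)
  rw [card_sdiff_of_subset hsub, cv2_card_heads, card_product, card_product, card_univ,
    Fintype.card_fin] at h1
  have h2 := card_le_card hsub
  rw [cv2_card_heads, card_product, card_univ, Fintype.card_fin] at h2
  have h3 : ((univ.filter (fun st : Fin n × Fin d => st.1 ∈ Diff ∧ (σ st).1 ∉ Diff)).card : ℝ) ≤
      ((R.card * d - d * Diff.card : ℕ) : ℝ) +
        ((Diff.filter (fun i => ¬ Touch σ Diff i)).card : ℝ) * d := by exact_mod_cast h1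
  rw [Nat.cast_sub h2] at h3
  push_cast at h3
  have hd0 : (0 : ℝ) ≤ d := Nat.cast_nonneg _
  have h4 := mul_le_mul_of_nonneg_left hT hd0
  have h5 := mul_le_mul_of_nonneg_left hD hd0
  linarith

open Classical in
/-- the deterministic implication -/
lemma cv2_main {n d : ℕ} (hn : 0 < n) (σ : Cfg n d) (x : Fin n → ℂ) (z : ℂ) (hz : z ≠ 0)
    (E : Finset (Fin n)) (hE : E.card ≤ 2) (η : ℝ)
    (hsol : ∀ i, i ∉ E → ‖L z (mult σ) x i‖ ≤ η)
    (N : ℕ) (hN : 0 < N)
    (ρ r : ℕ → ℝ) (hρ : ∀ j, 0 < ρ j) (hρm : ∀ j, ρ (j + 1) ≤ ρ j) (hrm : ∀ j, r j ≤ r (j + 1))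
    (β θ β₀ ε c1 : ℝ) (hβ₀ : β₀ + 1 / N ≤ β) (hθβ : β₀ ≤ θ / 2) (hρθ : ∀ j, ρ (j + 1) ≤ θ / 4)
    (hρε : ∀ j, ρ (j + 1) ≤ ε * ρ j ^ d)
    (hc1 : (d * (1 / N + ε) + d * (d * (1 / N) + ε)) * n + 2 * d ≤ c1 * n)
    (a : ℂ) (r₀ : ℝ) (hr₀ : ∀ j, 2 * r₀ ≤ r j) (ha : θ * n ≤ (bc x univ a r₀ : ℝ))
    (hrz : ∀ j < N, d * r j + η ≤ ‖z‖ * (r (j + 1) / 2))
    (hexp : ∀ V : Finset (Fin n), β₀ * n ≤ (V.card : ℝ) → (V.card : ℝ) ≤ (1 - β₀) * n →
      c1 * n < ((univ.filter (fun st : Fin n × Fin d => st.1 ∈ V ∧ (σ st).1 ∉ V)).card : ℝ))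
    (r' : ℕ → ℝ) (hr' : ∀ j, 2 * r' j ≤ r (j + 1))
    (hC : ∀ j < N, ∀ typ : Fin n → Fin ⌊1 / ρ j⌋₊ ⊕ Bool,
      (∀ k l : Fin n, ∀ c : Fin ⌊1 / ρ j⌋₊, typ k = Sum.inl c → typ l = Sum.inl c →
                ‖x k - x l‖ ≤ r j) →
      (∀ b : ℂ, (bc x (univ.filter (fun k => typ k = Sum.inr false)) b (r' j) : ℝ)
        < ρ (j + 1) * n) →
      ((univ.filter (fun i => Touch σ
          (univ.filter (fun k => typ k = Sum.inr false)) i)).card : ℝ) ≤
      ((univ.filter (fun k => typ k = Sum.inr false ∨ typ k = Sum.inr true)).card : ℝ) + ε * n) :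
    ∃ j < N, Cov x (ρ j) (r j) β := by
  have hn' : (0 : ℝ) < n := by exact_mod_cast hn
  have hN' : (0 : ℝ) < N := by exact_mod_cast hN
  obtain ⟨j, hj, 𝒜, 𝒜', h1, h2, h3, h4⟩ := cv_det hn x N hN ρ r hρ hρm hrm
  refine ⟨j, hj, 𝒜, h1.1, h1.2.1, h1.2.2, ?_⟩
  have hcard := cv_card hn x (ρ j) (r j) (hρ j) 𝒜 h1
  -- the types
  have hemb : ∃ e : 𝒜 → Fin ⌊1 / ρ j⌋₊, Function.Injective e := by
    have : Nonempty (𝒜 ↪ Fin ⌊1 / ρ j⌋₊) := by
      apply Function.Embedding.nonempty_of_card_le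
      rw [Fintype.card_coe, Fintype.card_fin]
      exact hcard
    obtain ⟨e⟩ := this
    exact ⟨e, e.injective⟩
  obtain ⟨e, he⟩ := hemb
  let typ : Fin n → Fin ⌊1 / ρ j⌋₊ ⊕ Bool := fun k =>
    if hk : ∃ P ∈ 𝒜, k ∈ P then Sum.inl (e ⟨Classical.choose hk, (Classical.choose_spec hk).1⟩)
    else if k ∈ 𝒜'.biUnion id then Sum.inr true else Sum.inr false
  have ht1 : ∀ k c, typ k = Sum.inl c → ∃ P : 𝒜, k ∈ (P : Finset (Fin n)) ∧ e P = c := by
    intro k c hk
    by_cases hkP : ∃ P ∈ 𝒜, k ∈ P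
    · have h5 : typ k = Sum.inl (e ⟨Classical.choose hkP, (Classical.choose_spec hkP).1⟩) := by
        simp only [typ]; rw [dif_pos hkP]
      rw [h5] at hk
      refine ⟨⟨Classical.choose hkP, (Classical.choose_spec hkP).1⟩,
        (Classical.choose_spec hkP).2, ?_⟩
      exact Sum.inl.inj hk
    · have h5 : typ k = if k ∈ 𝒜'.biUnion id then Sum.inr true else Sum.inr false := by
        simp only [typ]; rw [dif_neg hkP]
      rw [h5] at hk
      split_ifs at hk
  have ht2 : ∀ k, typ k = Sum.inr false ↔ k ∉ 𝒜'.biUnion id := by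
    intro k
    by_cases hkP : ∃ P ∈ 𝒜, k ∈ P
    · have h5 : typ k = Sum.inl (e ⟨Classical.choose hkP, (Classical.choose_spec hkP).1⟩) := by
        simp only [typ]; rw [dif_pos hkP]
      rw [h5]
      constructor
      · intro h; cases h
      · intro h
        exfalso
        apply h
        apply h2
        obtain ⟨P, hP, hk⟩ := hkP
        exact mem_biUnion.2 ⟨P, hP, hk⟩
    · have h5 : typ k = if k ∈ 𝒜'.biUnion id then Sum.inr true else Sum.inr false := by
        simp only [typ]; rw [dif_neg hkP]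
      rw [h5]
      split_ifs with h6
      · constructor
        · intro h; cases h
        · intro h; exact absurd h6 h
      · exact ⟨fun _ => h6, fun _ => rfl⟩
  have ht3 : ∀ k, (typ k = Sum.inr false ∨ typ k = Sum.inr true) ↔ k ∉ 𝒜.biUnion id := by
    intro k
    by_cases hkP : ∃ P ∈ 𝒜, k ∈ P
    · have h5 : typ k = Sum.inl (e ⟨Classical.choose hkP, (Classical.choose_spec hkP).1⟩) := by
        simp only [typ]; rw [dif_pos hkP]
      rw [h5]
      constructor
      · rintro (h | h) <;> cases h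
      · intro h
        exfalso
        apply h
        obtain ⟨P, hP, hk⟩ := hkP
        exact mem_biUnion.2 ⟨P, hP, hk⟩
    · have h5 : typ k = if k ∈ 𝒜'.biUnion id then Sum.inr true else Sum.inr false := by
        simp only [typ]; rw [dif_neg hkP]
      rw [h5]
      have h7 : k ∉ 𝒜.biUnion id := by
        intro h
        obtain ⟨P, hP, hk⟩ := mem_biUnion.1 h
        exact hkP ⟨P, hP, hk⟩
      split_ifs with h6
      · exact ⟨fun _ => h7, fun _ => Or.inr rfl⟩
      · exact ⟨fun _ => h7, fun _ => Or.inl rfl⟩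
  set Diff := univ.filter (fun k => typ k = Sum.inr false) with hDiff
  have hDiff' : Diff = univ \ 𝒜'.biUnion id := by
    ext k
    rw [hDiff, mem_filter, Finset.mem_sdiff]
    simp only [mem_univ, true_and]
    exact ht2 k
  have hDE : univ.filter (fun k => typ k = Sum.inr false ∨ typ k = Sum.inr true)
      = univ \ 𝒜.biUnion id := by
    ext k
    rw [mem_filter, Finset.mem_sdiff]
    simp only [mem_univ, true_and]
    exact ht3 k
  have hdisj : ∀ Q ⊆ Diff, Disjoint Q (𝒜'.biUnion id) := by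
    intro Q hQ
    rw [disjoint_left]
    intro k hk hk'
    have := hQ hk
    rw [hDiff', Finset.mem_sdiff] at this
    exact this.2 hk'
  -- sizes
  have hcd : ∀ 𝒞 : Finset (Finset (Fin n)), ((univ \ 𝒞.biUnion id).card : ℝ)
      = n - ((𝒞.biUnion id).card : ℝ) := by
    intro 𝒞
    have h5 : (univ \ 𝒞.biUnion id).card = n - (𝒞.biUnion id).card := by
      rw [card_sdiff_of_subset (subset_univ _), card_univ, Fintype.card_fin]
    have h6 : (𝒞.biUnion id).card ≤ n := by
      have := card_le_univ (𝒞.biUnion id)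
      rwa [Fintype.card_fin] at this
    rw [h5]
    push_cast [Nat.cast_sub h6]
    rfl
  have hExc : ((𝒜'.biUnion id).card : ℝ) - ((𝒜.biUnion id).card : ℝ) ≤ 1 / N * n := by
    rw [one_div, ← div_eq_inv_mul, le_div_iff₀ hN']
    linarith
  have hball : ∀ b : ℂ, ∀ s : ℝ, 2 * s ≤ r (j + 1) → ((bc x Diff b s : ℕ) : ℝ) < ρ (j + 1) * n := by
    intro b s hs
    have h5 := h4 (Diff.filter (fun k => ‖x k - b‖ ≤ s)) (hdisj _ (filter_subset _ _)) ?_
    · unfold bc
      exact h5
    · intro k hk l hl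
      have h6 := (mem_filter.1 hk).2
      have h7 := (mem_filter.1 hl).2
      have : ‖x k - x l‖ ≤ ‖x k - b‖ + ‖x l - b‖ := by
        have := norm_sub_le (x k - b) (x l - b)
        simpa using this
      linarith
  have hrows := hC j hj typ (by
      intro k l c hk hl
      obtain ⟨P, hkP, hPc⟩ := ht1 k c hk
      obtain ⟨P', hlP, hPc'⟩ := ht1 l c hl
      have hPP : P = P' := he (hPc.trans hPc'.symm)
      subst hPP
      exact h1.2.1 P P.2 k hkP l hlP) (fun b => hball b (r' j) (hr' j))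
  rw [hDE, hcd 𝒜] at hrows
  -- the level set
  have hlev : (bc x univ a r₀ : ℝ) ≤ (bc x Diff a r₀ : ℝ) + ((univ \ Diff).card : ℝ) := by
    have h5 : univ.filter (fun k => ‖x k - a‖ ≤ r₀)
        ⊆ (Diff.filter (fun k => ‖x k - a‖ ≤ r₀)) ∪ (univ \ Diff) := by
      intro k hk
      rw [mem_union, mem_filter, Finset.mem_sdiff]
      by_cases hkD : k ∈ Diff
      · exact Or.inl ⟨hkD, (mem_filter.1 hk).2⟩
      · exact Or.inr ⟨mem_univ _, hkD⟩
    have h6 := (card_le_card h5).trans (card_union_le _ _)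
    unfold bc
    exact_mod_cast h6
  have hDc : ((univ \ Diff).card : ℝ) = n - (Diff.card : ℝ) := by
    have h5 : (univ \ Diff).card = n - Diff.card := by
      rw [card_sdiff_of_subset (subset_univ _), card_univ, Fintype.card_fin]
    have h6 : Diff.card ≤ n := by
      have := card_le_univ Diff
      rwa [Fintype.card_fin] at this
    rw [h5]
    push_cast [Nat.cast_sub h6]
    rfl
  have hb0 := hball a r₀ (hr₀ (j + 1))
  have hθ4 := hρθ j
  have hDle : (Diff.card : ℝ) ≤ (1 - β₀) * n := by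
    have h5 : ρ (j + 1) * n ≤ θ / 4 * n := mul_le_mul_of_nonneg_right hθ4 hn'.le
    have h6 : β₀ * n ≤ θ / 2 * n := mul_le_mul_of_nonneg_right hθβ hn'.le
    have h7 : 0 < θ := by have := hρ (j + 1); linarith
    have h8 : 0 < θ * n := mul_pos h7 hn'
    nlinarith
  have hDsmall : (Diff.card : ℝ) < β₀ * n := by
    by_contra hcon
    have hcon := not_lt.1 hcon
    have h5 := hexp Diff hcon hDle
    have h6 : (Diff.card : ℝ) = n - ((𝒜'.biUnion id).card : ℝ) := by rw [hDiff', hcd 𝒜']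
    have h7 := cv2_rows hn σ x z hz E hE η hsol 𝒜 𝒜' (ρ j) (r j) (r (j + 1) / 2) (ρ (j + 1))
      (1 / N * n) (hρ j) h1 h2 Diff hDiff' (fun b => hball b (r (j + 1) / 2) (by linarith))
      (hrz j hj) hExc
    have h8 : (𝒜.card : ℝ) ^ d * (ρ (j + 1) * n) ≤ ε * n := by
      have h9 : (𝒜.card : ℝ) * ρ j ≤ 1 := by
        have h10 : (𝒜.card : ℝ) ≤ 1 / ρ j :=
          (Nat.cast_le.2 hcard).trans (Nat.floor_le (by have := hρ j; positivity))
        rwa [le_div_iff₀ (hρ j)] at h10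
      have h11 : ((𝒜.card : ℝ) * ρ j) ^ d ≤ 1 :=
        pow_le_one₀ (mul_nonneg (Nat.cast_nonneg _) (hρ j).le) h9
      have h12 : 0 ≤ ε := by
        have h13 := hρε j
        have h14 := hρ (j + 1)
        have h15 : 0 < ε * ρ j ^ d := lt_of_lt_of_le h14 h13
        exact (pos_of_mul_pos_left h15 (pow_nonneg (hρ j).le _)).le
      calc (𝒜.card : ℝ) ^ d * (ρ (j + 1) * n) ≤ (𝒜.card : ℝ) ^ d * ((ε * ρ j ^ d) * n) := by
            apply mul_le_mul_of_nonneg_left _ (pow_nonneg (Nat.cast_nonneg _) _)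
            exact mul_le_mul_of_nonneg_right (hρε j) hn'.le
        _ = ((𝒜.card : ℝ) * ρ j) ^ d * (ε * n) := by rw [mul_pow]; ring
        _ ≤ 1 * (ε * n) := mul_le_mul_of_nonneg_right h11 (mul_nonneg h12 hn'.le)
        _ = ε * n := one_mul _
    have h9 : ((univ.filter (fun i => Touch σ Diff i)).card : ℝ) ≤
        Diff.card + (1 / N + ε) * n := by
      have h10 : ((univ.filter (fun i => Touch σ Diff i)).card : ℝ) ≤
        n - ((𝒜.biUnion id).card : ℝ) + ε * n := hrows
      nlinarith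
    have h10 := cv2_leave σ Diff ((1 / N + ε) * n) ((d * (1 / N) + ε) * n + 2) h9 (by
      refine h7.trans ?_
      nlinarith)
    have h11 : (d : ℝ) * ((1 / N + ε) * n) + d * ((d * (1 / N) + ε) * n + 2) ≤ c1 * n := by
      refine le_trans (le_of_eq ?_) hc1
      ring
    linarith
  have h6 : (Diff.card : ℝ) = n - ((𝒜'.biUnion id).card : ℝ) := by rw [hDiff', hcd 𝒜']
  have h7 : (β₀ + 1 / N) * n ≤ β * n := mul_le_mul_of_nonneg_right hβ₀ hn'.le
  nlinarith

lemma cv2_exp {a b n : ℝ} (h : b ≤ a) (hn : 0 ≤ n) : Real.exp (-(a * n)) ≤ Real.exp (-(b * n)) :=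
  Real.exp_le_exp.2 (neg_le_neg (mul_le_mul_of_nonneg_right h hn))

open Classical in
/-- the bad event of `C1` -/
def cv2Ev {n d : ℕ} (z : ℂ) (ln ε δm δp ρ' : ℝ) (s : ℕ) (E : Finset (Fin n)) (σ : Cfg n d) :
    Prop :=
  ∃ x : Fin n → ℂ,
            Sol z (mult σ) E (Real.exp (-(δm * ln))) x ∧
            ∃ typ : Fin n → Fin s ⊕ Bool,
              (∀ k l : Fin n, ∀ c : Fin s, typ k = Sum.inl c → typ l = Sum.inl c →
                ‖x k - x l‖ ≤ Real.exp (-(δm * ln))) ∧
              (∀ b : ℂ, (bc x (univ.filter (fun k => typ k = Sum.inr false)) b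
                (Real.exp (-(δp * ln))) : ℝ) < ρ' * n) ∧
              ((univ.filter (fun k => typ k = Sum.inr false ∨ typ k = Sum.inr true)).card : ℝ) + ε * n <
                ((univ.filter (fun i => Touch σ
                  (univ.filter (fun k => typ k = Sum.inr false)) i)).card : ℝ)

open Classical in
/-- the bad event of `edge_expansion` -/
def cv2Ex {n d : ℕ} (β c1 : ℝ) (σ : Cfg n d) : Prop := ∃ V : Finset (Fin n),
        β * n ≤ (V.card : ℝ) ∧ (V.card : ℝ) ≤ (1 - β) * n ∧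
        ((univ.filter (fun st : Fin n × Fin d => st.1 ∈ V ∧ (σ st).1 ∉ V)).card : ℝ) ≤ c1 * n

theorem cover (ell : ℕ → ℝ) (hell : Rate ell) (d : ℕ) (hd2 : 2 ≤ d) (z : ℂ) (hz0 : z ≠ 0)
    (θ β δ : ℝ) (hθ : 0 < θ) (hβ : 0 < β) (hβ1 : β < 1) (hδ : 0 < δ) :
    ∃ J : ℕ, ∃ ρ δ' : ℕ → ℝ, (∀ j, 0 < ρ j ∧ ρ j < 1 ∧ 0 < δ' j ∧ δ' j ≤ δ) ∧
      ∃ c : ℝ, 0 < c ∧ ∀ᶠ n : ℕ in atTop, ∀ E : Finset (Fin n), E.card ≤ 2 →
        fr (univ : Finset (Cfg n d)) (fun σ => ∃ x : Fin n → ℂ,
          Sol z (mult σ) E (Real.exp (-(δ * ell n))) x ∧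
          (∃ a : ℂ, θ * n ≤ (bc x univ a (Real.exp (-(δ * ell n))) : ℝ)) ∧
          ∀ j < J, ¬ Cov x (ρ j) (Real.exp (-(δ' j * ell n))) β) ≤ Real.exp (-(c * n)) := by
  classical
  have hd0 : (0 : ℝ) < d := by exact_mod_cast (by omega : 0 < d)
  set β₀ : ℝ := min (β / 2) (min (θ / 2) (1 / 4)) with hβ₀
  have hβ₀pos : 0 < β₀ := by
    rw [hβ₀]; exact lt_min (by linarith) (lt_min (by linarith) (by norm_num))
  have hβ₀1 : β₀ ≤ β / 2 := min_le_left _ _
  have hβ₀2 : β₀ ≤ θ / 2 := (min_le_right _ _).trans (min_le_left _ _)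
  have hβ₀3 : β₀ ≤ 1 / 4 := (min_le_right _ _).trans (min_le_right _ _)
  obtain ⟨c1, hc1, cE, hcE, hE⟩ := edge_expansion d hd2 β₀ hβ₀pos (by linarith)
  set ε : ℝ := min (c1 / (8 * d)) (1 / 2) with hε
  have hεpos : 0 < ε := by rw [hε]; exact lt_min (by positivity) (by norm_num)
  have hε1 : ε ≤ c1 / (8 * d) := min_le_left _ _
  have hε2 : ε ≤ 1 / 2 := min_le_right _ _
  have hε3 : 2 * d * ε ≤ c1 / 4 := by
    have h1 : 2 * d * ε ≤ 2 * d * (c1 / (8 * d)) := mul_le_mul_of_nonneg_left hε1 (by positivity)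
    calc 2 * d * ε ≤ 2 * d * (c1 / (8 * d)) := h1
      _ = c1 / 4 := by field_simp; norm_num
  obtain ⟨N, hN⟩ := exists_nat_ge (max (4 * (d + d ^ 2) / c1) (max (2 / β) 1))
  have hN1 : 4 * (d + d ^ 2) / c1 ≤ N := (le_max_left _ _).trans hN
  have hN2 : 2 / β ≤ N := ((le_max_left _ _).trans (le_max_right _ _)).trans hN
  have hN3 : (1 : ℝ) ≤ N := ((le_max_right _ _).trans (le_max_right _ _)).trans hN
  have hN' : (0 : ℝ) < N := by linarith
  have hN0 : 0 < N := by exact_mod_cast hN'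
  have hNc : ((d : ℝ) + d ^ 2) * (1 / (N : ℝ)) ≤ c1 / 4 := by
    rw [mul_one_div, div_le_iff₀ hN']
    rw [div_le_iff₀ hc1] at hN1
    linarith
  have hNβ : 1 / (N : ℝ) ≤ β / 2 := by
    rw [div_le_iff₀ hN']
    rw [div_le_iff₀ hβ] at hN2
    linarith
  obtain ⟨τ, hτ, hτ4, hC1⟩ := C1 ell hell d (by omega) z ε hεpos (by linarith)
  choose ρ' hρ'pos hC1' using hC1
  -- the scales
  let ρs : ℕ → ℝ := fun j => Nat.rec (1 / 2 : ℝ)
    (fun _ q => min (ρ' ⌊1 / q⌋₊) (min (θ / 4) (min (ε * q ^ d) (q / 2)))) j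
  have hρs0 : ρs 0 = 1 / 2 := rfl
  have hρss : ∀ j, ρs (j + 1) =
      min (ρ' ⌊1 / ρs j⌋₊) (min (θ / 4) (min (ε * ρs j ^ d) (ρs j / 2))) := fun j => rfl
  let δs : ℕ → ℝ := fun j => (δ / 2) * (τ / 2) ^ j
  have hδs : ∀ j, δs (j + 1) = τ / 2 * δs j := by
    intro j; simp only [δs]; rw [pow_succ]; ring
  have hρss1 : ∀ j, ρs (j + 1) ≤ ρs j / 2 := by
    intro j
    rw [hρss]
    exact (min_le_right _ _).trans ((min_le_right _ _).trans (min_le_right _ _))
  have hρss2 : ∀ j, ρs (j + 1) ≤ ε * ρs j ^ d := by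
    intro j
    rw [hρss]
    exact (min_le_right _ _).trans ((min_le_right _ _).trans (min_le_left _ _))
  have hρspos : ∀ j, 0 < ρs j ∧ ρs j < 1 := by
    intro j
    induction j with
    | zero => rw [hρs0]; norm_num
    | succ j ih =>
      constructor
      · rw [hρss]
        exact lt_min (hρ'pos _) (lt_min (by linarith)
          (lt_min (mul_pos hεpos (pow_pos ih.1 _)) (by linarith [ih.1])))
      · have := hρss1 j
        linarith [ih.2]
  have hρsm : ∀ j, ρs (j + 1) ≤ ρs j := by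
    intro j
    have := hρss1 j
    linarith [(hρspos j).1]
  have hδspos : ∀ j, 0 < δs j := fun j => by simp only [δs]; positivity
  have hδsle : ∀ j, δs j ≤ δ / 2 := by
    intro j
    simp only [δs]
    have : (τ / 2) ^ j ≤ 1 := pow_le_one₀ (by linarith) (by linarith)
    nlinarith
  have hδsm : ∀ j, δs (j + 1) ≤ δs j / 2 := by
    intro j
    rw [hδs]
    have := hδspos j
    nlinarith
  refine ⟨N, ρs, δs, fun j => ⟨(hρspos j).1, (hρspos j).2, hδspos j, by linarith [hδsle j]⟩, ?_⟩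
  have hCj : ∀ j, ∃ c : ℝ, 0 < c ∧
        ∀ᶠ n : ℕ in atTop, ∀ E : Finset (Fin n), E.card ≤ 2 →
          fr (univ : Finset (Cfg n d))
            (cv2Ev z (ell n) ε (δs j) (2 * δs (j + 1)) (ρ' ⌊1 / ρs j⌋₊) ⌊1 / ρs j⌋₊ E)
            ≤ Real.exp (-(c * n)) := by
    intro j
    exact hC1' ⌊1 / ρs j⌋₊ (δs j) (2 * δs (j + 1)) (hδspos j)
      (by have := hδspos (j + 1); linarith) (by rw [hδs]; linarith)
  choose cj hcjpos hcj using hCj
  have hE' : ∀ᶠ n : ℕ in atTop, fr (univ : Finset (Cfg n d)) (cv2Ex β₀ c1) ≤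
      Real.exp (-(cE * n)) := hE
  -- the minimal rate
  obtain ⟨cm, hcm, hcmE, hcmj⟩ : ∃ cm : ℝ, 0 < cm ∧ cm ≤ cE ∧ ∀ j < N, cm ≤ cj j := by
    have hne : (range N).Nonempty := ⟨0, mem_range.2 hN0⟩
    obtain ⟨j0, hj0, hmin⟩ := exists_min_image (range N) cj hne
    refine ⟨min cE (cj j0), lt_min hcE (hcjpos _), min_le_left _ _, ?_⟩
    intro j hj
    exact (min_le_right _ _).trans (hmin j (mem_range.2 hj))
  refine ⟨cm / 2, by linarith, ?_⟩
  have hallj : ∀ᶠ n : ℕ in atTop, ∀ j ∈ range N, ∀ E : Finset (Fin n), E.card ≤ 2 →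
          fr (univ : Finset (Cfg n d))
            (cv2Ev z (ell n) ε (δs j) (2 * δs (j + 1)) (ρ' ⌊1 / ρs j⌋₊) ⌊1 / ρs j⌋₊ E)
            ≤ Real.exp (-(cj j * n)) := by
    rw [Filter.eventually_all_finset]
    intro j _
    exact hcj j
  have hexpo : ∀ c : ℝ, 0 < c → Tendsto (fun n : ℕ => Real.exp (c * n)) atTop atTop := by
    intro c hc
    exact Real.tendsto_exp_atTop.comp
      ((tendsto_natCast_atTop_atTop (R := ℝ)).const_mul_atTop hc)
  have hexpl : ∀ c : ℝ, 0 < c → Tendsto (fun n : ℕ => Real.exp (c * ell n)) atTop atTop := by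
    intro c hc
    exact Real.tendsto_exp_atTop.comp (hell.tendsto.const_mul_atTop hc)
  have hbig1 : ∀ᶠ n : ℕ in atTop, (N : ℝ) + 1 ≤ Real.exp (cm / 2 * n) :=
    (hexpo (cm / 2) (by linarith)).eventually_ge_atTop _
  have hzpos : 0 < ‖z‖ := norm_pos_iff.2 hz0
  have hbig2 : ∀ᶠ n : ℕ in atTop, ∀ j ∈ range (N + 1),
      max 2 (2 * (d + 1) / ‖z‖) ≤ Real.exp (δs j * ell n) := by
    rw [Filter.eventually_all_finset]
    intro j _
    exact (hexpl (δs j) (hδspos j)).eventually_ge_atTop _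
  have hbig3 : ∀ᶠ n : ℕ in atTop, (2 : ℝ) ≤ Real.exp (δ / 2 * ell n) :=
    (hexpl (δ / 2) (by linarith)).eventually_ge_atTop _
  have hbig4 : ∀ᶠ n : ℕ in atTop, 2 * (d : ℝ) ≤ c1 / 2 * n := by
    have h1 : Tendsto (fun n : ℕ => c1 / 2 * (n : ℝ)) atTop atTop :=
      (tendsto_natCast_atTop_atTop (R := ℝ)).const_mul_atTop (by linarith)
    exact h1.eventually_ge_atTop _
  filter_upwards [hallj, hE', hbig1, hbig2, hbig3, hbig4, hell.pos, eventually_gt_atTop 0]
    with n h1 h2 h3 h4 h5 h6' hlp hn E hE2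
  have hn' : (0 : ℝ) < n := by exact_mod_cast hn
  calc fr (univ : Finset (Cfg n d)) (fun σ => ∃ x : Fin n → ℂ,
          Sol z (mult σ) E (Real.exp (-(δ * ell n))) x ∧
          (∃ a : ℂ, θ * n ≤ (bc x univ a (Real.exp (-(δ * ell n))) : ℝ)) ∧
          ∀ j < N, ¬ Cov x (ρs j) (Real.exp (-(δs j * ell n))) β)
      ≤ fr (univ : Finset (Cfg n d)) (fun σ => cv2Ex β₀ c1 σ ∨ ∃ j ∈ range N,
          cv2Ev z (ell n) ε (δs j) (2 * δs (j + 1)) (ρ' ⌊1 / ρs j⌋₊) ⌊1 / ρs j⌋₊ E σ) := by
        apply fr_mono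
        rintro σ _ ⟨x, hx, ⟨a, ha⟩, hcov⟩
        by_contra hcon
        push Not at hcon
        obtain ⟨hcon1, hcon2⟩ := hcon
        have A1 : ∀ j, Real.exp (-(δs j * ell n)) ≤ Real.exp (-(δs (j + 1) * ell n)) := by
          intro j
          exact cv2_exp (by linarith [hδsm j, hδspos j]) hlp.le
        have A2 : ∀ j, ρs (j + 1) ≤ θ / 4 := by
          intro j
          rw [hρss]; exact (min_le_right _ _).trans (min_le_left _ _)
        have A3 : ∀ j, 2 * Real.exp (-(δ * ell n)) ≤ Real.exp (-(δs j * ell n)) := by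
          intro j
          have e1 : Real.exp (-(δ * ell n)) * Real.exp (δ / 2 * ell n) =
              Real.exp (-(δ / 2 * ell n)) := by
            rw [← Real.exp_add]; congr 1; ring
          have e2 : 2 * Real.exp (-(δ * ell n)) ≤ Real.exp (-(δ / 2 * ell n)) := by
            rw [← e1]
            have := Real.exp_pos (-(δ * ell n))
            nlinarith
          exact e2.trans (cv2_exp (hδsle j) hlp.le)
        have A4 : ∀ V : Finset (Fin n), β₀ * n ≤ (V.card : ℝ) → (V.card : ℝ) ≤ (1 - β₀) * n →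
            c1 * n <
            ((univ.filter (fun st : Fin n × Fin d => st.1 ∈ V ∧ (σ st).1 ∉ V)).card : ℝ) := by
          intro V hV1 hV2
          by_contra hV3
          exact hcon1 ⟨V, hV1, hV2, not_lt.1 hV3⟩
        have A5 : ∀ j, 2 * (fun j => if j < N then Real.exp (-(2 * δs (j + 1) * ell n)) else 0) j
            ≤ Real.exp (-(δs (j + 1) * ell n)) := by
          intro j
          simp only
          split_ifs with hjN
          · have e1 : Real.exp (-(2 * δs (j + 1) * ell n)) * Real.exp (δs (j + 1) * ell n)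
                = Real.exp (-(δs (j + 1) * ell n)) := by
              rw [← Real.exp_add]; congr 1; ring
            rw [← e1]
            have h6 := (le_max_left _ _).trans (h4 (j + 1) (mem_range.2 (by omega)))
            have := Real.exp_pos (-(2 * δs (j + 1) * ell n))
            nlinarith
          · rw [mul_zero]; exact (Real.exp_pos _).le
        have A6 : ∀ j < N, ∀ typ : Fin n → Fin ⌊1 / ρs j⌋₊ ⊕ Bool,
            (∀ k l : Fin n, ∀ c : Fin ⌊1 / ρs j⌋₊, typ k = Sum.inl c → typ l = Sum.inl c →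
                ‖x k - x l‖ ≤ Real.exp (-(δs j * ell n))) →
            (∀ b : ℂ, (bc x (univ.filter (fun k => typ k = Sum.inr false)) b
              ((fun j => if j < N then Real.exp (-(2 * δs (j + 1) * ell n)) else 0) j) : ℝ)
              < ρs (j + 1) * n) →
            ((univ.filter (fun i => Touch σ
              (univ.filter (fun k => typ k = Sum.inr false)) i)).card : ℝ) ≤
            ((univ.filter (fun k => typ k = Sum.inr false ∨ typ k = Sum.inr true)).card : ℝ)
              + ε * n := by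
          intro j hj typ ht1 ht2
          by_contra hcon3
          have hcon3 := not_le.1 hcon3
          apply hcon2 j (mem_range.2 hj)
          refine ⟨x, ⟨hx.1, ?_⟩, typ, ht1, ?_, hcon3⟩
          · intro i hi
            exact (hx.2 i hi).trans (cv2_exp ((hδsle j).trans (by linarith)) hlp.le)
          · intro b
            have h6 := ht2 b
            simp only [if_pos hj] at h6
            have h7 : ρs (j + 1) ≤ ρ' ⌊1 / ρs j⌋₊ := by rw [hρss]; exact min_le_left _ _
            have h8 : ρs (j + 1) * n ≤ ρ' ⌊1 / ρs j⌋₊ * n := mul_le_mul_of_nonneg_right h7 hn'.le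
            linarith
        have A7 : ∀ j < N, d * Real.exp (-(δs j * ell n)) + Real.exp (-(δ * ell n)) ≤
            ‖z‖ * (Real.exp (-(δs (j + 1) * ell n)) / 2) := by
          intro j hj
          have e0 : Real.exp (-(δ * ell n)) ≤ Real.exp (-(δs j * ell n)) :=
            cv2_exp (by linarith [hδsle j]) hlp.le
          have e1 : Real.exp (-(δs j * ell n)) ≤ Real.exp (-(2 * δs (j + 1) * ell n)) :=
            cv2_exp (by linarith [hδsm j]) hlp.le
          have e2 : Real.exp (-(2 * δs (j + 1) * ell n)) * Real.exp (δs (j + 1) * ell n)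
                = Real.exp (-(δs (j + 1) * ell n)) := by
            rw [← Real.exp_add]; congr 1; ring
          have e3 := (le_max_right _ _).trans (h4 (j + 1) (mem_range.2 (by omega)))
          have e4 := Real.exp_pos (-(2 * δs (j + 1) * ell n))
          rw [div_le_iff₀ hzpos] at e3
          have e5 : (2 * (d + 1)) * Real.exp (-(2 * δs (j + 1) * ell n)) ≤
              ‖z‖ * Real.exp (-(δs (j + 1) * ell n)) := by
            rw [← e2]
            have := mul_le_mul_of_nonneg_right e3 e4.le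
            calc (2 * (d + 1)) * Real.exp (-(2 * δs (j + 1) * ell n)) ≤
                (Real.exp (δs (j + 1) * ell n) * ‖z‖) * Real.exp (-(2 * δs (j + 1) * ell n)) := this
              _ = _ := by ring
          have e6 : (d : ℝ) * Real.exp (-(δs j * ell n)) ≤
              d * Real.exp (-(2 * δs (j + 1) * ell n)) := mul_le_mul_of_nonneg_left e1 hd0.le
          linarith
        obtain ⟨j, hj, hjc⟩ := cv2_main hn σ x z hz0 E hE2 (Real.exp (-(δ * ell n))) hx.2 N hN0 ρs
          (fun j => Real.exp (-(δs j * ell n)))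
          (fun j => (hρspos j).1) hρsm A1 β θ β₀ ε c1 (by linarith) hβ₀2 A2 hρss2
          (by
            have e1 : ((d : ℝ) * (1 / N + ε) + d * (d * (1 / N) + ε)) ≤ c1 / 2 := by
              calc ((d : ℝ) * (1 / N + ε) + d * (d * (1 / N) + ε)) =
                  ((d : ℝ) + d ^ 2) * (1 / N) + 2 * d * ε := by ring
                _ ≤ c1 / 4 + c1 / 4 := add_le_add hNc hε3
                _ = c1 / 2 := by ring
            have e2 := mul_le_mul_of_nonneg_right e1 hn'.le
            linarith)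
          a (Real.exp (-(δ * ell n))) A3 ha A7 A4
          (fun j => if j < N then Real.exp (-(2 * δs (j + 1) * ell n)) else 0) A5 A6
        exact hcov j hj hjc
    _ ≤ fr (univ : Finset (Cfg n d)) (cv2Ex β₀ c1) + fr (univ : Finset (Cfg n d))
          (fun σ => ∃ j ∈ range N,
          cv2Ev z (ell n) ε (δs j) (2 * δs (j + 1)) (ρ' ⌊1 / ρs j⌋₊) ⌊1 / ρs j⌋₊ E σ) :=
        fr_or_le _ _ _
    _ ≤ Real.exp (-(cm * n)) + ((range N).card : ℝ) * Real.exp (-(cm * n)) := by
        apply add_le_add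
        · exact h2.trans (cv2_exp hcmE hn'.le)
        · apply fr_exists_le_card
          intro j hj
          exact (h1 j hj E hE2).trans (cv2_exp (hcmj j (mem_range.1 hj)) hn'.le)
    _ = ((N : ℝ) + 1) * Real.exp (-(cm * n)) := by rw [card_range]; ring
    _ ≤ Real.exp (cm / 2 * n) * Real.exp (-(cm * n)) :=
        mul_le_mul_of_nonneg_right h3 (Real.exp_pos _).le
    _ = Real.exp (-(cm / 2 * n)) := by rw [← Real.exp_add]; congr 1; ring

end Pool.Agent.SMin2
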