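import Pool.Agent.SMin2.Viol2
import Pool.Agent.SMin.Pair

set_option autoImplicit false
open Finset Filter

namespace Pool.Agent.SMin2
open Pool.Agent.SMin

theorem P_main (ell : ℕ → ℝ) (hell : Rate ell) (d : ℕ) (hd2 : 2 ≤ d) (z : ℂ) (κ : ℝ)
    (hκ : 0 < κ) :
    ∃ ρ : ℝ, 0 < ρ ∧ ∃ τ : ℝ, 0 < τ ∧ τ ≤ 1 / 4 ∧
      ∀ δm δp : ℝ, 0 < δm → 0 < δp → δp ≤ τ * δm → ∃ c : ℝ, 0 < c ∧
        ∀ᶠ n : ℕ in atTop, ∀ E : Finset (Fin n), E.card ≤ 2 →
          fr (univ : Finset (Cfg n d)) (fun σ => ∃ w y : Fin n → ℂ, ∃ a : ℂ,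
            Sol z (mult σ) E (Real.exp (-(δm * ell n))) w ∧
            Sol z (tr (mult σ)) E (Real.exp (-(δm * ell n))) y ∧
            (∀ b : ℂ, (bc w univ b (Real.exp (-(δp * ell n))) : ℝ) < ρ * n) ∧
            (∀ b : ℂ, (bc y univ b (Real.exp (-(δp * ell n))) : ℝ) < ρ * n) ∧
            κ * n ≤ (bc (fun i => w i + y i) univ a (Real.exp (-(δm * ell n))) : ℝ))
            ≤ Real.exp (-(c * n)) := by
  classical
  set κ' : ℝ := min κ 1 with hκ'
  have hκ'0 : 0 < κ' := lt_min hκ one_pos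
  have hκ'1 : κ' ≤ 1 := min_le_right _ _
  have hκκ' : κ' ≤ κ := min_le_left _ _
  have hd0 : (0 : ℝ) < d := by exact_mod_cast (by omega : 0 < d)
  set q2 : ℝ := Real.exp (-((2 / κ') * (d + 2))) with hq2
  set q1 : ℝ := Real.exp (-((8 / κ') * (d + 1))) with hq1
  have hq2pos : 0 < q2 := Real.exp_pos _
  have hq1pos : 0 < q1 := Real.exp_pos _
  set ρ : ℝ := κ' * q2 / (32 * d) with hρ
  have hρ0 : 0 < ρ := by positivity
  refine ⟨ρ, hρ0, κ' / 64, by positivity, by linarith, ?_⟩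
  intro δm δp hδm hδp hδ
  refine ⟨1 / 2, by norm_num, ?_⟩
  set C : ℝ := 1 + d + ‖z‖ with hC
  have hC1 : 1 ≤ C := by rw [hC]; linarith [norm_nonneg z]
  have hC0 : 0 < C := by linarith
  have hviol := viol_bound ell hell (d + 3) ((2 * (d + ‖z‖)) ^ 2) 11 C δm δp (κ' / 64) (by positivity)
    (by norm_num) hC0 hδm hδp (by positivity) (by linarith) hδ
  filter_upwards [hviol, hell.pos, eventually_ge_atTop (⌈44 / κ'⌉₊), eventually_ge_atTop 2,
    eventually_ge_atTop (⌈32 / (κ' * q1)⌉₊)] with n hn1 hell0 hn2 hn3 hn4 E hE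
  have hn0 : (0 : ℝ) < n := by exact_mod_cast (by omega : 0 < n)
  have hn2' : (2 : ℝ) ≤ n := by exact_mod_cast hn3
  have hκn : 44 ≤ κ' * n := by
    have h1 : 44 / κ' ≤ n := (Nat.le_ceil _).trans (by exact_mod_cast hn2)
    rw [div_le_iff₀ hκ'0] at h1; linarith
  have hκq : 32 / (κ' * n) ≤ q1 := by
    have h1 : 32 / (κ' * q1) ≤ n := (Nat.le_ceil _).trans (by exact_mod_cast hn4)
    rw [div_le_iff₀ (by positivity)] at h1 ⊢
    linarith
  obtain ⟨P⟩ := exists_PStrat n d hd2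
  -- the time horizon
  set G : ℕ := ⌈κ' * n / 16⌉₊ with hG
  have hG1 : κ' * n / 16 ≤ G := Nat.le_ceil _
  have hG2 : (G : ℝ) ≤ κ' * n / 16 + 1 := (Nat.ceil_lt_add_one (by positivity)).le
  have hGn : G ≤ n * d := by
    have : (G : ℝ) ≤ n * d := by
      have h1 : κ' * n ≤ n := by nlinarith
      have h2 : (2 : ℝ) ≤ d := by exact_mod_cast hd2
      nlinarith
    exact_mod_cast this
  set T : ℕ := n * d - G with hTdef
  have hT : T ≤ n * d := Nat.sub_le _ _
  have hTr : (T : ℝ) = n * d - G := by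
    rw [hTdef, Nat.cast_sub hGn]; push_cast; ring
  set g : ℝ := κ' * n / 16 with hg
  have hg0 : 0 < g := by positivity
  have hgT : ∀ t < T, g ≤ (n : ℝ) * d - t := by
    intro t ht
    have : (t : ℝ) ≤ T := by exact_mod_cast ht.le
    linarith
  set η₀ : ℝ := Real.exp (-(δm * ell n)) with hη₀
  set R : ℝ := Real.exp (-(δp * ell n)) with hR
  have hη₀0 : 0 < η₀ := Real.exp_pos _
  have hη₀1 : η₀ ≤ 1 := by
    rw [hη₀, Real.exp_le_one_iff]
    have : 0 ≤ δm * ell n := by positivity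
    linarith
  have hR0 : 0 < R := Real.exp_pos _
  set Kh : ℕ := ⌈κ' * n / 8⌉₊ with hKh
  set K : ℕ := ⌈κ' * n / 2⌉₊ with hK
  have hK1 : κ' * n / 2 ≤ K := Nat.le_ceil _
  have hK2 : (K : ℝ) ≤ κ' * n / 2 + 1 := (Nat.ceil_lt_add_one (by positivity)).le
  have hKh1 : κ' * n / 8 ≤ Kh := Nat.le_ceil _
  -- the two families of bad events
  set Bh : Cfg n d → Prop := fun σ => ∃ Q : Finset ℕ, (∀ t ∈ Q, t < T ∧ P.hit t σ) ∧ Kh ≤ Q.card
    with hBh
  set BS : Finset (Fin n) → Cfg n d → Prop := fun S σ => ∃ w y : Fin n → ℂ, ∃ a : ℂ,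
      Sol z (mult σ) E η₀ w ∧ Sol z (tr (mult σ)) E η₀ y ∧
      (∀ b, (bc w univ b R : ℝ) ≤ ρ * n) ∧ (∀ b, (bc y univ b R : ℝ) ≤ ρ * n) ∧
      (∀ i ∈ S, ‖w i + y i - a‖ ≤ η₀) ∧
      ‖a‖ ≤ 3 ∧ ∃ Q : Finset ℕ, (∀ t ∈ Q, t < T ∧ pE E (P.pv t σ)) ∧
        ⌊(1 + 2 * (κ' / 64)) * (Fintype.card (PIx S) : ℝ)⌋₊ + K ≤ Q.card with hBS
  set 𝒮 : Finset (Finset (Fin n)) := univ.filter (fun S => κ' * n ≤ (S.card : ℝ)) with h𝒮
  have hmain : fr (univ : Finset (Cfg n d)) (fun σ => ∃ w y : Fin n → ℂ, ∃ a : ℂ,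
      Sol z (mult σ) E η₀ w ∧ Sol z (tr (mult σ)) E η₀ y ∧
      (∀ b : ℂ, (bc w univ b R : ℝ) < ρ * n) ∧ (∀ b : ℂ, (bc y univ b R : ℝ) < ρ * n) ∧
      κ * n ≤ (bc (fun i => w i + y i) univ a η₀ : ℝ)) ≤
      fr (univ : Finset (Cfg n d)) (fun σ => Bh σ ∨ ∃ S ∈ 𝒮, BS S σ) := by
    apply fr_mono
    rintro σ _ ⟨w, y, a, hw, hy, hw2, hy2, hS⟩
    by_cases hb : Bh σ
    · left; exact hb
    right
    set S : Finset (Fin n) := univ.filter (fun i => ‖w i + y i - a‖ ≤ η₀) with hSdef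
    have hScard : κ' * n ≤ (S.card : ℝ) := by
      have h1 : bc (fun i => w i + y i) univ a η₀ = S.card := by
        unfold bc; rw [hSdef]
      rw [h1] at hS
      have h2 : κ' * n ≤ κ * n := by gcongr
      exact h2.trans hS
    have hSne : S.Nonempty := by
      rw [← card_pos]
      have : (0 : ℝ) < S.card := by linarith
      exact_mod_cast this
    obtain ⟨i₀, hi₀⟩ := hSne
    have ha : ‖a‖ ≤ 3 := by
      have h1 : ‖w i₀ + y i₀ - a‖ ≤ η₀ := (mem_filter.1 hi₀).2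
      have h2 : a = w i₀ + y i₀ - (w i₀ + y i₀ - a) := by ring
      have h3 : ‖a‖ ≤ ‖w i₀‖ + ‖y i₀‖ + ‖w i₀ + y i₀ - a‖ := by
        calc ‖a‖ = ‖w i₀ + y i₀ - (w i₀ + y i₀ - a)‖ := by rw [← h2]
          _ ≤ ‖w i₀ + y i₀‖ + ‖w i₀ + y i₀ - a‖ := norm_sub_le _ _
          _ ≤ _ := by gcongr; exact norm_add_le _ _
      linarith [p_coord w hw.1 i₀, p_coord y hy.1 i₀]
    refine ⟨S, mem_filter.2 ⟨mem_univ _, hScard⟩, w, y, a, hw, hy, fun b => (hw2 b).le,
      fun b => (hy2 b).le, fun i hi => (mem_filter.1 hi).2, ha, ?_⟩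
    set Qe : Finset ℕ := (range T).filter (fun t => pE E (P.pv t σ)) with hQe
    set Qh : Finset ℕ := (range T).filter (fun t => P.hit t σ) with hQh
    refine ⟨Qe, fun t ht => by rw [hQe, mem_filter, mem_range] at ht; exact ht, ?_⟩
    have hc := p_count P E T hT σ Qe Qh (by intro t; simp [hQe]) (by intro t; simp [hQh])
    have hQh2 : (Qh.card : ℝ) < κ' * n / 8 := by
      rw [← Nat.lt_ceil]
      by_contra hcon
      apply hb
      exact ⟨Qh, fun t ht => by rw [hQh, mem_filter, mem_range] at ht; exact ht, not_lt.1 hcon⟩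
    have hc2 : (2 : ℝ) * n ≤ Qe.card + 2 * E.card + Qh.card + 2 * G := by
      have h1 : n * d - T = G := by omega
      rw [h1] at hc
      exact_mod_cast hc
    have hE2 : (E.card : ℝ) ≤ 2 := by exact_mod_cast hE
    have hSn : S.card ≤ n := by simpa using card_le_univ S
    have hD : (Fintype.card (PIx S) : ℝ) = 2 * n - S.card + 1 := by
      rw [p_cardPIx]; push_cast [Nat.cast_sub hSn]; ring
    have hfl : ((⌊(1 + 2 * (κ' / 64)) * (Fintype.card (PIx S) : ℝ)⌋₊ : ℕ) : ℝ) ≤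
        (1 + 2 * (κ' / 64)) * (2 * n - κ' * n + 1) := by
      refine (Nat.floor_le (by positivity)).trans ?_
      rw [hD]
      gcongr
    have hfin : ((⌊(1 + 2 * (κ' / 64)) * (Fintype.card (PIx S) : ℝ)⌋₊ + K : ℕ) : ℝ) ≤ Qe.card := by
      push_cast
      have h1 : (1 + 2 * (κ' / 64)) * (2 * n - κ' * n + 1) ≤ 2 * n - 15 / 16 * (κ' * n) + 33 / 32 := by
        have : 0 ≤ κ' * (κ' * n) := by positivity
        nlinarith
      linarith
    exact_mod_cast hfin
  have h1 : fr (univ : Finset (Cfg n d)) Bh ≤ Real.exp (-(n : ℝ)) := by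
    refine (p_hits P T hT g hg0 hgT Kh).trans ?_
    have e1 : 2 / g = 32 / (κ' * n) := by rw [hg]; field_simp; norm_num
    have e2 : (2 : ℝ) ^ T ≤ Real.exp (n * d) := by
      have h3 : (2 : ℝ) ≤ Real.exp 1 := by
        have := Real.add_one_le_exp (1 : ℝ); linarith
      calc (2 : ℝ) ^ T ≤ (Real.exp 1) ^ T := by gcongr
        _ ≤ (Real.exp 1) ^ (n * d) := by
            gcongr
            · linarith
        _ = Real.exp (n * d) := by rw [← Real.exp_nat_mul]; push_cast; ring_nf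
    have e3 : (2 / g) ^ Kh ≤ Real.exp (-((d + 1) * n)) := by
      rw [e1]
      calc (32 / (κ' * n)) ^ Kh ≤ q1 ^ Kh := by gcongr
        _ = Real.exp (-(Kh * ((8 / κ') * (d + 1)))) := by
            rw [hq1, ← Real.exp_nat_mul]; ring_nf
        _ ≤ Real.exp (-((d + 1) * n)) := by
            apply Real.exp_le_exp.2
            have h4 : (d + 1) * n ≤ Kh * ((8 / κ') * ((d : ℝ) + 1)) := by
              calc ((d : ℝ) + 1) * n = (κ' * n / 8) * ((8 / κ') * ((d : ℝ) + 1)) := by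
                    field_simp
                _ ≤ _ := by gcongr
            linarith
    calc (2 : ℝ) ^ T * (2 / g) ^ Kh ≤ Real.exp (n * d) * Real.exp (-((d + 1) * n)) := by
          gcongr
      _ = Real.exp (-(n : ℝ)) := by rw [← Real.exp_add]; ring_nf
  have h2 : fr (univ : Finset (Cfg n d)) (fun σ => ∃ S ∈ 𝒮, BS S σ) ≤ Real.exp (-(n : ℝ)) := by
    have hS : ∀ S ∈ 𝒮, fr (univ : Finset (Cfg n d)) (BS S) ≤ Real.exp (-(2 * n : ℝ)) := by
      intro S hS
      have hSn : S.card ≤ n := by simpa using card_le_univ S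
      have hDle : Fintype.card (PIx S) ≤ (d + 3) * n := by
        rw [p_cardPIx]
        calc n + (n - S.card + 1) ≤ 3 * n := by omega
          _ ≤ (d + 3) * n := Nat.mul_le_mul_right _ (by omega)
      have hTle : T ≤ (d + 3) * n := by
        refine hT.trans ?_
        nlinarith
      have hV := hn1 (Fintype.card (PIx S)) T hDle hTle
      have hrR : Real.exp (-(δp * ell n)) / C ≤ R := div_le_self hR0.le hC1
      have h3 := p_fixed P z S E T hT g hg0 hgT η₀ (C * η₀) (Real.exp (-(δp * ell n)) / C) R (ρ * n)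
        (by positivity) hη₀0.le le_rfl (by positivity) hrR (by positivity)
        ⌊(1 + 2 * (κ' / 64)) * (Fintype.card (PIx S) : ℝ)⌋₊ K hV
      refine h3.trans ?_
      have e1 : d * (2 * (ρ * n)) / g = q2 := by
        rw [hg, hρ]; field_simp; norm_num
      have e2 : (2 : ℝ) ^ T ≤ Real.exp (n * d) := by
        have h3 : (2 : ℝ) ≤ Real.exp 1 := by
          have := Real.add_one_le_exp (1 : ℝ); linarith
        calc (2 : ℝ) ^ T ≤ (Real.exp 1) ^ T := by gcongr
          _ ≤ (Real.exp 1) ^ (n * d) := by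
              gcongr
              · linarith
          _ = Real.exp (n * d) := by rw [← Real.exp_nat_mul]; push_cast; ring_nf
      have e3 : (d * (2 * (ρ * n)) / g) ^ K ≤ Real.exp (-((d + 2) * n)) := by
        rw [e1]
        calc q2 ^ K = Real.exp (-(K * ((2 / κ') * (d + 2)))) := by
              rw [hq2, ← Real.exp_nat_mul]; ring_nf
          _ ≤ Real.exp (-((d + 2) * n)) := by
              apply Real.exp_le_exp.2
              have h4 : (d + 2) * n ≤ K * ((2 / κ') * ((d : ℝ) + 2)) := by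
                calc ((d : ℝ) + 2) * n = (κ' * n / 2) * ((2 / κ') * ((d : ℝ) + 2)) := by
                      field_simp
                  _ ≤ _ := by gcongr
              linarith
      calc (2 : ℝ) ^ T * (d * (2 * (ρ * n)) / g) ^ K ≤
          Real.exp (n * d) * Real.exp (-((d + 2) * n)) := by
            gcongr
        _ = Real.exp (-(2 * n : ℝ)) := by rw [← Real.exp_add]; ring_nf
    refine (fr_exists_le_card _ 𝒮 BS _ hS).trans ?_
    have e4 : (𝒮.card : ℝ) ≤ Real.exp n := by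
      have h5 : 𝒮.card ≤ 2 ^ n := by
        refine (card_le_univ 𝒮).trans ?_
        rw [Fintype.card_finset, Fintype.card_fin]
      have h3 : (2 : ℝ) ≤ Real.exp 1 := by
        have := Real.add_one_le_exp (1 : ℝ); linarith
      calc (𝒮.card : ℝ) ≤ 2 ^ n := by exact_mod_cast h5
        _ ≤ (Real.exp 1) ^ n := by gcongr
        _ = Real.exp n := by rw [← Real.exp_nat_mul, mul_one]
    calc (𝒮.card : ℝ) * Real.exp (-(2 * n : ℝ)) ≤ Real.exp n * Real.exp (-(2 * n : ℝ)) := by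
          gcongr
      _ = Real.exp (-(n : ℝ)) := by rw [← Real.exp_add]; ring_nf
  refine hmain.trans ((fr_or_le _ _ _).trans ?_)
  have h5 : 2 * Real.exp (-(n : ℝ)) ≤ Real.exp (-(1 / 2 * (n : ℝ))) := by
    have h6 : (2 : ℝ) ≤ Real.exp (1 / 2 * n) := by
      have := Real.add_one_le_exp (1 : ℝ)
      have h7 : Real.exp 1 ≤ Real.exp (1 / 2 * n) := Real.exp_le_exp.2 (by linarith)
      linarith
    calc 2 * Real.exp (-(n : ℝ)) ≤ Real.exp (1 / 2 * n) * Real.exp (-(n : ℝ)) := by gcongr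
      _ = Real.exp (-(1 / 2 * (n : ℝ))) := by rw [← Real.exp_add]; ring_nf
  linarith

end Pool.Agent.SMin2
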