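import Pool.Agent.SMin2.SMain2
import Pool.Agent.SMin2.Pair2
import Pool.Agent.SMin.Swap
import Pool.Agent.SMin.FCore

set_option autoImplicit false
open Finset Filter

namespace Pool.Agent.SMin2
open Pool.Agent.SMin

/-- two exponential scales with the rate `ell` -/
lemma fc2_scale (ell : ℕ → ℝ) (hell : Rate ell) (C δ1 δ2 : ℝ) (h : δ2 < δ1) : ∀ᶠ n : ℕ in atTop,
    C * Real.exp (-(δ1 * ell n)) ≤ Real.exp (-(δ2 * ell n)) := by
  filter_upwards [hell.exp_le (δ1 - δ2) (by linarith) C 0] with n hn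
  have h2 : Real.exp (-(δ1 * ell n)) = Real.exp (-((δ1 - δ2) * ell n)) * Real.exp (-(δ2 * ell n)) := by
    rw [← Real.exp_add]; congr 1; ring
  rw [h2, ← mul_assoc]
  rw [pow_zero, mul_one] at hn
  calc C * Real.exp (-((δ1 - δ2) * ell n)) * Real.exp (-(δ2 * ell n))
      ≤ 1 * Real.exp (-(δ2 * ell n)) := mul_le_mul_of_nonneg_right hn (Real.exp_pos _).le
    _ = _ := one_mul _

theorem F_core (ell : ℕ → ℝ) (hell : Rate ell) (d : ℕ) (hd2 : 2 ≤ d) (z : ℂ) (hz0 : z ≠ 0)
    (hzd : z ≠ d) (κ c : ℝ) (hκ : 0 < κ) (hc : 0 < c) (ε : ℝ) (hε : 0 < ε) :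
    ∀ᶠ n : ℕ in atTop,
      fr (Reg n d ×ˢ (univ : Finset (Fin n × Fin n))) (fun t => ∃ w y : Fin n → ℂ, ∃ a : ℂ,
        (∀ i, L z (toN t.1) w i = (if i = t.2.1 then 1 else 0) - (if i = t.2.2 then 1 else 0)) ∧
        (∀ i, L z (tr (toN t.1)) y i = (if i = t.2.1 then 1 else 0) - (if i = t.2.2 then 1 else 0)) ∧
        κ * n ≤ (bc (fun i => w i + y i) univ a
          (Real.exp (-(c * ell n)) * Real.sqrt (max (∑ k, ‖w k‖ ^ 2) (∑ k, ‖y k‖ ^ 2))) : ℝ)) ≤ ε := by
  classical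
  obtain ⟨ρ, hρ, τ, hτ, hτ4, hP⟩ := P_main ell hell d hd2 z κ hκ
  set δm : ℝ := c / 2 with hδm
  set δp : ℝ := τ * δm with hδp
  have hδm0 : 0 < δm := by positivity
  have hδp0 : 0 < δp := by positivity
  obtain ⟨c', hc', hPn⟩ := hP δm δp hδm0 hδp0 le_rfl
  set θ : ℝ := min ρ κ with hθ
  have hθ0 : 0 < θ := lt_min hρ hκ
  have hS := S_main ell hell d hd2 z hz0 hzd θ (δp / 8) hθ0 (by positivity) (ε / 8) (by positivity)
  have htr := transfer d (by omega) (c' / 2) (by positivity)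
  have hnum : ∀ᶠ n : ℕ in atTop, 1 * Real.exp (-(c' / 2) * n) < ε / 8 :=
    (ct_exp (-(c' / 2)) 1 (by linarith)).eventually_lt_const (by positivity)
  have hsc : ∀ᶠ n : ℕ in atTop, 2 * Real.exp (-(δp / 4 * ell n)) ≤ Real.exp (-(δp / 8 * ell n)) :=
    fc2_scale ell hell 2 (δp / 4) (δp / 8) (by linarith)
  have hdg : ∀ᶠ n : ℕ in atTop, (1:ℝ) / n < ε / 8 :=
    (tendsto_const_div_atTop_nhds_zero_nat (1:ℝ)).eventually_lt_const (by positivity)
  filter_upwards [hPn, hS, htr, hnum, hsc, hdg, eventually_gt_atTop 0, hell.pos] with n hPn hS htr hnum hsc hdg hn hl0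
  have hn0 : (0:ℝ) < n := by exact_mod_cast hn
  -- names of the events
  set SB : (Fin n → Fin n → Bool) × (Fin n × Fin n) → Prop := fun t => ∃ x : Fin n → ℂ,
        (∑ k, ‖x k‖ ^ 2 = 1) ∧
        (∀ i, i ≠ t.2.1 → i ≠ t.2.2 → ‖L z (toN t.1) x i‖ ≤ Real.exp (-(δp / 8 * ell n))) ∧
        ∃ a : ℂ, θ * n ≤ (bc x univ a (Real.exp (-(δp / 8 * ell n))) : ℝ) with hSB
  set PB : (Fin n × Fin n) → (Fin n → Fin n → ℕ) → Prop := fun p m => ∃ w y : Fin n → ℂ, ∃ a : ℂ,
            Sol z m {p.1, p.2} (Real.exp (-(δm * ell n))) w ∧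
            Sol z (tr m) {p.1, p.2} (Real.exp (-(δm * ell n))) y ∧
            (∀ b : ℂ, (bc w univ b (Real.exp (-(δp * ell n))) : ℝ) < ρ * n) ∧
            (∀ b : ℂ, (bc y univ b (Real.exp (-(δp * ell n))) : ℝ) < ρ * n) ∧
            κ * n ≤ (bc (fun i => w i + y i) univ a (Real.exp (-(δm * ell n))) : ℝ) with hPB
  have hincl : fr (Reg n d ×ˢ (univ : Finset (Fin n × Fin n))) (fun t => ∃ w y : Fin n → ℂ, ∃ a : ℂ,
        (∀ i, L z (toN t.1) w i = (if i = t.2.1 then 1 else 0) - (if i = t.2.2 then 1 else 0)) ∧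
        (∀ i, L z (tr (toN t.1)) y i = (if i = t.2.1 then 1 else 0) - (if i = t.2.2 then 1 else 0)) ∧
        κ * n ≤ (bc (fun i => w i + y i) univ a
          (Real.exp (-(c * ell n)) * Real.sqrt (max (∑ k, ‖w k‖ ^ 2) (∑ k, ‖y k‖ ^ 2))) : ℝ)) ≤
      fr (Reg n d ×ˢ (univ : Finset (Fin n × Fin n))) (fun t => (t.2.1 = t.2.2 ∨ SB t) ∨
        (SB (fc_tr t.1, t.2) ∨ PB t.2 (toN t.1))) := by
    apply fr_mono
    rintro ⟨A, j, j'⟩ - ⟨w, y, a, hw, hy, hs⟩
    by_cases hjj : j = j'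
    · left; left; exact hjj
    by_cases hsb : SB (A, (j, j'))
    · left; right; exact hsb
    by_cases hsb' : SB (fc_tr A, (j, j'))
    · right; left; exact hsb'
    right; right
    simp only at hw hy hs
    -- the vectors do not vanish
    have hpos : ∀ (m : Fin n → Fin n → ℕ) (v : Fin n → ℂ), (∀ i, L z m v i = (if i = j then 1 else 0) - (if i = j' then 1 else 0)) →
        0 < ∑ k, ‖v k‖ ^ 2 := by
      intro m v hv
      have h0 : (0:ℝ) ≤ ∑ k, ‖v k‖ ^ 2 := by positivity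
      rcases h0.lt_or_eq with h | h
      · exact h
      exfalso
      have hz : ∀ k, v k = 0 := by
        intro k
        have := (sum_eq_zero_iff_of_nonneg (fun i _ => by positivity)).1 h.symm k (mem_univ k)
        simpa using this
      have h1 := hv j
      rw [if_pos rfl, if_neg hjj] at h1
      unfold L at h1
      simp [hz] at h1
    have hwp := hpos _ w hw
    have hyp := hpos _ y hy
    -- normalised vectors are solutions
    have hlev : ∀ (B : Fin n → Fin n → Bool) (v : Fin n → ℂ),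
        (∀ i, L z (toN B) v i = (if i = j then 1 else 0) - (if i = j' then 1 else 0)) →
        0 < ∑ k, ‖v k‖ ^ 2 → ¬ SB (B, (j, j')) → ∀ b : ℂ,
        (bc (fun k => v k / (Real.sqrt (∑ k, ‖v k‖ ^ 2) : ℝ)) univ b (Real.exp (-(δp / 8 * ell n))) : ℝ) < θ * n := by
      intro B v hv hvp hns b
      by_contra hlt
      push Not at hlt
      apply hns
      have hs0 : 0 < Real.sqrt (∑ k, ‖v k‖ ^ 2) := Real.sqrt_pos.2 hvp
      refine ⟨fun k => v k / (Real.sqrt (∑ k, ‖v k‖ ^ 2) : ℝ), ?_, ?_, b, hlt⟩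
      · rw [fc_sum_scale v _ hs0, Real.sq_sqrt hvp.le, div_self hvp.ne']
      · intro i h1 h2
        simp only at h1 h2
        rw [fc_L_scale, hv i, if_neg h1, if_neg h2]
        simp only [sub_self, zero_div, norm_zero]
        exact (Real.exp_pos _).le
    have hlw := hlev A w hw hwp hsb
    have hly := hlev (fc_tr A) y hy hyp hsb'
    have hec : Real.exp (-(c * ell n)) ≤ Real.exp (-(δp / 4 * ell n)) := by
      rw [Real.exp_le_exp]
      have : δp / 4 ≤ c := by rw [hδp, hδm]; nlinarith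
      have := mul_le_mul_of_nonneg_right this hl0.le
      linarith
    obtain ⟨W, hW, h1, h2, h3, h4, h5⟩ := fc_det w y a κ ρ θ (Real.exp (-(c * ell n))) (Real.exp (-(δm * ell n)))
      (Real.exp (-(δp * ell n))) (Real.exp (-(δp / 4 * ell n))) (Real.exp (-(δp / 8 * ell n)))
      (min_le_right _ _) (min_le_left _ _) (Real.exp_pos _) (Real.exp_pos _) (by linarith)
      (by
        rw [Real.exp_le_exp, hδm]
        have : c / 2 * ell n ≤ c * ell n := mul_le_mul_of_nonneg_right (by linarith) hl0.le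
        linarith)
      (by
        rw [← Real.exp_add, Real.exp_le_exp]
        have : (0:ℝ) ≤ δp * ell n := by positivity
        linarith) hwp hyp hlw hly hs
    refine ⟨fun k => w k / W, fun k => y k / W, a / W, ⟨h1, ?_⟩, ⟨h2, ?_⟩, h3, h4, h5⟩
    · intro i hi
      simp only [mem_insert, mem_singleton, not_or] at hi
      rw [fc_L_scale, hw i, if_neg hi.1, if_neg hi.2]
      simp only [sub_self, zero_div, norm_zero]
      exact (Real.exp_pos _).le
    · intro i hi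
      simp only [mem_insert, mem_singleton, not_or] at hi
      rw [fc_L_scale, hy i, if_neg hi.1, if_neg hi.2]
      simp only [sub_self, zero_div, norm_zero]
      exact (Real.exp_pos _).le
  refine hincl.trans ((fr_or_le _ _ _).trans ?_)
  have e1 := fr_or_le (Reg n d ×ˢ (univ : Finset (Fin n × Fin n))) (fun t => t.2.1 = t.2.2) SB
  have e2 := fr_or_le (Reg n d ×ˢ (univ : Finset (Fin n × Fin n))) (fun t => SB (fc_tr t.1, t.2))
    (fun t => PB t.2 (toN t.1))
  have e3 := fc_diag (Reg n d) n hn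
  have e4 : fr (Reg n d ×ˢ (univ : Finset (Fin n × Fin n))) SB ≤ ε / 8 := hS
  have e5 : fr (Reg n d ×ˢ (univ : Finset (Fin n × Fin n))) (fun t => SB (fc_tr t.1, t.2)) ≤ ε / 8 := by
    refine le_trans ?_ e4
    apply fr_le_of_injOn _ (fun t => (fc_tr t.1, t.2))
    · rintro ⟨A, p⟩ hA hSB
      refine ⟨?_, hSB⟩
      simp only [mem_product, mem_univ, and_true] at hA ⊢
      exact fc_tr_mem hA
    · rintro ⟨A, p⟩ _ ⟨B, q⟩ _ h
      simp only [Prod.mk.injEq] at h ⊢
      refine ⟨?_, h.2⟩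
      have := congrArg fc_tr h.1
      exact this
  have e6 : fr (Reg n d ×ˢ (univ : Finset (Fin n × Fin n))) (fun t => PB t.2 (toN t.1)) ≤ ε / 8 := by
    apply sm_prod_le _ _ _ _ (by positivity)
    rintro ⟨j, j'⟩ -
    refine (htr.2 (PB (j, j'))).trans ?_
    have h3 := hPn {j, j'} card_le_two
    calc _ ≤ Real.exp (c' / 2 * n) * Real.exp (-(c' * n)) :=
          mul_le_mul_of_nonneg_left h3 (Real.exp_pos _).le
      _ = 1 * Real.exp (-(c' / 2) * n) := by rw [← Real.exp_add, one_mul]; congr 1; ring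
      _ ≤ ε / 8 := hnum.le
  linarith

end Pool.Agent.SMin2
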