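import Pool.Agent.SMin.Gap

set_option autoImplicit false
open Finset Filter

namespace Pool.Agent.SMin2
open Pool.Agent.SMin

/-- the classes which are not large have small total mass -/
lemma g2_mass {s : ℕ} (p : Fin s → ℝ) (hp : ∀ c, 0 ≤ p c) (hs : ∑ c, p c ≤ 1) (c0 : Fin s)
    (hmax : ∀ c, p c ≤ p c0) (a : Fin s → ℂ) (r : ℝ)
    (hsep : ∀ c c', c ≠ c' → 2 * r < ‖a c - a c'‖) (b : ℂ) (𝒰 : Finset (Fin 2 → Fin s))
    (h𝒰 : ∀ t ∈ 𝒰, ‖∑ k, a (t k) - b‖ ≤ r) (h : ℝ) (hh : 0 < h) (h4 : 4 * h ≤ p c0)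
    (hN : p c0 - h ^ 2 ≤ ∑ t ∈ 𝒰, ∏ k, p (t k)) :
    ∑ c ∈ univ.filter (fun c => ¬ (p c0 - h ≤ p c)), p c ≤ h := by
  classical
  obtain ⟨h1, h2, u0, u1⟩ := gap_le p hp hs c0 hmax a r hsep b 𝒰 h𝒰
  set Q := univ.filter (fun c => p c0 - h ≤ p c) with hQ
  set f : Fin s → ℝ := fun c => ∑ t ∈ 𝒰.filter (fun t => t 0 = c), p (t 1) with hf
  have hsum : ∑ c, p c * (p c0 - f c) ≤ h ^ 2 := by
    have e1 : ∑ c, p c * (p c0 - f c) = (∑ c, p c) * p c0 - ∑ c, p c * f c := by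
      rw [sum_mul, ← sum_sub_distrib]
      apply sum_congr rfl
      intro c _; ring
    have e2 : (∑ c, p c) * p c0 ≤ 1 * p c0 := mul_le_mul_of_nonneg_right hs (hp c0)
    rw [e1]
    rw [h2] at hN
    linarith
  have hnn : ∀ c, 0 ≤ p c * (p c0 - f c) := by
    intro c'
    exact mul_nonneg (hp c') (by have := h1 c'; simp only [hf]; linarith)
  have hterm : ∀ c, p c * (p c0 - f c) ≤ h ^ 2 := by
    intro c
    refine le_trans ?_ hsum
    exact single_le_sum (f := fun c => p c * (p c0 - f c)) (fun c' _ => hnn c') (mem_univ c)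
  -- a class with a large partner weight has a partner in `Q`
  have hpart : ∀ c, p c0 - h < f c → ∃ t ∈ 𝒰, t 0 = c ∧ t 1 ∈ Q := by
    intro c hfc
    have h0 : 0 < p c0 - h := by linarith
    have hfpos : 0 < f c := by linarith
    have hne : (𝒰.filter (fun t => t 0 = c)).Nonempty := by
      by_contra hemp
      rw [not_nonempty_iff_eq_empty] at hemp
      have : f c = 0 := by simp only [hf]; rw [hemp, sum_empty]
      linarith
    obtain ⟨t, ht⟩ := hne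
    have ht' := mem_filter.1 ht
    have heq : 𝒰.filter (fun t => t 0 = c) = {t} := by
      apply eq_singleton_iff_unique_mem.2
      refine ⟨ht, ?_⟩
      intro t' ht2
      have ht2' := mem_filter.1 ht2
      exact u0 t' ht2'.1 t ht'.1 (ht2'.2.trans ht'.2.symm)
    have hfe : f c = p (t 1) := by simp only [hf]; rw [heq, sum_singleton]
    refine ⟨t, ht'.1, ht'.2, ?_⟩
    rw [hQ, mem_filter]
    exact ⟨mem_univ _, by linarith⟩
  have hex : ∀ c ∈ Q, ∃ t ∈ 𝒰, t 0 = c ∧ t 1 ∈ Q := by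
    intro c hc
    apply hpart
    have hc' : p c0 - h ≤ p c := (mem_filter.1 hc).2
    have h5 := hterm c
    have h3h : 3 * h ≤ p c := by linarith
    by_contra hcon
    have h6 : h ≤ p c0 - f c := by linarith [not_lt.1 hcon]
    have h7 : 3 * h * h ≤ p c * (p c0 - f c) := by
      apply mul_le_mul h3h h6 hh.le (hp c)
    nlinarith
  choose! T hT1 hT2 hT3 using hex
  have hinj : Set.InjOn (fun c => T c 1) (Q : Set (Fin s)) := by
    intro c hc c' hc' hcc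
    have hc1 := mem_coe.1 hc
    have hc2 := mem_coe.1 hc'
    have := u1 _ (hT1 c hc1) _ (hT1 c' hc2) hcc
    rw [← hT2 c hc1, ← hT2 c' hc2, this]
  have himg : Q.image (fun c => T c 1) = Q := by
    apply eq_of_subset_of_card_le
    · intro c' hc'
      obtain ⟨c, hc, rfl⟩ := mem_image.1 hc'
      exact hT3 c hc
    · rw [card_image_of_injOn hinj]
  have hout : ∀ c ∈ univ.filter (fun c => ¬ (p c0 - h ≤ p c)), p c * h ≤ p c * (p c0 - f c) := by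
    intro c hc
    apply mul_le_mul_of_nonneg_left _ (hp c)
    by_contra hcon
    have h6 : p c0 - h < f c := by linarith [not_le.1 hcon]
    obtain ⟨t, ht, ht0, ht1⟩ := hpart c h6
    rw [← himg] at ht1
    obtain ⟨c', hc', hcc⟩ := mem_image.1 ht1
    have h7 := u1 _ (hT1 c' hc') _ ht hcc
    have h8 : c' = c := by rw [← hT2 c' hc', h7, ht0]
    rw [h8] at hc'
    exact (mem_filter.1 hc).2 (mem_filter.1 hc').2
  have h9 : (∑ c ∈ univ.filter (fun c => ¬ (p c0 - h ≤ p c)), p c) * h ≤ h * h := by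
    rw [sum_mul]
    calc ∑ c ∈ univ.filter (fun c => ¬ (p c0 - h ≤ p c)), p c * h
        ≤ ∑ c ∈ univ.filter (fun c => ¬ (p c0 - h ≤ p c)), p c * (p c0 - f c) :=
          sum_le_sum hout
      _ ≤ ∑ c, p c * (p c0 - f c) :=
          sum_le_sum_of_subset_of_nonneg (filter_subset _ _) (fun c _ _ => hnn c)
      _ ≤ h * h := by rw [← sq]; exact hsum
  exact le_of_mul_le_mul_right h9 hh

/-- `d = 2`: SOME class is produced with probability smaller than its weight -/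
theorem gap_two (θ θ2 : ℝ) (hθ : 0 < θ) (hθ2 : 0 < θ2) (hθ21 : θ2 < 1) :
    ∃ g : ℝ, 0 < g ∧ ∃ β : ℝ, 0 < β ∧ ∀ (s : ℕ) (p : Fin s → ℝ), (∀ c, 0 ≤ p c) →
      (∑ c, p c ≤ 1) → (1 - β ≤ ∑ c, p c) → ∀ c0 : Fin s, (∀ c, p c ≤ p c0) → θ ≤ p c0 →
      p c0 ≤ 1 - θ2 → ∀ (a w : Fin s → ℂ) (r : ℝ), 0 ≤ r →
      (∀ c c', c ≠ c' → 4 * r < ‖a c - a c'‖) → (∀ c c', c ≠ c' → 4 * r < ‖w c - w c'‖) →
      ∀ 𝒯 : Fin s → Finset (Fin 2 → Fin s), (∀ c, ∀ t ∈ 𝒯 c, ‖∑ k, a (t k) - w c‖ ≤ r) →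
        ∃ c, ∑ t ∈ 𝒯 c, ∏ k, p (t k) ≤ p c - g := by
  classical
  set k : ℝ := min (θ / 8) (θ2 / 8) with hk
  have hk0 : 0 < k := by rw [hk]; exact lt_min (by linarith) (by linarith)
  have hk1 : k ≤ θ / 8 := min_le_left _ _
  have hk2 : k ≤ θ2 / 8 := min_le_right _ _
  have hk3 : k ≤ 1 / 8 := by linarith
  set h : ℝ := k ^ 2 / 2 with hh
  have hh0 : 0 < h := by positivity
  have hhk : h ≤ k / 16 := by rw [hh]; nlinarith
  refine ⟨h ^ 2, by positivity, θ2 / 4, by linarith, ?_⟩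
  intro s p hp hs hs' c0 hmax hθc hc0 a w r hr hsep hsepw 𝒯 h𝒯
  by_contra hcon
  push Not at hcon
  have hsep2 : ∀ c c', c ≠ c' → 2 * r < ‖a c - a c'‖ := by
    intro c c' hcc
    have := hsep c c' hcc
    linarith
  have h4 : 4 * h ≤ p c0 := by linarith
  have h4k : 4 * k ≤ p c0 := by linarith
  have hN0 : p c0 - h ^ 2 ≤ ∑ t ∈ 𝒯 c0, ∏ k, p (t k) := (hcon c0).le
  have k1 := SMin.gap_two p hp hs c0 hmax a r hsep2 (w c0) (𝒯 c0) (h𝒯 c0) h hh0 h4 hN0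
  have hm := g2_mass p hp hs c0 hmax a r hsep2 (w c0) (𝒯 c0) (h𝒯 c0) h hh0 h4 hN0
  set Q := univ.filter (fun c => p c0 - h ≤ p c) with hQ
  have hc0Q : c0 ∈ Q := by rw [hQ, mem_filter]; exact ⟨mem_univ _, by linarith⟩
  have hQc : 0 < (Q.card : ℝ) := by exact_mod_cast card_pos.2 ⟨c0, hc0Q⟩
  -- a second large class
  have hex : ∃ c ∈ Q, c ≠ c0 := by
    by_contra hno
    push Not at hno
    have hQ1 : Q = {c0} := by
      apply eq_singleton_iff_unique_mem.2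
      exact ⟨hc0Q, hno⟩
    have e1 : ∑ c ∈ Q, p c + ∑ c ∈ univ.filter (fun c => ¬ (p c0 - h ≤ p c)), p c
        = ∑ c, p c := sum_filter_add_sum_filter_not _ _ _
    rw [hQ1, sum_singleton] at e1
    linarith
  obtain ⟨c, hcQ, hcc⟩ := hex
  have hcp : p c0 - h ≤ p c := (mem_filter.1 hcQ).2
  have hNc : p c0 - k ^ 2 ≤ ∑ t ∈ 𝒯 c, ∏ k, p (t k) := by
    have h5 := hcon c
    have h6 : h + h ^ 2 ≤ k ^ 2 := by
      have : h ^ 2 ≤ h := by nlinarith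
      have : k ^ 2 = 2 * h := by rw [hh]; ring
      linarith
    linarith
  have k2 := SMin.gap_two p hp hs c0 hmax a r hsep2 (w c) (𝒯 c) (h𝒯 c) k hk0 h4k hNc
  have hQQ : univ.filter (fun c => p c0 - k ≤ p c) = Q := by
    ext c'
    rw [hQ, mem_filter, mem_filter]
    refine ⟨fun h5 => ⟨mem_univ _, ?_⟩, fun h5 => ⟨mem_univ _, by linarith [h5.2]⟩⟩
    by_contra h6
    have h7 : p c' ≤ h := by
      refine le_trans ?_ hm
      exact single_le_sum (f := p) (fun c _ => hp c) (mem_filter.2 ⟨mem_univ _, h6⟩)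
    linarith [h5.2]
  rw [hQQ] at k2
  have k3 := norm_sub_le (2 * ∑ c ∈ Q, a c - (Q.card : ℂ) * w c0)
    (2 * ∑ c ∈ Q, a c - (Q.card : ℂ) * w c)
  have k4 : (2 * ∑ c ∈ Q, a c - (Q.card : ℂ) * w c0)
    - (2 * ∑ c ∈ Q, a c - (Q.card : ℂ) * w c) = (Q.card : ℂ) * (w c - w c0) := by ring
  rw [k4, norm_mul, Complex.norm_natCast] at k3
  have k5 := hsepw c c0 hcc
  have k6 : (Q.card : ℝ) * ‖w c - w c0‖ ≤ (Q.card : ℝ) * (2 * r) := by linarith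
  have k7 := le_of_mul_le_mul_left k6 hQc
  linarith

/-- all `d ≥ 2`; from `gap` (class `c0`) and `gap_two` -/
theorem gap_all (d : ℕ) (hd2 : 2 ≤ d) (θ θ2 : ℝ) (hθ : 0 < θ) (hθ2 : 0 < θ2) (hθ21 : θ2 < 1) :
    ∃ g : ℝ, 0 < g ∧ g ≤ 1 ∧ ∃ β : ℝ, 0 < β ∧ ∀ (s : ℕ) (p : Fin s → ℝ), (∀ c, 0 ≤ p c) →
      (∑ c, p c ≤ 1) → (1 - β ≤ ∑ c, p c) → ∀ c0 : Fin s, (∀ c, p c ≤ p c0) → θ ≤ p c0 →
      p c0 ≤ 1 - θ2 → ∀ (a w : Fin s → ℂ) (r : ℝ), 0 ≤ r →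
      (∀ c c', c ≠ c' → 4 * r < ‖a c - a c'‖) → (∀ c c', c ≠ c' → 4 * r < ‖w c - w c'‖) →
      ∀ 𝒯 : Fin s → Finset (Fin d → Fin s), (∀ c, ∀ t ∈ 𝒯 c, ‖∑ k, a (t k) - w c‖ ≤ r) →
        ∃ c, ∑ t ∈ 𝒯 c, ∏ k, p (t k) ≤ p c - g := by
  rcases Nat.lt_or_ge 2 d with h3 | h3
  · obtain ⟨g, hg, β, hβ, hgap⟩ := gap d h3 θ θ2 hθ hθ2 hθ21
    refine ⟨min g 1, lt_min hg one_pos, min_le_right _ _, β, hβ, ?_⟩
    intro s p hp hs hs' c0 hmax hθc hc0 a w r hr hsep _ 𝒯 h𝒯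
    refine ⟨c0, ?_⟩
    have := hgap s p hp hs hs' c0 hmax hθc hc0 a (w c0) r hr hsep (𝒯 c0) (h𝒯 c0)
    have h5 : min g 1 ≤ g := min_le_left _ _
    linarith
  · obtain rfl : d = 2 := le_antisymm h3 hd2
    obtain ⟨g, hg, β, hβ, hgap⟩ := gap_two θ θ2 hθ hθ2 hθ21
    refine ⟨min g 1, lt_min hg one_pos, min_le_right _ _, β, hβ, ?_⟩
    intro s p hp hs hs' c0 hmax hθc hc0 a w r hr hsep hsepw 𝒯 h𝒯
    obtain ⟨c, hc⟩ := hgap s p hp hs hs' c0 hmax hθc hc0 a w r hr hsep hsepw 𝒯 h𝒯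
    refine ⟨c, ?_⟩
    have h5 : min g 1 ≤ g := min_le_left _ _
    linarith

end Pool.Agent.SMin2
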