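import Pool.Agent.SMin2.SpreadTwo
import Pool.Agent.SMin.Spread

set_option autoImplicit false
open Finset Filter

namespace Pool.Agent.SMin2
open Pool.Agent.SMin

theorem T_spread_three (ell : ℕ → ℝ) (hell : Rate ell) (d : ℕ) (hd3 : 3 ≤ d) (z : ℂ) :
    ∃ θ2 : ℝ, 0 < θ2 ∧ ∀ δ : ℝ, 0 < δ → ∀ ε : ℝ, 0 < ε → ∀ᶠ n : ℕ in atTop,
      fr (Reg n d ×ˢ (univ : Finset (Fin n × Fin n))) (fun t => ∃ x : Fin n → ℂ,
        (∑ k, ‖x k‖ ^ 2 = 1) ∧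
        (∀ i, i ≠ t.2.1 → i ≠ t.2.2 → ‖L z (toN t.1) x i‖ ≤ Real.exp (-(δ * ell n))) ∧
        ((univ.filter (fun k => Real.exp (-(δ * ell n)) < ‖x k‖)).card : ℝ) ≤ θ2 * n) ≤ ε := by
  classical
  set u0 : ℕ := 25 * (4 + d) with hu0
  have hu0pos : (0 : ℝ) < u0 := by rw [hu0]; positivity
  have hu0ge : (10 : ℝ) ≤ u0 := by
    rw [hu0]; push_cast
    have : (0 : ℝ) ≤ d := Nat.cast_nonneg _
    linarith
  obtain ⟨θ3, hθ3, hsparse⟩ := sparse_whp d (by omega) (1 / u0) (by positivity)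
    (by rw [div_le_one hu0pos]; linarith)
  refine ⟨2 * θ3 / (4 + d), by positivity, ?_⟩
  intro δ hδ ε hε
  have hK1 : (1 : ℝ) ≤ 4 * (d + ‖z‖) + 4 := by
    have h1 : (0 : ℝ) ≤ d := Nat.cast_nonneg _
    have h2 := norm_nonneg z
    linarith
  filter_upwards [hsparse (ε / 3) (by positivity), cycle_whp d (by omega) u0 (ε / 3) (by positivity),
    sp2_small ell hell _ δ hK1 hδ] with n hn1 hn2 hn3
  have hsub : fr (Reg n d ×ˢ (univ : Finset (Fin n × Fin n))) (fun t => ∃ x : Fin n → ℂ,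
        (∑ k, ‖x k‖ ^ 2 = 1) ∧
        (∀ i, i ≠ t.2.1 → i ≠ t.2.2 → ‖L z (toN t.1) x i‖ ≤ Real.exp (-(δ * ell n))) ∧
        ((univ.filter (fun k => Real.exp (-(δ * ell n)) < ‖x k‖)).card : ℝ)
          ≤ 2 * θ3 / (4 + d) * n)
      ≤ fr (Reg n d ×ˢ (univ : Finset (Fin n × Fin n))) (fun t =>
        (∃ U : Finset (Fin n), U.Nonempty ∧ (U.card : ℝ) ≤ θ3 * n ∧
          (1 + 1 / (u0 : ℝ)) * U.card ≤ (eIn t.1 U : ℝ)) ∨
        ((∃ U : Finset (Fin n), t.2.1 ∈ U ∧ U.card ≤ u0 ∧ U.card ≤ eIn t.1 U) ∨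
         (∃ U : Finset (Fin n), t.2.2 ∈ U ∧ U.card ≤ u0 ∧ U.card ≤ eIn t.1 U))) := by
    apply fr_mono
    rintro ⟨A, j, j'⟩ hmem ⟨x, hx, hL, hB⟩
    rw [mem_product] at hmem
    obtain ⟨U, hU1, hU2, hU3⟩ := sp_vec hd3 z hmem.1 j j' x hx _ hL _ hB _ (sp_pow n) hn3
    have hUθ : (U.card : ℝ) ≤ θ3 * n := by
      have h1 : (4 + d : ℝ) * (2 * θ3 / (4 + d) * n) = 2 * (θ3 * n) := by field_simp
      rw [h1] at hU2
      linarith
    have hU0 : (0 : ℝ) ≤ U.card := Nat.cast_nonneg _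
    rcases hU3 with h1 | ⟨h1, h2 | ⟨h2, h3 | h3⟩⟩
    · left
      refine ⟨U, hU1, hUθ, ?_⟩
      have h2 : (11 * U.card : ℝ) ≤ 10 * eIn A U := by exact_mod_cast h1
      have h3 : 1 / (u0 : ℝ) ≤ 1 / 10 := one_div_le_one_div_of_le (by norm_num) hu0ge
      have h4 : (1 + 1 / (u0 : ℝ)) * U.card ≤ (1 + 1 / 10) * U.card := by gcongr
      refine h4.trans ?_
      show (1 + 1 / 10 : ℝ) * U.card ≤ (eIn A U : ℝ)
      linarith
    · left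
      refine ⟨U, hU1, hUθ, ?_⟩
      have h3 : (U.card : ℝ) + 1 ≤ eIn A U := by exact_mod_cast h2
      have h4 : (U.card : ℝ) / u0 ≤ 1 := by
        rw [div_le_one hu0pos]; exact_mod_cast h1
      have h5 : (1 + 1 / (u0 : ℝ)) * U.card = U.card + U.card / u0 := by ring
      rw [h5]
      show (U.card : ℝ) + U.card / u0 ≤ (eIn A U : ℝ)
      linarith
    · right; left
      exact ⟨U, h3, h1, h2⟩
    · right; right
      exact ⟨U, h3, h1, h2⟩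
  refine hsub.trans ?_
  refine (fr_or_le _ _ _).trans ?_
  have e1 := (sp_fr_fst (Reg n d) (univ : Finset (Fin n × Fin n)) (fun A =>
    ∃ U : Finset (Fin n), U.Nonempty ∧ (U.card : ℝ) ≤ θ3 * n ∧
          (1 + 1 / (u0 : ℝ)) * U.card ≤ (eIn A U : ℝ))).trans hn1
  have e2 := (fr_or_le (Reg n d ×ˢ (univ : Finset (Fin n × Fin n)))
    (fun t => ∃ U : Finset (Fin n), t.2.1 ∈ U ∧ U.card ≤ u0 ∧ U.card ≤ eIn t.1 U)
    (fun t => ∃ U : Finset (Fin n), t.2.2 ∈ U ∧ U.card ≤ u0 ∧ U.card ≤ eIn t.1 U))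
  have e3 := (sp_fr_left (Reg n d) (fun A j =>
    ∃ U : Finset (Fin n), j ∈ U ∧ U.card ≤ u0 ∧ U.card ≤ eIn A U)).trans hn2
  have e4 := (sp_fr_right (Reg n d) (fun A j =>
    ∃ U : Finset (Fin n), j ∈ U ∧ U.card ≤ u0 ∧ U.card ≤ eIn A U)).trans hn2
  linarith

end Pool.Agent.SMin2
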