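import Pool.Agent.SMin2.Base2
import Pool.Agent.SMin.Switch
import Pool.Agent.SMin.Spread

set_option autoImplicit false
open Finset Filter

namespace Pool.Agent.SMin2
open Pool.Agent.SMin

/-- deterministic part of the spreading argument, `d = 2` -/
lemma sp2_det {n : ℕ} {A : Fin n → Fin n → Bool} (hA : A ∈ Reg n 2)
    (E W Wp : Finset (Fin n)) (hE : E.card ≤ 2) (hW : W.Nonempty) (hWW : W ⊆ Wp)
    (hcard : 51 * Wp.card ≤ 52 * W.card)
    (hP : ∀ i, i ∉ E → ∀ k ∈ W, A i k = true →
      i ∈ Wp ∨ 2 ≤ (Wp.filter (fun k => A i k = true)).card)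
    (hF : ∀ i, i ∉ E → i ∈ W → 1 ≤ (Wp.filter (fun k => A i k = true)).card) :
    ∃ U : Finset (Fin n), U.Nonempty ∧ 2 * U.card ≤ 8 * Wp.card ∧
      (11 * U.card ≤ 10 * eIn A U ∨ (U.card ≤ 150 ∧
        (U.card + 1 ≤ eIn A U ∨ (U.card ≤ eIn A U ∧ ∃ e ∈ E, e ∈ U)))) := by
  classical
  set R1 : Finset (Fin n) :=
    univ.filter (fun i => (Wp.filter (fun k => A i k = true)).card = 1) with hR1
  set R2 : Finset (Fin n) :=
    univ.filter (fun i => 2 ≤ (Wp.filter (fun k => A i k = true)).card) with hR2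
  set E' : Finset (Fin n) :=
    E.filter (fun i => (∃ k ∈ W, A i k = true) ∧ i ∉ Wp ∧ i ∉ R2) with hE'
  set U : Finset (Fin n) := Wp ∪ R2 ∪ E' with hU
  have hE'2 : E'.card ≤ 2 := (card_filter_le _ _).trans hE
  have hle2 : ∀ i, (Wp.filter (fun k => A i k = true)).card ≤ 2 := by
    intro i
    rw [← (mem_Reg.1 hA).1 i]
    exact card_le_card (filter_subset_filter _ (subset_univ _))
  have hcount : R1.card + 2 * R2.card = 2 * Wp.card := by
    rw [← sp_rows hA Wp]
    have h1 : ∀ i : Fin n, (Wp.filter (fun k => A i k = true)).card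
        = (if i ∈ R1 then 1 else 0) + 2 * (if i ∈ R2 then 1 else 0) := by
      intro i
      have h2 := hle2 i
      simp only [hR1, hR2, mem_filter, mem_univ, true_and]
      split_ifs <;> omega
    rw [sum_congr rfl (fun i _ => h1 i), sum_add_distrib, ← mul_sum]
    simp
  have hUcard : U.card ≤ Wp.card + (R2 \ Wp).card + E'.card := by
    rw [hU]
    refine (card_union_le _ _).trans (Nat.add_le_add_right ?_ _)
    have : Wp ∪ R2 = Wp ∪ (R2 \ Wp) := by
      rw [union_sdiff_self_eq_union]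
    rw [this]
    exact card_union_le _ _
  have hsplit : (R2 ∩ Wp).card + (R2 \ Wp).card = R2.card := card_inter_add_card_sdiff _ _
  have heIn : 2 * W.card ≤ eIn A U := by
    apply sp_eIn hA
    · intro k hk
      rw [hU, mem_union, mem_union]
      exact Or.inl (Or.inl (hWW hk))
    · intro i k hk hAk
      rw [hU, mem_union, mem_union]
      by_cases hiE : i ∈ E
      · by_cases h1 : i ∈ Wp
        · exact Or.inl (Or.inl h1)
        by_cases h2 : i ∈ R2
        · exact Or.inl (Or.inr h2)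
        exact Or.inr (mem_filter.2 ⟨hiE, ⟨k, hk, hAk⟩, h1, h2⟩)
      · rcases hP i hiE k hk hAk with h | h
        · exact Or.inl (Or.inl h)
        · exact Or.inl (Or.inr (mem_filter.2 ⟨mem_univ _, h⟩))
  have hw1 : 1 ≤ W.card := hW.card_pos
  have hww : W.card ≤ Wp.card := card_le_card hWW
  refine ⟨U, ⟨hW.choose, ?_⟩, ?_, ?_⟩
  · rw [hU, mem_union, mem_union]
    exact Or.inl (Or.inl (hWW hW.choose_spec))
  · omega
  · by_cases h51 : 51 ≤ W.card
    · left
      -- `W \ E ⊆ R1 ∪ (R2 ∩ Wp)`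
      have h1 : W ⊆ E ∪ (R1 ∪ (R2 ∩ Wp)) := by
        intro i hi
        by_cases hiE : i ∈ E
        · exact mem_union_left _ hiE
        · apply mem_union_right
          have h2 := hF i hiE hi
          have h3 := hle2 i
          rcases (show (Wp.filter (fun k => A i k = true)).card = 1 ∨
            2 ≤ (Wp.filter (fun k => A i k = true)).card by omega) with h4 | h4
          · exact mem_union_left _ (mem_filter.2 ⟨mem_univ _, h4⟩)
          · exact mem_union_right _ (mem_inter.2 ⟨mem_filter.2 ⟨mem_univ _, h4⟩, hWW hi⟩)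
      have h2 : W.card ≤ E.card + (R1.card + (R2 ∩ Wp).card) :=
        (card_le_card h1).trans ((card_union_le _ _).trans
          (Nat.add_le_add_left (card_union_le _ _) _))
      omega
    · right
      have hle : Wp.card ≤ W.card := by omega
      have heq : W = Wp := eq_of_subset_of_card_le hWW hle
      refine ⟨by omega, ?_⟩
      -- bad rows of `E` inside `W`
      set Eb : Finset (Fin n) :=
        E.filter (fun i => i ∈ Wp ∧ (Wp.filter (fun k => A i k = true)).card = 0) with hEb
      have hdisj : Disjoint Eb E' := by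
        rw [Finset.disjoint_left]
        intro i hi hi'
        exact (mem_filter.1 hi').2.2.1 (mem_filter.1 hi).2.1
      have hEE : Eb.card + E'.card ≤ 2 := by
        rw [← card_union_of_disjoint hdisj]
        exact (card_le_card (union_subset (filter_subset _ _) (filter_subset _ _))).trans hE
      have hE'eq : E' = R1 \ Wp := by
        ext i
        rw [Finset.mem_sdiff]
        constructor
        · intro hi
          obtain ⟨_, ⟨k, hk, hAk⟩, h2, h3⟩ := mem_filter.1 hi
          refine ⟨?_, h2⟩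
          rw [hR1, mem_filter]
          refine ⟨mem_univ _, ?_⟩
          have h4 : 1 ≤ (Wp.filter (fun k => A i k = true)).card :=
            card_pos.2 ⟨k, mem_filter.2 ⟨hWW hk, hAk⟩⟩
          have h5 : ¬ 2 ≤ (Wp.filter (fun k => A i k = true)).card := by
            intro h; exact h3 (mem_filter.2 ⟨mem_univ _, h⟩)
          omega
        · rintro ⟨h1, h2⟩
          have h3 : (Wp.filter (fun k => A i k = true)).card = 1 := (mem_filter.1 h1).2
          obtain ⟨k, hk⟩ := card_pos.1 (by omega : 0 < (Wp.filter (fun k => A i k = true)).card)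
          have hkW : k ∈ W := by rw [heq]; exact (mem_filter.1 hk).1
          have hAk := (mem_filter.1 hk).2
          have hR2' : i ∉ R2 := by
            intro h
            have := (mem_filter.1 h).2
            omega
          by_cases hiE : i ∈ E
          · exact mem_filter.2 ⟨hiE, ⟨k, hkW, hAk⟩, h2, hR2'⟩
          · rcases hP i hiE k hkW hAk with h | h
            · exact absurd h h2
            · omega
      have hR1split : (R1 ∩ Wp).card + (R1 \ Wp).card = R1.card := card_inter_add_card_sdiff _ _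
      have hWcov : Wp ⊆ Eb ∪ ((R1 ∩ Wp) ∪ (R2 ∩ Wp)) := by
        intro i hi
        have h3 := hle2 i
        rcases (show (Wp.filter (fun k => A i k = true)).card = 0 ∨
          (Wp.filter (fun k => A i k = true)).card = 1 ∨
            2 ≤ (Wp.filter (fun k => A i k = true)).card by omega) with h4 | h4 | h4
        · apply mem_union_left
          by_cases hiE : i ∈ E
          · exact mem_filter.2 ⟨hiE, hi, h4⟩
          · have := hF i hiE (by rw [heq]; exact hi)
            omega
        · exact mem_union_right _ (mem_union_left _ (mem_inter.2 ⟨mem_filter.2 ⟨mem_univ _, h4⟩, hi⟩))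
        · exact mem_union_right _ (mem_union_right _ (mem_inter.2 ⟨mem_filter.2 ⟨mem_univ _, h4⟩, hi⟩))
      have hWcov' : Wp.card ≤ Eb.card + ((R1 ∩ Wp).card + (R2 ∩ Wp).card) :=
        (card_le_card hWcov).trans ((card_union_le _ _).trans
          (Nat.add_le_add_left (card_union_le _ _) _))
      have hE'c : E'.card = (R1 \ Wp).card := by rw [hE'eq]
      rcases Nat.eq_zero_or_pos (Eb.card + E'.card) with h0 | h0
      · left; omega
      · right
        refine ⟨by omega, ?_⟩
        rcases Nat.eq_zero_or_pos E'.card with h5 | h5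
        · obtain ⟨e, he⟩ := card_pos.1 (by omega : 0 < Eb.card)
          refine ⟨e, (mem_filter.1 he).1, ?_⟩
          rw [hU, mem_union, mem_union]
          exact Or.inl (Or.inl (mem_filter.1 he).2.1)
        · obtain ⟨e, he⟩ := card_pos.1 h5
          exact ⟨e, (mem_filter.1 he).1, by rw [hU, mem_union]; exact Or.inr he⟩

/-- the deterministic statement for one matrix and one vector -/
lemma sp2_vec {n : ℕ} (z : ℂ) (hz : z ≠ 0) {A : Fin n → Fin n → Bool} (hA : A ∈ Reg n 2)
    (j j' : Fin n) (x : Fin n → ℂ) (hx : ∑ k, ‖x k‖ ^ 2 = 1) (η : ℝ)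
    (hL : ∀ i, i ≠ j → i ≠ j' → ‖L z (toN A) x i‖ ≤ η) (B : ℝ)
    (hB : ((univ.filter (fun k => η < ‖x k‖)).card : ℝ) ≤ B) (M : ℕ)
    (hM : (n : ℝ) < ((52 : ℝ) / 51) ^ M)
    (hη : 4 * (n * (4 * (2 + ‖z‖) + 4 + 8 / ‖z‖) ^ M) * η < 1) :
    ∃ U : Finset (Fin n), U.Nonempty ∧ (2 * U.card : ℝ) ≤ 8 * B ∧
      (11 * U.card ≤ 10 * eIn A U ∨ (U.card ≤ 150 ∧
        (U.card + 1 ≤ eIn A U ∨ (U.card ≤ eIn A U ∧ (j ∈ U ∨ j' ∈ U))))) := by
  classical
  set K : ℝ := 4 * (2 + ‖z‖) + 4 + 8 / ‖z‖ with hK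
  have hz0 : 0 ≤ ‖z‖ := norm_nonneg _
  have hzp : 0 < ‖z‖ := norm_pos_iff.2 hz
  have hz8 : 0 < 8 / ‖z‖ := by positivity
  have hK1 : 1 ≤ K := by rw [hK]; linarith
  have hK0 : 0 < K := by linarith
  have hn : Nonempty (Fin n) := ⟨j⟩
  obtain ⟨k0, -, hk0⟩ := exists_max_image (univ : Finset (Fin n)) (fun k => ‖x k‖) univ_nonempty
  set h : ℝ := ‖x k0‖ with hh
  have hsum : (1 : ℝ) ≤ n * h ^ 2 := by
    rw [← hx]
    calc ∑ k, ‖x k‖ ^ 2 ≤ ∑ _k : Fin n, h ^ 2 := by
          apply sum_le_sum
          intro k _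
          exact pow_le_pow_left₀ (norm_nonneg _) (hk0 k (mem_univ _)) 2
      _ = _ := by simp
  have hh1 : h ≤ 1 := by
    have h1 : h ^ 2 ≤ 1 := by
      rw [← hx]
      exact single_le_sum (f := fun k => ‖x k‖ ^ 2) (fun k _ => by positivity) (mem_univ k0)
    have h0 : 0 ≤ h := norm_nonneg _
    nlinarith
  have hh0 : 0 < h := by
    rcases (norm_nonneg (x k0)).lt_or_eq with h' | h'
    · exact h'
    · rw [hh, ← h'] at hsum; norm_num at hsum
  have hnh : 1 ≤ n * h := by
    have hn0 : (0 : ℝ) ≤ n := Nat.cast_nonneg _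
    nlinarith [mul_nonneg hn0 hh0.le]
  set W : ℕ → Finset (Fin n) := fun m => univ.filter (fun k => h ≤ K ^ m * ‖x k‖) with hWdef
  have hWm : ∀ m k, k ∈ W m ↔ h ≤ K ^ m * ‖x k‖ := by
    intro m k; simp [hWdef]
  have h0mem : k0 ∈ W 0 := by rw [hWm]; simp [hh]
  have hsucc : ∀ m, W m ⊆ W (m + 1) := by
    intro m k hk
    rw [hWm] at hk ⊢
    refine hk.trans ?_
    rw [pow_succ]
    have : 0 ≤ K ^ m * ‖x k‖ := by positivity
    nlinarith
  have hmono : ∀ m, W 0 ⊆ W m := by
    intro m
    induction m with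
    | zero => exact Subset.refl _
    | succ m ih => exact ih.trans (hsucc m)
  obtain ⟨m, hmM, hm⟩ := sp_scale (fun m => (W m).card) M n (card_pos.2 ⟨k0, h0mem⟩)
    ((card_le_univ _).trans (by simp)) hM
  -- smallness of the error
  have hKM : K ^ (m + 1) ≤ K ^ M := pow_le_pow_right₀ hK1 hmM
  have hKm0 : 0 < K ^ m := by positivity
  have hηs : 4 * K ^ (m + 1) * η < h := by
    rcases le_or_gt η 0 with hneg | hpos
    · have : 4 * K ^ (m + 1) * η ≤ 0 := mul_nonpos_of_nonneg_of_nonpos (by positivity) hneg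
      linarith
    · have h1 : 4 * K ^ (m + 1) * η ≤ 4 * K ^ M * η := by
        apply mul_le_mul_of_nonneg_right _ hpos.le
        linarith
      have hnpos : (0 : ℝ) < n := by
        by_contra hneg
        have : (n : ℝ) = 0 := le_antisymm (not_lt.1 hneg) (Nat.cast_nonneg _)
        rw [this] at hnh; norm_num at hnh
      have h2 : (4 * K ^ M * η) * n < h * n := by
        calc (4 * K ^ M * η) * n = 4 * (n * K ^ M) * η := by ring
          _ < 1 := hη
          _ ≤ h * n := by linarith [mul_comm h (n : ℝ)]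
      exact h1.trans_lt (lt_of_mul_lt_mul_right h2 hnpos.le)
  have hWB : ((W (m + 1)).card : ℝ) ≤ B := by
    refine le_trans ?_ hB
    have : W (m + 1) ⊆ univ.filter (fun k => η < ‖x k‖) := by
      intro k hk
      rw [hWm] at hk
      simp only [mem_filter, mem_univ, true_and]
      have hKp : 0 < K ^ (m + 1) := by positivity
      by_contra hcon
      push Not at hcon
      have h1 : K ^ (m + 1) * ‖x k‖ ≤ K ^ (m + 1) * η := mul_le_mul_of_nonneg_left hcon hKp.le
      have h2 : 0 < K ^ (m + 1) * η := by linarith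
      nlinarith
    exact_mod_cast card_le_card this
  obtain ⟨U, hU1, hU2, hU3⟩ := sp2_det hA {j, j'} (W m) (W (m + 1)) card_le_two
    ⟨k0, hmono m h0mem⟩ (hsucc m) hm (by
      intro i hiE k hk hAk
      simp only [mem_insert, mem_singleton, not_or] at hiE
      by_contra hcon
      push Not at hcon
      obtain ⟨hiW, hcard⟩ := hcon
      have hLi := hL i hiE.1 hiE.2
      have hkmem : k ∈ (W (m + 1)).filter (fun k => A i k = true) :=
        mem_filter.2 ⟨hsucc m hk, hAk⟩
      have hone : ∀ l, A i l = true → l ≠ k → l ∉ W (m + 1) := by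
        intro l hl hlk hlW
        have : ({k, l} : Finset (Fin n)) ⊆ (W (m + 1)).filter (fun k => A i k = true) := by
          intro a ha
          simp only [mem_insert, mem_singleton] at ha
          rcases ha with rfl | rfl
          · exact hkmem
          · exact mem_filter.2 ⟨hlW, hl⟩
        have h2 := card_le_card this
        rw [card_pair (Ne.symm hlk)] at h2
        omega
      set a : ℝ := h / K ^ m with ha
      have ha0 : 0 < a := by positivity
      have hxk : a ≤ ‖x k‖ := by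
        rw [hWm] at hk
        rw [ha, div_le_iff₀ hKm0]
        linarith [mul_comm (K ^ m) ‖x k‖]
      have hout : ∀ l, l ∉ W (m + 1) → ‖x l‖ ≤ a / K := by
        intro l hl
        rw [hWm, not_le] at hl
        rw [ha, div_div, ← pow_succ, le_div_iff₀ (by positivity)]
        linarith [mul_comm (K ^ (m + 1)) ‖x l‖]
      have hsumL : ∑ l, (toN A i l : ℂ) * x l
          = x k + ∑ l ∈ (univ.filter (fun l => A i l = true)).erase k, x l := by
        have hk2 : k ∈ univ.filter (fun l => A i l = true) := mem_filter.2 ⟨mem_univ _, hAk⟩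
        rw [add_comm, sum_erase_add (univ.filter (fun l => A i l = true)) x hk2, sum_filter]
        apply sum_congr rfl
        intro l _
        unfold toN
        split_ifs <;> simp
      have hrest : ‖∑ l ∈ (univ.filter (fun l => A i l = true)).erase k, x l‖ ≤ 2 * (a / K) := by
        refine (norm_sum_le _ _).trans ?_
        calc ∑ l ∈ (univ.filter (fun l => A i l = true)).erase k, ‖x l‖
            ≤ ∑ _l ∈ (univ.filter (fun l => A i l = true)).erase k, a / K := by
              apply sum_le_sum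
              intro l hl
              rw [mem_erase, mem_filter] at hl
              exact hout l (hone l hl.2.2 hl.1)
          _ = (((univ.filter (fun l => A i l = true)).erase k).card : ℝ) * (a / K) := by
              rw [sum_const, nsmul_eq_mul]
          _ ≤ 2 * (a / K) := by
              apply mul_le_mul_of_nonneg_right _ (by positivity)
              have h1 : ((univ.filter (fun l => A i l = true)).erase k).card ≤ 2 := by
                refine (card_erase_le).trans ?_
                rw [(mem_Reg.1 hA).1 i]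
              exact_mod_cast h1
      have hxi : ‖x i‖ ≤ a / K := hout i hiW
      have hηa : η < a / 4 := by
        have h1 : K ^ m * η * 4 < h := by
          rcases le_or_gt η 0 with hneg | hpos
          · have : K ^ m * η * 4 ≤ 0 := by
              have := mul_nonpos_of_nonneg_of_nonpos hKm0.le hneg
              linarith
            linarith
          · have h2 : K ^ m * η ≤ K ^ (m + 1) * η := by
              apply mul_le_mul_of_nonneg_right _ hpos.le
              exact pow_le_pow_right₀ hK1 (Nat.le_succ m)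
            linarith
        rw [ha, div_div, lt_div_iff₀ (by positivity)]
        linarith
      have hxkle : ‖x k‖ ≤ η + 2 * (a / K) + ‖z‖ * (a / K) := by
        have e1 : x k = L z (toN A) x i
            - ∑ l ∈ (univ.filter (fun l => A i l = true)).erase k, x l + z * x i := by
          unfold L
          rw [hsumL]; ring
        rw [e1]
        refine (norm_add_le _ _).trans ?_
        refine add_le_add ?_ ?_
        · exact (norm_sub_le _ _).trans (add_le_add hLi hrest)
        · rw [norm_mul]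
          exact mul_le_mul_of_nonneg_left hxi hz0
      have hKa : (2 + ‖z‖) * (a / K) ≤ a / 4 := by
        rw [mul_div_assoc', div_le_div_iff₀ hK0 (by norm_num)]
        have : (2 + ‖z‖) * 4 ≤ K := by rw [hK]; linarith
        nlinarith
      nlinarith) (by
      intro i hiE hiW
      simp only [mem_insert, mem_singleton, not_or] at hiE
      by_contra hcon
      have hc0 : (W (m + 1)).filter (fun k => A i k = true) = ∅ := by
        rw [← card_eq_zero]; omega
      have hLi := hL i hiE.1 hiE.2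
      set a : ℝ := h / K ^ m with ha
      have ha0 : 0 < a := by positivity
      have hxi : a ≤ ‖x i‖ := by
        rw [hWm] at hiW
        rw [ha, div_le_iff₀ hKm0]
        linarith [mul_comm (K ^ m) ‖x i‖]
      have hout : ∀ l, A i l = true → ‖x l‖ ≤ a / K := by
        intro l hl
        have hlW : l ∉ W (m + 1) := by
          intro h1
          have h2 : l ∈ (W (m + 1)).filter (fun k => A i k = true) := mem_filter.2 ⟨h1, hl⟩
          rw [hc0] at h2
          exact absurd h2 (notMem_empty _)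
        rw [hWm, not_le] at hlW
        rw [ha, div_div, ← pow_succ, le_div_iff₀ (by positivity)]
        linarith [mul_comm (K ^ (m + 1)) ‖x l‖]
      have hsumL : ∑ l, (toN A i l : ℂ) * x l
          = ∑ l ∈ univ.filter (fun l => A i l = true), x l := by
        rw [sum_filter]
        apply sum_congr rfl
        intro l _
        unfold toN
        split_ifs <;> simp
      have hrest : ‖∑ l ∈ univ.filter (fun l => A i l = true), x l‖ ≤ 2 * (a / K) := by
        refine (norm_sum_le _ _).trans ?_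
        calc ∑ l ∈ univ.filter (fun l => A i l = true), ‖x l‖
            ≤ ∑ _l ∈ univ.filter (fun l => A i l = true), a / K := by
              apply sum_le_sum
              intro l hl
              exact hout l (mem_filter.1 hl).2
          _ = ((univ.filter (fun l => A i l = true)).card : ℝ) * (a / K) := by
              rw [sum_const, nsmul_eq_mul]
          _ = 2 * (a / K) := by rw [(mem_Reg.1 hA).1 i]; norm_num
      have hηa : η < a / K := by
        rw [ha, div_div, ← pow_succ, lt_div_iff₀ (by positivity)]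
        rcases le_or_gt η 0 with hneg | hpos
        · have : η * K ^ (m + 1) ≤ 0 := mul_nonpos_of_nonpos_of_nonneg hneg (by positivity)
          linarith
        · have : 0 < η * K ^ (m + 1) := by positivity
          linarith
      have hzx : ‖z‖ * ‖x i‖ ≤ η + 2 * (a / K) := by
        have e1 : z * x i = ∑ l ∈ univ.filter (fun l => A i l = true), x l - L z (toN A) x i := by
          unfold L
          rw [hsumL]; ring
        rw [← norm_mul, e1]
        refine (norm_sub_le _ _).trans ?_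
        linarith
      have h8 : 8 * (a / K) ≤ ‖z‖ * a := by
        rw [mul_div_assoc', div_le_iff₀ hK0]
        have h9 : 8 ≤ ‖z‖ * K := by
          have h10 : ‖z‖ * (8 / ‖z‖) = 8 := by field_simp
          have h11 : ‖z‖ * (8 / ‖z‖) ≤ ‖z‖ * K := by
            apply mul_le_mul_of_nonneg_left _ hz0
            rw [hK]; linarith
          linarith
        nlinarith
      have h12 : ‖z‖ * a ≤ ‖z‖ * ‖x i‖ := mul_le_mul_of_nonneg_left hxi hz0
      have h13 : 0 < a / K := by positivity
      linarith)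
  refine ⟨U, hU1, ?_, ?_⟩
  · have h1 : (2 * U.card : ℝ) ≤ 8 * (W (m + 1)).card := by exact_mod_cast hU2
    refine h1.trans ?_
    exact mul_le_mul_of_nonneg_left hWB (by positivity)
  · rcases hU3 with h1 | ⟨h1, h2 | ⟨h2, e, he, heU⟩⟩
    · exact Or.inl h1
    · exact Or.inr ⟨h1, Or.inl h2⟩
    · refine Or.inr ⟨h1, Or.inr ⟨h2, ?_⟩⟩
      simp only [mem_insert, mem_singleton] at he
      rcases he with rfl | rfl
      · exact Or.inl heU
      · exact Or.inr heU

/-- the smallness condition at the scale `M = 36 (log2 n + 1)`, rate version -/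
lemma sp2_small (ell : ℕ → ℝ) (hell : Rate ell) (K δ : ℝ) (hK : 1 ≤ K) (hδ : 0 < δ) :
    ∀ᶠ n : ℕ in atTop,
    4 * (n * K ^ (36 * (Nat.log 2 n + 1))) * Real.exp (-(δ * ell n)) < 1 := by
  obtain ⟨k, hk⟩ : ∃ k : ℕ, K ≤ 2 ^ k := pow_unbounded_of_one_lt K (by norm_num) |>.imp
    (fun _ h => h.le)
  filter_upwards [hell.exp_le δ hδ (2 * (4 * 2 ^ (36 * k))) (36 * k + 1),
    eventually_ge_atTop 1] with n hn hn1
  have hnpos : (0 : ℝ) < n := by exact_mod_cast hn1
  have h3 : K ^ (36 * (Nat.log 2 n + 1)) ≤ 2 ^ (36 * k) * (n : ℝ) ^ (36 * k) := by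
    calc K ^ (36 * (Nat.log 2 n + 1)) ≤ (2 ^ k) ^ (36 * (Nat.log 2 n + 1)) :=
          pow_le_pow_left₀ (by linarith) hk _
      _ = 2 ^ (36 * k) * ((2 : ℝ) ^ (Nat.log 2 n)) ^ (36 * k) := by
          rw [← pow_mul, ← pow_mul, ← pow_add]; congr 1; ring
      _ ≤ 2 ^ (36 * k) * (n : ℝ) ^ (36 * k) := by
          apply mul_le_mul_of_nonneg_left _ (by positivity)
          apply pow_le_pow_left₀ (by positivity)
          exact_mod_cast Nat.pow_log_le_self 2 (by omega)
  have hexp : 0 < Real.exp (-(δ * ell n)) := Real.exp_pos _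
  have h4 : 4 * (n * K ^ (36 * (Nat.log 2 n + 1))) ≤ 4 * 2 ^ (36 * k) * (n : ℝ) ^ (36 * k + 1) := by
    calc 4 * (n * K ^ (36 * (Nat.log 2 n + 1)))
        ≤ 4 * (n * (2 ^ (36 * k) * (n : ℝ) ^ (36 * k))) := by gcongr
      _ = (4 * 2 ^ (36 * k)) * (n : ℝ) ^ (36 * k + 1) := by rw [pow_succ]; ring
  have h5 : 4 * (n * K ^ (36 * (Nat.log 2 n + 1))) * Real.exp (-(δ * ell n)) ≤
      4 * 2 ^ (36 * k) * (n : ℝ) ^ (36 * k + 1) * Real.exp (-(δ * ell n)) :=
    mul_le_mul_of_nonneg_right h4 hexp.le
  have h6 : 2 * (4 * 2 ^ (36 * k)) * (n : ℝ) ^ (36 * k + 1) * Real.exp (-(δ * ell n))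
      = 2 * (4 * 2 ^ (36 * k) * (n : ℝ) ^ (36 * k + 1) * Real.exp (-(δ * ell n))) := by ring
  rw [h6] at hn
  linarith

theorem T_spread_two (ell : ℕ → ℝ) (hell : Rate ell) (z : ℂ) (hz0 : z ≠ 0) :
    ∃ θ2 : ℝ, 0 < θ2 ∧ ∀ δ : ℝ, 0 < δ → ∀ ε : ℝ, 0 < ε → ∀ᶠ n : ℕ in atTop,
      fr (Reg n 2 ×ˢ (univ : Finset (Fin n × Fin n))) (fun t => ∃ x : Fin n → ℂ,
        (∑ k, ‖x k‖ ^ 2 = 1) ∧
        (∀ i, i ≠ t.2.1 → i ≠ t.2.2 → ‖L z (toN t.1) x i‖ ≤ Real.exp (-(δ * ell n))) ∧
        ((univ.filter (fun k => Real.exp (-(δ * ell n)) < ‖x k‖)).card : ℝ) ≤ θ2 * n) ≤ ε := by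
  classical
  set u0 : ℕ := 150 with hu0
  have hu0pos : (0 : ℝ) < u0 := by rw [hu0]; norm_num
  have hu0ge : (10 : ℝ) ≤ u0 := by
    rw [hu0]; norm_num
  obtain ⟨θ3, hθ3, hsparse⟩ := sparse_whp 2 (by omega) (1 / u0) (by positivity)
    (by rw [div_le_one hu0pos]; linarith)
  refine ⟨2 * θ3 / 8, by positivity, ?_⟩
  intro δ hδ ε hε
  have hK1 : (1 : ℝ) ≤ 4 * (2 + ‖z‖) + 4 + 8 / ‖z‖ := by
    have h1 : (0 : ℝ) ≤ 8 / ‖z‖ := by positivity
    have h2 := norm_nonneg z
    linarith
  filter_upwards [hsparse (ε / 3) (by positivity), cycle_whp 2 (by omega) u0 (ε / 3) (by positivity),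
    sp2_small ell hell _ δ hK1 hδ] with n hn1 hn2 hn3
  have hsub : fr (Reg n 2 ×ˢ (univ : Finset (Fin n × Fin n))) (fun t => ∃ x : Fin n → ℂ,
        (∑ k, ‖x k‖ ^ 2 = 1) ∧
        (∀ i, i ≠ t.2.1 → i ≠ t.2.2 → ‖L z (toN t.1) x i‖ ≤ Real.exp (-(δ * ell n))) ∧
        ((univ.filter (fun k => Real.exp (-(δ * ell n)) < ‖x k‖)).card : ℝ)
          ≤ 2 * θ3 / 8 * n)
      ≤ fr (Reg n 2 ×ˢ (univ : Finset (Fin n × Fin n))) (fun t =>
        (∃ U : Finset (Fin n), U.Nonempty ∧ (U.card : ℝ) ≤ θ3 * n ∧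
          (1 + 1 / (u0 : ℝ)) * U.card ≤ (eIn t.1 U : ℝ)) ∨
        ((∃ U : Finset (Fin n), t.2.1 ∈ U ∧ U.card ≤ u0 ∧ U.card ≤ eIn t.1 U) ∨
         (∃ U : Finset (Fin n), t.2.2 ∈ U ∧ U.card ≤ u0 ∧ U.card ≤ eIn t.1 U))) := by
    apply fr_mono
    rintro ⟨A, j, j'⟩ hmem ⟨x, hx, hL, hB⟩
    rw [mem_product] at hmem
    obtain ⟨U, hU1, hU2, hU3⟩ := sp2_vec z hz0 hmem.1 j j' x hx _ hL _ hB _ (sp_pow n) hn3
    have hUθ : (U.card : ℝ) ≤ θ3 * n := by
      have h1 : (8 : ℝ) * (2 * θ3 / 8 * n) = 2 * (θ3 * n) := by ring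
      rw [h1] at hU2
      linarith
    have hU0 : (0 : ℝ) ≤ U.card := Nat.cast_nonneg _
    rcases hU3 with h1 | ⟨h1, h2 | ⟨h2, h3 | h3⟩⟩
    · left
      refine ⟨U, hU1, hUθ, ?_⟩
      have h2 : (11 * U.card : ℝ) ≤ 10 * eIn A U := by exact_mod_cast h1
      have h3 : 1 / (u0 : ℝ) ≤ 1 / 10 := one_div_le_one_div_of_le (by norm_num) hu0ge
      have h4 : (1 + 1 / (u0 : ℝ)) * U.card ≤ (1 + 1 / 10) * U.card := by gcongr
      refine h4.trans ?_
      show (1 + 1 / 10 : ℝ) * U.card ≤ (eIn A U : ℝ)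
      linarith
    · left
      refine ⟨U, hU1, hUθ, ?_⟩
      have h3 : (U.card : ℝ) + 1 ≤ eIn A U := by exact_mod_cast h2
      have h4 : (U.card : ℝ) / u0 ≤ 1 := by
        rw [div_le_one hu0pos]; exact_mod_cast h1
      have h5 : (1 + 1 / (u0 : ℝ)) * U.card = U.card + U.card / u0 := by ring
      rw [h5]
      show (U.card : ℝ) + U.card / u0 ≤ (eIn A U : ℝ)
      linarith
    · right; left
      exact ⟨U, h3, h1, h2⟩
    · right; right
      exact ⟨U, h3, h1, h2⟩
  refine hsub.trans ?_
  refine (fr_or_le _ _ _).trans ?_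
  have e1 := (sp_fr_fst (Reg n 2) (univ : Finset (Fin n × Fin n)) (fun A =>
    ∃ U : Finset (Fin n), U.Nonempty ∧ (U.card : ℝ) ≤ θ3 * n ∧
          (1 + 1 / (u0 : ℝ)) * U.card ≤ (eIn A U : ℝ))).trans hn1
  have e2 := (fr_or_le (Reg n 2 ×ˢ (univ : Finset (Fin n × Fin n)))
    (fun t => ∃ U : Finset (Fin n), t.2.1 ∈ U ∧ U.card ≤ u0 ∧ U.card ≤ eIn t.1 U)
    (fun t => ∃ U : Finset (Fin n), t.2.2 ∈ U ∧ U.card ≤ u0 ∧ U.card ≤ eIn t.1 U))
  have e3 := (sp_fr_left (Reg n 2) (fun A j =>
    ∃ U : Finset (Fin n), j ∈ U ∧ U.card ≤ u0 ∧ U.card ≤ eIn A U)).trans hn2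
  have e4 := (sp_fr_right (Reg n 2) (fun A j =>
    ∃ U : Finset (Fin n), j ∈ U ∧ U.card ≤ u0 ∧ U.card ≤ eIn A U)).trans hn2
  linarith

end Pool.Agent.SMin2
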