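import Pool.Agent.SMin2.TCfg2
import Pool.Agent.SMin2.SpreadTwo
import Pool.Agent.SMin2.SpreadThree
import Pool.Agent.SMin.SMain

set_option autoImplicit false
open Finset Filter

namespace Pool.Agent.SMin2
open Pool.Agent.SMin

theorem T_spread (ell : ℕ → ℝ) (hell : Rate ell) (d : ℕ) (hd2 : 2 ≤ d) (z : ℂ) (hz0 : z ≠ 0) :
    ∃ θ2 : ℝ, 0 < θ2 ∧ ∀ δ : ℝ, 0 < δ → ∀ ε : ℝ, 0 < ε → ∀ᶠ n : ℕ in atTop,
      fr (Reg n d ×ˢ (univ : Finset (Fin n × Fin n))) (fun t => ∃ x : Fin n → ℂ,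
        (∑ k, ‖x k‖ ^ 2 = 1) ∧
        (∀ i, i ≠ t.2.1 → i ≠ t.2.2 → ‖L z (toN t.1) x i‖ ≤ Real.exp (-(δ * ell n))) ∧
        ((univ.filter (fun k => Real.exp (-(δ * ell n)) < ‖x k‖)).card : ℝ) ≤ θ2 * n) ≤ ε := by
  rcases Nat.lt_or_ge 2 d with h | h
  · exact T_spread_three ell hell d h z
  · obtain rfl : d = 2 := le_antisymm h hd2
    exact T_spread_two ell hell z hz0

theorem S_main (ell : ℕ → ℝ) (hell : Rate ell) (d : ℕ) (hd2 : 2 ≤ d) (z : ℂ) (hz0 : z ≠ 0)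
    (hzd : z ≠ d) (θ δ : ℝ) (hθ : 0 < θ) (hδ : 0 < δ) (ε : ℝ) (hε : 0 < ε) : ∀ᶠ n : ℕ in atTop,
      fr (Reg n d ×ˢ (univ : Finset (Fin n × Fin n))) (fun t => ∃ x : Fin n → ℂ,
        (∑ k, ‖x k‖ ^ 2 = 1) ∧
        (∀ i, i ≠ t.2.1 → i ≠ t.2.2 → ‖L z (toN t.1) x i‖ ≤ Real.exp (-(δ * ell n))) ∧
        ∃ a : ℂ, θ * n ≤ (bc x univ a (Real.exp (-(δ * ell n))) : ℝ)) ≤ ε := by
  classical
  obtain ⟨θ2, hθ2, hspread⟩ := T_spread ell hell d hd2 z hz0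
  obtain ⟨δ', hδ', c, hc, hcfg⟩ := T_cfg ell hell d hd2 z hz0 hzd θ θ2 δ hθ hθ2 hδ
  have hsp := hspread (min δ δ') (lt_min hδ hδ') (ε / 2) (by positivity)
  have htr := transfer d (by omega) (c / 2) (by positivity)
  have hnum : ∀ᶠ n : ℕ in atTop, 1 * Real.exp (-(c / 2) * n) < ε / 2 :=
    (ct_exp (-(c / 2)) 1 (by linarith)).eventually_lt_const (by positivity)
  filter_upwards [hcfg, hsp, htr, hnum, hell.pos] with n hcfg hsp htr hnum hl0
  have hn0 : (0:ℝ) ≤ n := by positivity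
  have hincl : fr (Reg n d ×ˢ (univ : Finset (Fin n × Fin n))) (fun t => ∃ x : Fin n → ℂ,
        (∑ k, ‖x k‖ ^ 2 = 1) ∧
        (∀ i, i ≠ t.2.1 → i ≠ t.2.2 → ‖L z (toN t.1) x i‖ ≤ Real.exp (-(δ * ell n))) ∧
        ∃ a : ℂ, θ * n ≤ (bc x univ a (Real.exp (-(δ * ell n))) : ℝ)) ≤
      fr (Reg n d ×ˢ (univ : Finset (Fin n × Fin n))) (fun t => (∃ x : Fin n → ℂ,
          Sol z (toN t.1) {t.2.1, t.2.2} (Real.exp (-(δ * ell n))) x ∧
          (∃ a : ℂ, θ * n ≤ (bc x univ a (Real.exp (-(δ * ell n))) : ℝ)) ∧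
          θ2 * n < ((univ.filter (fun k => Real.exp (-(δ' * ell n)) < ‖x k‖)).card : ℝ)) ∨
        (∃ x : Fin n → ℂ, (∑ k, ‖x k‖ ^ 2 = 1) ∧
        (∀ i, i ≠ t.2.1 → i ≠ t.2.2 → ‖L z (toN t.1) x i‖ ≤ Real.exp (-(min δ δ' * ell n))) ∧
        ((univ.filter (fun k => Real.exp (-(min δ δ' * ell n)) < ‖x k‖)).card : ℝ) ≤ θ2 * n)) := by
    apply fr_mono
    rintro ⟨A, j, j'⟩ - ⟨x, hx1, hx2, ha⟩
    by_cases h : θ2 * n < ((univ.filter (fun k => Real.exp (-(δ' * ell n)) < ‖x k‖)).card : ℝ)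
    · left
      refine ⟨x, ⟨hx1.le, ?_⟩, ha, h⟩
      intro i hi
      simp only [mem_insert, mem_singleton, not_or] at hi
      exact hx2 i hi.1 hi.2
    · right
      refine ⟨x, hx1, ?_, ?_⟩
      · intro i h1 h2
        refine (hx2 i h1 h2).trans ?_
        rw [Real.exp_le_exp]
        have := mul_le_mul_of_nonneg_right (min_le_left δ δ') hl0.le
        linarith
      · refine le_trans ?_ (not_lt.1 h)
        have e2 : (univ.filter (fun k => Real.exp (-(min δ δ' * ell n)) < ‖x k‖)).card ≤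
            (univ.filter (fun k => Real.exp (-(δ' * ell n)) < ‖x k‖)).card := by
          apply card_le_card
          intro k hk
          rw [mem_filter] at hk ⊢
          refine ⟨hk.1, lt_of_le_of_lt ?_ hk.2⟩
          rw [Real.exp_le_exp]
          have := mul_le_mul_of_nonneg_right (min_le_right δ δ') hl0.le
          linarith
        exact_mod_cast e2
  refine hincl.trans ((fr_or_le _ _ _).trans ?_)
  have h1 : fr (Reg n d ×ˢ (univ : Finset (Fin n × Fin n))) (fun t => ∃ x : Fin n → ℂ,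
          Sol z (toN t.1) {t.2.1, t.2.2} (Real.exp (-(δ * ell n))) x ∧
          (∃ a : ℂ, θ * n ≤ (bc x univ a (Real.exp (-(δ * ell n))) : ℝ)) ∧
          θ2 * n < ((univ.filter (fun k => Real.exp (-(δ' * ell n)) < ‖x k‖)).card : ℝ)) ≤ ε / 2 := by
    apply sm_prod_le _ _ _ _ (by positivity)
    rintro ⟨j, j'⟩ -
    have h2 := htr.2 (fun m => ∃ x : Fin n → ℂ,
          Sol z m {j, j'} (Real.exp (-(δ * ell n))) x ∧
          (∃ a : ℂ, θ * n ≤ (bc x univ a (Real.exp (-(δ * ell n))) : ℝ)) ∧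
          θ2 * n < ((univ.filter (fun k => Real.exp (-(δ' * ell n)) < ‖x k‖)).card : ℝ))
    refine h2.trans ?_
    have h3 := hcfg {j, j'} card_le_two
    calc _ ≤ Real.exp (c / 2 * n) * Real.exp (-(c * n)) :=
          mul_le_mul_of_nonneg_left h3 (Real.exp_pos _).le
      _ = 1 * Real.exp (-(c / 2) * n) := by rw [← Real.exp_add, one_mul]; congr 1; ring
      _ ≤ ε / 2 := hnum.le
  linarith

end Pool.Agent.SMin2
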