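import Pool.Agent.SMin2.Cover2
import Pool.Agent.SMin2.CTwo2
import Pool.Agent.SMin.TCfg

set_option autoImplicit false
open Finset Filter

namespace Pool.Agent.SMin2
open Pool.Agent.SMin

/-- one scale: a covered approximate solution with a level set is small off `θ2 n` coordinates -/
lemma tc_step2 (ell : ℕ → ℝ) (hell : Rate ell) (d : ℕ) (z : ℂ) (hz0 : z ≠ 0) (hzd : z ≠ d) (θ θ2 β0 β ρ δ δ0 : ℝ)
    (hθ : 0 < θ) (hθ2 : 0 < θ2) (hθ2d : (d + 1) * θ2 ≤ 1 / 2) (hβθ : β ≤ θ / 2) (hββ : β ≤ β0)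
    (hρ : 0 < ρ) (hρ1 : ρ < 1) (hδ0 : 0 < δ0) (hδ : δ0 ≤ δ)
    (hC2 : ∃ τ : ℝ, 0 < τ ∧ τ ≤ 1 / 4 ∧
      ∀ δm δp : ℝ, 0 < δm → 0 < δp → δp ≤ τ * δm → ∃ c : ℝ, 0 < c ∧
        ∀ᶠ n : ℕ in atTop, ∀ E : Finset (Fin n), E.card ≤ 2 →
          fr (univ : Finset (Cfg n d)) (fun σ => ∃ x : Fin n → ℂ,
            Sol z (mult σ) E (Real.exp (-(δm * ell n))) x ∧
            ∃ s : ℕ, ∃ col : Fin n → Option (Fin s),
              Coloured x ρ β0 (Real.exp (-(δm * ell n))) (Real.exp (-(δp * ell n))) s col ∧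
              (∃ c : Fin s, θ / 2 * n ≤ ((univ.filter (fun k => col k = some c)).card : ℝ)) ∧
              (∀ c : Fin s, ((univ.filter (fun k => col k = some c)).card : ℝ) ≤ (1 - θ2) * n))
            ≤ Real.exp (-(c * n))) :
    ∃ δ' : ℝ, 0 < δ' ∧ ∃ c : ℝ, 0 < c ∧ ∀ᶠ n : ℕ in atTop, ∀ E : Finset (Fin n), E.card ≤ 2 →
      fr (univ : Finset (Cfg n d)) (fun σ => ∃ x : Fin n → ℂ,
        Sol z (mult σ) E (Real.exp (-(δ * ell n))) x ∧
        (∃ a : ℂ, θ * n ≤ (bc x univ a (Real.exp (-(δ * ell n))) : ℝ)) ∧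
        Cov x ρ (Real.exp (-(δ0 * ell n))) β ∧
        θ2 * n < ((univ.filter (fun k => Real.exp (-(δ' * ell n)) < ‖x k‖)).card : ℝ)) ≤
          Real.exp (-(c * n)) := by
  obtain ⟨τ, hτ, hτ4, hC⟩ := hC2
  set I : ℕ := ⌈3 / ρ + 2⌉₊ with hI
  have hI1 : 3 / ρ + 2 ≤ (I : ℝ) := Nat.le_ceil _
  set D : ℕ → ℝ := fun i => δ0 * (τ / 2) ^ i with hD
  have hDpos : ∀ i, 0 < D i := fun i => by simp only [hD]; positivity
  have hDs : ∀ i, D (i + 1) = τ / 2 * D i := fun i => by simp only [hD, pow_succ]; ring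
  have hDanti : ∀ i, D (i + 1) ≤ D i := fun i => by rw [hDs]; nlinarith [hDpos i]
  have hD0 : ∀ i, D i ≤ δ0 := by
    intro i
    induction i with
    | zero => simp [hD]
    | succ i ih => exact (hDanti i).trans ih
  have hDI : ∀ i, i ≤ I → D I ≤ D i := by
    intro i hi
    exact antitone_nat_of_succ_le hDanti hi
  have hCi : ∀ i, ∃ c : ℝ, 0 < c ∧
        ∀ᶠ n : ℕ in atTop, ∀ E : Finset (Fin n), E.card ≤ 2 →
          fr (univ : Finset (Cfg n d)) (fun σ => ∃ x : Fin n → ℂ,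
            Sol z (mult σ) E (Real.exp (-(D i * ell n))) x ∧
            ∃ s : ℕ, ∃ col : Fin n → Option (Fin s),
              Coloured x ρ β0 (Real.exp (-(D i * ell n))) (Real.exp (-(τ * D i * ell n))) s col ∧
              (∃ c : Fin s, θ / 2 * n ≤ ((univ.filter (fun k => col k = some c)).card : ℝ)) ∧
              (∀ c : Fin s, ((univ.filter (fun k => col k = some c)).card : ℝ) ≤ (1 - θ2) * n))
            ≤ Real.exp (-(c * n)) := fun i =>
    hC (D i) (τ * D i) (hDpos i) (mul_pos hτ (hDpos i)) le_rfl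
  choose c hc hCi using hCi
  -- common rate
  obtain ⟨cm, hcm, hcmi⟩ : ∃ cm : ℝ, 0 < cm ∧ ∀ i ∈ range I, cm ≤ c i := by
    by_cases hI0 : (range I).Nonempty
    · obtain ⟨i, hi, hmin⟩ := exists_min_image (range I) c hI0
      exact ⟨c i, hc i, hmin⟩
    · refine ⟨1, one_pos, fun i hi => absurd ⟨i, hi⟩ hI0⟩
  refine ⟨D I / 2, by have := hDpos I; positivity, cm / 2, by positivity, ?_⟩
  have hall : ∀ᶠ n : ℕ in atTop, ∀ i ∈ range I, ∀ E : Finset (Fin n), E.card ≤ 2 →
          fr (univ : Finset (Cfg n d)) (fun σ => ∃ x : Fin n → ℂ,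
            Sol z (mult σ) E (Real.exp (-(D i * ell n))) x ∧
            ∃ s : ℕ, ∃ col : Fin n → Option (Fin s),
              Coloured x ρ β0 (Real.exp (-(D i * ell n))) (Real.exp (-(τ * D i * ell n))) s col ∧
              (∃ c : Fin s, θ / 2 * n ≤ ((univ.filter (fun k => col k = some c)).card : ℝ)) ∧
              (∀ c : Fin s, ((univ.filter (fun k => col k = some c)).card : ℝ) ≤ (1 - θ2) * n))
            ≤ Real.exp (-(c i * n)) := by
    rw [eventually_all_finset]
    intro i _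
    exact hCi i
  have hsc1 : ∀ᶠ n : ℕ in atTop, ∀ i ∈ range I,
      8 * Real.exp (-(D i * ell n)) < 1 * Real.exp (-(D (i + 1) * ell n)) := by
    rw [eventually_all_finset]
    intro i _
    refine ct_scale2 ell hell 8 (D i) (D (i + 1)) 1 one_pos ?_
    rw [hDs]; nlinarith [hDpos i]
  have hsc2 : ∀ᶠ n : ℕ in atTop, ∀ i ∈ range I,
      4 * Real.exp (-(τ * D i * ell n)) < 1 * Real.exp (-(D (i + 1) * ell n)) := by
    rw [eventually_all_finset]
    intro i _
    refine ct_scale2 ell hell 4 (τ * D i) (D (i + 1)) 1 one_pos ?_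
    rw [hDs]; nlinarith [hDpos i, mul_pos hτ (hDpos i)]
  have hsc3 : ∀ᶠ n : ℕ in atTop, ∀ i ∈ range I,
      2 * Real.exp (-(δ * ell n)) < 1 * Real.exp (-(τ * D i * ell n)) := by
    rw [eventually_all_finset]
    intro i _
    refine ct_scale2 ell hell 2 δ (τ * D i) 1 one_pos ?_
    nlinarith [hDpos i, hD0 i]
  have hsc4 : ∀ᶠ n : ℕ in atTop, ((1 + d) / ‖(d : ℂ) - z‖ + 1) * Real.exp (-(D I * ell n)) <
      1 * Real.exp (-(D I / 2 * ell n)) :=
    ct_scale2 ell hell _ (D I) (D I / 2) 1 one_pos (by linarith [hDpos I])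
  have hnum : ∀ᶠ n : ℕ in atTop, (I : ℝ) * Real.exp (-(cm * n)) < 1 * Real.exp (-(cm / 2 * n)) :=
    ct_scale _ cm (cm / 2) 1 one_pos (by linarith)
  filter_upwards [hall, hsc1, hsc2, hsc3, hsc4, hnum, hell.pos, eventually_gt_atTop 4] with n hall hsc1
    hsc2 hsc3 hsc4 hnum hl0 hn
  intro E hE
  have hn' : (0:ℝ) < n := by positivity
  have hincl : fr (univ : Finset (Cfg n d)) (fun σ => ∃ x : Fin n → ℂ,
        Sol z (mult σ) E (Real.exp (-(δ * ell n))) x ∧
        (∃ a : ℂ, θ * n ≤ (bc x univ a (Real.exp (-(δ * ell n))) : ℝ)) ∧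
        Cov x ρ (Real.exp (-(δ0 * ell n))) β ∧
        θ2 * n < ((univ.filter (fun k => Real.exp (-(D I / 2 * ell n)) < ‖x k‖)).card : ℝ)) ≤
      fr (univ : Finset (Cfg n d)) (fun σ => ∃ i ∈ range I, ∃ x : Fin n → ℂ,
            Sol z (mult σ) E (Real.exp (-(D i * ell n))) x ∧
            ∃ s : ℕ, ∃ col : Fin n → Option (Fin s),
              Coloured x ρ β0 (Real.exp (-(D i * ell n))) (Real.exp (-(τ * D i * ell n))) s col ∧
              (∃ c : Fin s, θ / 2 * n ≤ ((univ.filter (fun k => col k = some c)).card : ℝ)) ∧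
              (∀ c : Fin s, ((univ.filter (fun k => col k = some c)).card : ℝ) ≤ (1 - θ2) * n)) := by
    apply fr_mono
    rintro σ - ⟨x, hsol, ⟨a, ha⟩, hcov, hbig⟩
    -- the radii
    set r : ℕ → ℝ := fun i => Real.exp (-(D (min i I) * ell n)) * 8 ^ (i - I) with hr
    have hrle : ∀ i, i ≤ I → r i = Real.exp (-(D i * ell n)) := by
      intro i hi
      simp only [hr]
      rw [min_eq_left hi, Nat.sub_eq_zero_of_le hi, pow_zero, mul_one]
    have hr0 : r 0 = Real.exp (-(δ0 * ell n)) := by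
      rw [hrle 0 (Nat.zero_le _)]; simp [hD]
    obtain ⟨i, hi, s, col, hcol⟩ := evo (by omega : 0 < n) x ρ β hρ hρ1.le r
      (by rw [hr0]; exact Real.exp_pos _) (by
        intro i
        by_cases h : i < I
        · rw [hrle i h.le, hrle (i + 1) h]
          have := hsc1 i (mem_range.2 h)
          linarith
        · have h' : I ≤ i := not_lt.1 h
          simp only [hr]
          rw [min_eq_right h', min_eq_right (by omega), show i + 1 - I = (i - I) + 1 by omega,
            pow_succ]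
          linarith) I hI1 (by rw [hr0]; exact hcov)
    rw [hrle i hi.le, hrle (i + 1) hi] at hcol
    have hcol2 : Coloured x ρ β0 (Real.exp (-(D i * ell n))) (Real.exp (-(τ * D i * ell n))) s col := by
      refine tc_coloured_mono hββ ?_ hcol
      have := hsc2 i (mem_range.2 hi)
      linarith
    have hexp : Real.exp (-(δ * ell n)) ≤ Real.exp (-(D i * ell n)) := by
      rw [Real.exp_le_exp]
      have : D i * ell n ≤ δ * ell n := mul_le_mul_of_nonneg_right ((hD0 i).trans hδ) hl0.le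
      linarith
    refine ⟨i, mem_range.2 hi, x, tc_sol_mono hexp hsol, s, col, hcol2, ?_, ?_⟩
    · -- the colour of the level set
      set Bl := univ.filter (fun k => ‖x k - a‖ ≤ Real.exp (-(δ * ell n))) with hBl
      have hBlc : θ * n ≤ (Bl.card : ℝ) := by
        refine ha.trans ?_
        unfold bc
        rw [hBl]
      set U0 := univ.filter (fun k => col k = none) with hU0
      have hU0c : (U0.card : ℝ) ≤ β * n := hcol.2.2.2.1
      have h1 : ((Bl \ U0).card : ℝ) ≥ θ / 2 * n := by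
        have e1 : Bl.card ≤ (Bl \ U0).card + U0.card := by
          have := card_le_card (show Bl ⊆ (Bl \ U0) ∪ U0 by
            intro k hk; by_cases h : k ∈ U0
            · exact mem_union_right _ h
            · exact mem_union_left _ (Finset.mem_sdiff.2 ⟨hk, h⟩))
          exact this.trans (card_union_le _ _)
        have e2 : (Bl.card : ℝ) ≤ ((Bl \ U0).card : ℝ) + U0.card := by exact_mod_cast e1
        have e3 : β * n ≤ θ / 2 * n := mul_le_mul_of_nonneg_right hβθ hn'.le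
        linarith
      have h2 : 0 < (Bl \ U0).card := by
        have : (0:ℝ) < ((Bl \ U0).card : ℝ) := lt_of_lt_of_le (by positivity) h1
        exact_mod_cast this
      obtain ⟨k0, hk0⟩ := card_pos.1 h2
      rw [Finset.mem_sdiff] at hk0
      have hk0n : col k0 ≠ none := fun h => hk0.2 (by rw [hU0, mem_filter]; exact ⟨mem_univ _, h⟩)
      obtain ⟨c1, hc1⟩ := Option.ne_none_iff_exists'.1 hk0n
      refine ⟨c1, h1.le.trans ?_⟩
      have h3 : (Bl \ U0) ⊆ univ.filter (fun k => col k = some c1) := by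
        intro k hk
        rw [Finset.mem_sdiff] at hk
        have hkn : col k ≠ none := fun h => hk.2 (by rw [hU0, mem_filter]; exact ⟨mem_univ _, h⟩)
        obtain ⟨c2, hc2⟩ := Option.ne_none_iff_exists'.1 hkn
        rw [mem_filter]
        refine ⟨mem_univ _, ?_⟩
        by_contra hne
        have hne' : c2 ≠ c1 := fun h => hne (by rw [hc2, h])
        have e1 := hcol2.2.2.1 k k0 c2 c1 hne' hc2 hc1
        have e2 : ‖x k - x k0‖ ≤ 2 * Real.exp (-(δ * ell n)) := by
          have e3 := (mem_filter.1 hk.1).2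
          have e4 := (mem_filter.1 hk0.1).2
          have e5 : x k - x k0 = (x k - a) - (x k0 - a) := by ring
          rw [e5]
          exact (norm_sub_le _ _).trans (by linarith)
        have e6 := hsc3 i (mem_range.2 hi)
        linarith
      exact_mod_cast card_le_card h3
    · -- no class is too large
      intro c1
      by_contra hlt
      push Not at hlt
      have hsm := tc_small z hzd σ E hE x (Real.exp (-(D i * ell n))) θ2 (Real.exp (-(D I / 2 * ell n)))
        hn (tc_sol_mono hexp hsol) (univ.filter (fun k => col k = some c1)) (by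
          intro k hk l hl
          exact hcol.2.1 k l c1 (mem_filter.1 hk).2 (mem_filter.1 hl).2) hlt hθ2d (by
          have e1 : Real.exp (-(D i * ell n)) ≤ Real.exp (-(D I * ell n)) := by
            rw [Real.exp_le_exp]
            have := mul_le_mul_of_nonneg_right (hDI i hi.le) hl0.le
            linarith
          have e2 : ((1 + d) / ‖(d : ℂ) - z‖ + 1) * Real.exp (-(D i * ell n)) ≤
              ((1 + d) / ‖(d : ℂ) - z‖ + 1) * Real.exp (-(D I * ell n)) :=
            mul_le_mul_of_nonneg_left e1 (by positivity)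
          linarith)
      have : ((univ.filter (fun k => Real.exp (-(D I / 2 * ell n)) < ‖x k‖)).card : ℝ) ≤ θ2 * n := hsm
      linarith
  refine hincl.trans ?_
  have hb : ∀ i ∈ range I, fr (univ : Finset (Cfg n d)) (fun σ => ∃ x : Fin n → ℂ,
            Sol z (mult σ) E (Real.exp (-(D i * ell n))) x ∧
            ∃ s : ℕ, ∃ col : Fin n → Option (Fin s),
              Coloured x ρ β0 (Real.exp (-(D i * ell n))) (Real.exp (-(τ * D i * ell n))) s col ∧
              (∃ c : Fin s, θ / 2 * n ≤ ((univ.filter (fun k => col k = some c)).card : ℝ)) ∧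
              (∀ c : Fin s, ((univ.filter (fun k => col k = some c)).card : ℝ) ≤ (1 - θ2) * n))
            ≤ Real.exp (-(cm * n)) := by
    intro i hi
    refine (hall i hi E hE).trans ?_
    rw [Real.exp_le_exp]
    have := mul_le_mul_of_nonneg_right (hcmi i hi) hn'.le
    linarith
  refine (fr_exists_le_card _ _ _ _ hb).trans ?_
  rw [card_range]
  linarith

theorem T_cfg (ell : ℕ → ℝ) (hell : Rate ell) (d : ℕ) (hd2 : 2 ≤ d) (z : ℂ) (hz0 : z ≠ 0)
    (hzd : z ≠ d) (θ θ2 δ : ℝ) (hθ : 0 < θ) (hθ2 : 0 < θ2) (hδ : 0 < δ) :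
    ∃ δ' : ℝ, 0 < δ' ∧ ∃ c : ℝ, 0 < c ∧ ∀ᶠ n : ℕ in atTop, ∀ E : Finset (Fin n), E.card ≤ 2 →
      fr (univ : Finset (Cfg n d)) (fun σ => ∃ x : Fin n → ℂ,
        Sol z (mult σ) E (Real.exp (-(δ * ell n))) x ∧
        (∃ a : ℂ, θ * n ≤ (bc x univ a (Real.exp (-(δ * ell n))) : ℝ)) ∧
        θ2 * n < ((univ.filter (fun k => Real.exp (-(δ' * ell n)) < ‖x k‖)).card : ℝ)) ≤
          Real.exp (-(c * n)) := by
  classical
  set θ' : ℝ := min θ2 (1 / (4 * (d + 1))) with hθ'
  have hd0 : (0:ℝ) < d + 1 := by positivity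
  have hθ'0 : 0 < θ' := lt_min hθ2 (by positivity)
  have hθ'd : (d + 1) * θ' ≤ 1 / 2 := by
    have : θ' ≤ 1 / (4 * (d + 1)) := min_le_right _ _
    calc (d + 1) * θ' ≤ (d + 1) * (1 / (4 * (d + 1))) := mul_le_mul_of_nonneg_left this hd0.le
      _ = 1 / 4 := by field_simp
      _ ≤ 1 / 2 := by norm_num
  have hθ'1 : θ' < 1 := by
    have h1 : (1:ℝ) * θ' ≤ (d + 1) * θ' := by
      apply mul_le_mul_of_nonneg_right _ hθ'0.le
      linarith [Nat.cast_nonneg (α := ℝ) d]
    linarith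
  obtain ⟨β0, hβ0, hβ01, hC2⟩ := C2 ell hell d hd2 z hz0 (θ / 2) θ' (by positivity) hθ'0 hθ'1
  set β : ℝ := min β0 (θ / 2) with hβdef
  have hβ : 0 < β := lt_min hβ0 (by positivity)
  have hββ : β ≤ β0 := min_le_left _ _
  have hβθ : β ≤ θ / 2 := min_le_right _ _
  obtain ⟨J, ρ, δ', hρδ, c0, hc0, hcov⟩ := cover ell hell d hd2 z hz0 θ β δ hθ hβ (by linarith) hδ
  have hstep : ∀ j, ∃ δ'' : ℝ, 0 < δ'' ∧ ∃ c : ℝ, 0 < c ∧ ∀ᶠ n : ℕ in atTop,
      ∀ E : Finset (Fin n), E.card ≤ 2 →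
      fr (univ : Finset (Cfg n d)) (fun σ => ∃ x : Fin n → ℂ,
        Sol z (mult σ) E (Real.exp (-(δ * ell n))) x ∧
        (∃ a : ℂ, θ * n ≤ (bc x univ a (Real.exp (-(δ * ell n))) : ℝ)) ∧
        Cov x (ρ j) (Real.exp (-(δ' j * ell n))) β ∧
        θ' * n < ((univ.filter (fun k => Real.exp (-(δ'' * ell n)) < ‖x k‖)).card : ℝ)) ≤
          Real.exp (-(c * n)) := by
    intro j
    obtain ⟨h1, h2, h3, h4⟩ := hρδ j
    have := tc_step2 ell hell d z hz0 hzd θ θ' β0 β (ρ j) δ (δ' j) hθ hθ'0 hθ'd hβθ hββ h1 h2 h3 h4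
      (hC2 (ρ j) h1 h2)
    convert this
  choose δ2 hδ2 c hc hstep using hstep
  obtain ⟨cm, hcm, hcmi⟩ : ∃ cm : ℝ, 0 < cm ∧ ∀ i ∈ range J, cm ≤ c i := by
    by_cases hI0 : (range J).Nonempty
    · obtain ⟨i, hi, hmin⟩ := exists_min_image (range J) c hI0
      exact ⟨c i, hc i, hmin⟩
    · exact ⟨1, one_pos, fun i hi => absurd ⟨i, hi⟩ hI0⟩
  obtain ⟨δm, hδm, hδmi⟩ : ∃ δm : ℝ, 0 < δm ∧ ∀ i ∈ range J, δm ≤ δ2 i := by
    by_cases hI0 : (range J).Nonempty
    · obtain ⟨i, hi, hmin⟩ := exists_min_image (range J) δ2 hI0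
      exact ⟨δ2 i, hδ2 i, hmin⟩
    · exact ⟨1, one_pos, fun i hi => absurd ⟨i, hi⟩ hI0⟩
  set cc := min c0 cm with hcc
  have hcc0 : 0 < cc := lt_min hc0 hcm
  refine ⟨δm, hδm, cc / 2, by positivity, ?_⟩
  have hall : ∀ᶠ n : ℕ in atTop, ∀ j ∈ range J, ∀ E : Finset (Fin n), E.card ≤ 2 →
      fr (univ : Finset (Cfg n d)) (fun σ => ∃ x : Fin n → ℂ,
        Sol z (mult σ) E (Real.exp (-(δ * ell n))) x ∧
        (∃ a : ℂ, θ * n ≤ (bc x univ a (Real.exp (-(δ * ell n))) : ℝ)) ∧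
        Cov x (ρ j) (Real.exp (-(δ' j * ell n))) β ∧
        θ' * n < ((univ.filter (fun k => Real.exp (-(δ2 j * ell n)) < ‖x k‖)).card : ℝ)) ≤
          Real.exp (-(c j * n)) := by
    rw [eventually_all_finset]
    intro j _
    exact hstep j
  have hnum : ∀ᶠ n : ℕ in atTop, ((J : ℝ) + 1) * Real.exp (-(cc * n)) < 1 * Real.exp (-(cc / 2 * n)) :=
    ct_scale _ cc (cc / 2) 1 one_pos (by linarith)
  filter_upwards [hall, hcov, hnum, hell.pos] with n hall hcov hnum hl0
  intro E hE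
  have hn0 : (0:ℝ) ≤ n := by positivity
  have hincl : fr (univ : Finset (Cfg n d)) (fun σ => ∃ x : Fin n → ℂ,
        Sol z (mult σ) E (Real.exp (-(δ * ell n))) x ∧
        (∃ a : ℂ, θ * n ≤ (bc x univ a (Real.exp (-(δ * ell n))) : ℝ)) ∧
        θ2 * n < ((univ.filter (fun k => Real.exp (-(δm * ell n)) < ‖x k‖)).card : ℝ)) ≤
      fr (univ : Finset (Cfg n d)) (fun σ => (∃ x : Fin n → ℂ,
          Sol z (mult σ) E (Real.exp (-(δ * ell n))) x ∧
          (∃ a : ℂ, θ * n ≤ (bc x univ a (Real.exp (-(δ * ell n))) : ℝ)) ∧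
          ∀ j < J, ¬ Cov x (ρ j) (Real.exp (-(δ' j * ell n))) β) ∨
        ∃ j ∈ range J, ∃ x : Fin n → ℂ,
        Sol z (mult σ) E (Real.exp (-(δ * ell n))) x ∧
        (∃ a : ℂ, θ * n ≤ (bc x univ a (Real.exp (-(δ * ell n))) : ℝ)) ∧
        Cov x (ρ j) (Real.exp (-(δ' j * ell n))) β ∧
        θ' * n < ((univ.filter (fun k => Real.exp (-(δ2 j * ell n)) < ‖x k‖)).card : ℝ)) := by
    apply fr_mono
    rintro σ - ⟨x, hsol, ha, hbig⟩
    by_cases h : ∀ j < J, ¬ Cov x (ρ j) (Real.exp (-(δ' j * ell n))) β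
    · left; exact ⟨x, hsol, ha, h⟩
    · push Not at h
      obtain ⟨j, hj, hcj⟩ := h
      right
      refine ⟨j, mem_range.2 hj, x, hsol, ha, hcj, ?_⟩
      have e1 : θ' * n ≤ θ2 * n := mul_le_mul_of_nonneg_right (min_le_left _ _) hn0
      have e2 : (univ.filter (fun k => Real.exp (-(δm * ell n)) < ‖x k‖)).card ≤
          (univ.filter (fun k => Real.exp (-(δ2 j * ell n)) < ‖x k‖)).card := by
        apply card_le_card
        intro k hk
        rw [mem_filter] at hk ⊢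
        refine ⟨hk.1, lt_of_le_of_lt ?_ hk.2⟩
        rw [Real.exp_le_exp]
        have := mul_le_mul_of_nonneg_right (hδmi j (mem_range.2 hj)) hl0.le
        linarith
      have e3 : ((univ.filter (fun k => Real.exp (-(δm * ell n)) < ‖x k‖)).card : ℝ) ≤
          ((univ.filter (fun k => Real.exp (-(δ2 j * ell n)) < ‖x k‖)).card : ℝ) := by exact_mod_cast e2
      linarith
  refine hincl.trans ((fr_or_le _ _ _).trans ?_)
  have hb : ∀ j ∈ range J, fr (univ : Finset (Cfg n d)) (fun σ => ∃ x : Fin n → ℂ,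
        Sol z (mult σ) E (Real.exp (-(δ * ell n))) x ∧
        (∃ a : ℂ, θ * n ≤ (bc x univ a (Real.exp (-(δ * ell n))) : ℝ)) ∧
        Cov x (ρ j) (Real.exp (-(δ' j * ell n))) β ∧
        θ' * n < ((univ.filter (fun k => Real.exp (-(δ2 j * ell n)) < ‖x k‖)).card : ℝ)) ≤
          Real.exp (-(cc * n)) := by
    intro j hj
    refine (hall j hj E hE).trans ?_
    rw [Real.exp_le_exp]
    have h1 : cc ≤ c j := (min_le_right _ _).trans (hcmi j hj)
    have := mul_le_mul_of_nonneg_right h1 hn0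
    linarith
  have h2 := fr_exists_le_card _ _ _ _ hb
  rw [card_range] at h2
  have h3 := hcov E hE
  have h4 : Real.exp (-(c0 * n)) ≤ Real.exp (-(cc * n)) := by
    rw [Real.exp_le_exp]
    have := mul_le_mul_of_nonneg_right (min_le_left c0 cm) hn0
    linarith
  linarith

end Pool.Agent.SMin2
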