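import Pool.Agent.SMin2.Base2

set_option autoImplicit false
open Finset Filter

namespace Pool.Agent.SMin2
open Pool.Agent.SMin

/-- the numerical inequality for one value `ℓ` of the rate function -/
lemma viol_core (a : ℕ) (B X C δm δp τ : ℝ) (hB : 0 < B) (hX : 0 < X) (hC : 0 < C)
    (hδm : 0 < δm) (hδp : 0 < δp) (hτ : 0 < τ) (hτ4 : τ ≤ 1 / 4) (hδ : δp ≤ τ * δm) (n : ℕ)
    (hn : 1 ≤ n) (l : ℝ) (hl : 0 ≤ l)
    (hbig : 2 * ((a * (1 + B / C ^ 2) + 1) * (C ^ 4 * (X + a) + 1) ^ 2) * (n : ℝ) ^ 3 *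
      Real.exp (-(τ * δm * l)) ≤ 1) (D T : ℕ) (hD : D ≤ a * n) (hT : T ≤ a * n) :
      ((D : ℝ) + T * B / (C * Real.exp (-(δm * l))) ^ 2) ^ D <
        (1 + (Real.exp (-(δp * l)) / C) ^ 2 / ((C * Real.exp (-(δm * l))) ^ 2 * (X + T))) ^
          (⌊(1 + 2 * τ) * D⌋₊ + 1) := by
  have hn0 : (0 : ℝ) < n := by exact_mod_cast hn
  have hn1 : (1 : ℝ) ≤ n := by exact_mod_cast hn
  have ha0 : (0 : ℝ) ≤ a := Nat.cast_nonneg _
  have hD0 : (0 : ℝ) ≤ D := Nat.cast_nonneg _
  have hT0 : (0 : ℝ) ≤ T := Nat.cast_nonneg _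
  have hDr : (D : ℝ) ≤ a * n := by exact_mod_cast hD
  have hTr : (T : ℝ) ≤ a * n := by exact_mod_cast hT
  set p0 : ℝ := a * (1 + B / C ^ 2) + 1 with hp0
  set q0 : ℝ := C ^ 4 * (X + a) + 1 with hq0
  have hp0pos : 0 < p0 := by positivity
  have hq0one : 1 ≤ q0 := by
    have : 0 ≤ C ^ 4 * (X + a) := by positivity
    linarith
  have hq0pos : 0 < q0 := by linarith
  set R : ℝ := 1 + (Real.exp (-(δp * l)) / C) ^ 2 / ((C * Real.exp (-(δm * l))) ^ 2 * (X + T))
    with hR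
  have hexpm : Real.exp (-(δm * l)) ^ 2 = Real.exp (-(2 * δm * l)) := by
    rw [← Real.exp_nat_mul]
    congr 1
    push_cast
    ring
  have hexpp : Real.exp (-(δp * l)) ^ 2 = Real.exp (-(2 * δp * l)) := by
    rw [← Real.exp_nat_mul]
    congr 1
    push_cast
    ring
  have hfrac : 0 < (Real.exp (-(δp * l)) / C) ^ 2 / ((C * Real.exp (-(δm * l))) ^ 2 * (X + T)) := by
    positivity
  have hR1 : 1 < R := by linarith
  rcases Nat.eq_zero_or_pos D with hDz | hDpos
  · subst hDz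
    simp only [Nat.cast_zero, mul_zero, Nat.floor_zero, zero_add, pow_zero, pow_one]
    exact hR1
  have hDpos' : (0 : ℝ) < D := by exact_mod_cast hDpos
  -- left base
  have hLb : (D : ℝ) + T * B / (C * Real.exp (-(δm * l))) ^ 2 ≤ p0 * n * Real.exp (2 * δm * l) := by
    have e1 : 1 ≤ Real.exp (2 * δm * l) := Real.one_le_exp (by positivity)
    have e2 : (T : ℝ) * B / (C * Real.exp (-(δm * l))) ^ 2 =
        T * (B / C ^ 2) * Real.exp (2 * δm * l) := by
      rw [mul_pow, hexpm, Real.exp_neg]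
      field_simp
    rw [e2]
    calc (D : ℝ) + T * (B / C ^ 2) * Real.exp (2 * δm * l)
        ≤ (a * n) * Real.exp (2 * δm * l) + (a * n) * (B / C ^ 2) * Real.exp (2 * δm * l) := by
          apply add_le_add
          · calc (D : ℝ) ≤ a * n := hDr
              _ = (a * n) * 1 := by ring
              _ ≤ (a * n) * Real.exp (2 * δm * l) := by gcongr
          · gcongr
      _ = (a * (1 + B / C ^ 2)) * n * Real.exp (2 * δm * l) := by ring
      _ ≤ p0 * n * Real.exp (2 * δm * l) := by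
          gcongr
          linarith
  -- right base
  have hRb : Real.exp (2 * (δm - δp) * l) / (q0 * n) ≤ R := by
    have e1 : (Real.exp (-(δp * l)) / C) ^ 2 / ((C * Real.exp (-(δm * l))) ^ 2 * (X + T)) =
        Real.exp (2 * (δm - δp) * l) / (C ^ 4 * (X + T)) := by
      have e3 : Real.exp (2 * (δm - δp) * l) = Real.exp (-(2 * δp * l)) / Real.exp (-(2 * δm * l)) := by
        rw [← Real.exp_sub]
        congr 1
        ring
      rw [div_pow, mul_pow, hexpm, hexpp, e3]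
      field_simp
    have e2 : C ^ 4 * (X + T) ≤ q0 * n := by
      calc C ^ 4 * (X + T) ≤ C ^ 4 * (X * n + a * n) := by
            gcongr
            nlinarith
        _ = (C ^ 4 * (X + a)) * n := by ring
        _ ≤ q0 * n := by
            gcongr
            linarith
    rw [hR, e1]
    have e4 : Real.exp (2 * (δm - δp) * l) / (q0 * n) ≤
        Real.exp (2 * (δm - δp) * l) / (C ^ 4 * (X + T)) := by gcongr
    linarith
  -- main comparison
  have hmain : p0 * n * Real.exp (2 * δm * l) < R ^ (1 + 2 * τ) := by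
    have h1 : (Real.exp (2 * (δm - δp) * l) / (q0 * n)) ^ (1 + 2 * τ) ≤ R ^ (1 + 2 * τ) := by
      apply Real.rpow_le_rpow (by positivity) hRb (by linarith)
    have h2 : Real.exp ((2 + τ) * δm * l) / (q0 * n) ^ 2 ≤
        (Real.exp (2 * (δm - δp) * l) / (q0 * n)) ^ (1 + 2 * τ) := by
      rw [Real.div_rpow (Real.exp_pos _).le (by positivity), ← Real.exp_mul]
      have hqn : 1 ≤ q0 * n := one_le_mul_of_one_le_of_one_le hq0one hn1
      have h3 : (q0 * n) ^ (1 + 2 * τ) ≤ (q0 * n) ^ 2 := by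
        rw [← Real.rpow_natCast]
        apply Real.rpow_le_rpow_of_exponent_le hqn
        push_cast
        linarith
      have h4 : Real.exp ((2 + τ) * δm * l) ≤ Real.exp (2 * (δm - δp) * l * (1 + 2 * τ)) := by
        apply Real.exp_le_exp.2
        have h5 : (2 + τ) * δm ≤ 2 * (δm - δp) * (1 + 2 * τ) := by
          have h6 : δm - τ * δm ≤ δm - δp := by linarith
          have h7 : 2 * (δm - τ * δm) * (1 + 2 * τ) ≤ 2 * (δm - δp) * (1 + 2 * τ) := by gcongr
          have h8 : (2 + τ) * δm ≤ 2 * (δm - τ * δm) * (1 + 2 * τ) := by nlinarith [mul_pos hτ hδm]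
          linarith
        calc (2 + τ) * δm * l ≤ 2 * (δm - δp) * (1 + 2 * τ) * l := by gcongr
          _ = _ := by ring
      apply div_le_div₀ (Real.exp_pos _).le h4 (by positivity) h3
    have h5 : p0 * n * Real.exp (2 * δm * l) < Real.exp ((2 + τ) * δm * l) / (q0 * n) ^ 2 := by
      rw [lt_div_iff₀ (by positivity)]
      have e1 : Real.exp ((2 + τ) * δm * l) = Real.exp (2 * δm * l) * Real.exp (τ * δm * l) := by
        rw [← Real.exp_add]
        congr 1
        ring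
      have e2 : Real.exp (-(τ * δm * l)) = (Real.exp (τ * δm * l))⁻¹ := Real.exp_neg _
      rw [e2, ← div_eq_mul_inv, div_le_one (Real.exp_pos _)] at hbig
      have e3 : p0 * q0 ^ 2 * (n : ℝ) ^ 3 < Real.exp (τ * δm * l) := by
        have : 0 < p0 * q0 ^ 2 * (n : ℝ) ^ 3 := by positivity
        nlinarith
      rw [e1]
      calc p0 * n * Real.exp (2 * δm * l) * (q0 * n) ^ 2
          = Real.exp (2 * δm * l) * (p0 * q0 ^ 2 * (n : ℝ) ^ 3) := by ring
        _ < Real.exp (2 * δm * l) * Real.exp (τ * δm * l) := by gcongr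
    exact h5.trans_le (h2.trans h1)
  calc ((D : ℝ) + T * B / (C * Real.exp (-(δm * l))) ^ 2) ^ D
      ≤ (p0 * n * Real.exp (2 * δm * l)) ^ D := by
        apply pow_le_pow_left₀ (by positivity) hLb
    _ < (R ^ (1 + 2 * τ)) ^ D := by
        apply pow_lt_pow_left₀ hmain (by positivity) hDpos.ne'
    _ = R ^ ((1 + 2 * τ) * (D : ℝ)) := by
        rw [← Real.rpow_mul_natCast (by linarith)]
    _ ≤ R ^ ((⌊(1 + 2 * τ) * D⌋₊ + 1 : ℕ) : ℝ) := by
        apply Real.rpow_le_rpow_of_exponent_le hR1.le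
        push_cast
        exact (Nat.lt_floor_add_one _).le
    _ = R ^ (⌊(1 + 2 * τ) * D⌋₊ + 1) := Real.rpow_natCast _ _

/-- asymptotic form of the numerical hypothesis `hV` of `redundancy` -/
theorem viol_bound (ell : ℕ → ℝ) (hell : Rate ell) (a : ℕ) (B X C δm δp τ : ℝ) (hB : 0 < B)
    (hX : 0 < X) (hC : 0 < C) (hδm : 0 < δm) (hδp : 0 < δp) (hτ : 0 < τ) (hτ4 : τ ≤ 1 / 4)
    (hδ : δp ≤ τ * δm) :
    ∀ᶠ n : ℕ in atTop, ∀ D T : ℕ, D ≤ a * n → T ≤ a * n →
      ((D : ℝ) + T * B / (C * Real.exp (-(δm * ell n))) ^ 2) ^ D <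
        (1 + (Real.exp (-(δp * ell n)) / C) ^ 2 /
          ((C * Real.exp (-(δm * ell n))) ^ 2 * (X + T))) ^
          (⌊(1 + 2 * τ) * D⌋₊ + 1) := by
  filter_upwards [eventually_ge_atTop 1, hell.pos, hell.exp_le (τ * δm) (mul_pos hτ hδm)
    (2 * ((a * (1 + B / C ^ 2) + 1) * (C ^ 4 * (X + a) + 1) ^ 2)) 3] with n hn hpos hbig
  intro D T hD hT
  exact viol_core a B X C δm δp τ hB hX hC hδm hδp hτ hτ4 hδ n hn (ell n) hpos.le hbig D T hD hT

end Pool.Agent.SMin2
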